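import Pool.Agent.H36.ST.Main

/-!
Jensen's metrics are Einstein.
-/

namespace Pool.H36.ST

open Matrix

variable {m : ℕ}

theorem br_gl {R : Matrix (Fin 3) (Fin 3) ℝ} (hR : Rᵀ * R = 1) (hd : R.det = 1)
    (u v : Fin 3 → ℝ) (z : Fin m → Fin 3 → ℝ) :
    bracket (mkR R u z) (mkR R v 0) =
      mkR R (crossProduct u v) (fun i => -(crossProduct v (z i))) := by
  rw [bracket_mkR hR hd]
  congr 1
  · simp
  · funext i
    simp

theorem br_gr {R : Matrix (Fin 3) (Fin 3) ℝ} (hR : Rᵀ * R = 1) (hd : R.det = 1)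
    (u y : Fin 3 → ℝ) (z : Fin m → Fin 3 → ℝ) (i : Fin m) :
    bracket (mkR R u z) (mkR R 0 (Pi.single i y)) =
      mkR R (crossProduct (z i) y) (Pi.single i (crossProduct u y)) := by
  rw [bracket_mkR hR hd]
  congr 1
  · rw [Finset.sum_eq_single i]
    · simp
    · intro l _ hl
      rw [Pi.single_eq_of_ne hl]
      simp
    · simp
  · funext l
    by_cases hl : l = i
    · subst hl
      simp
    · simp [Pi.single_eq_of_ne hl]

/-- scalar matrices -/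
theorem sc1 (al : ℝ) (u : Fin 3 → ℝ) :
    ∑ a, (crossProduct u (fun i => (al • (1 : Matrix (Fin 3) (Fin 3) ℝ)) i a)) ⬝ᵥ
      (crossProduct u (fun i => (al • (1 : Matrix (Fin 3) (Fin 3) ℝ)) i a)) =
      2 * al ^ 2 * (u ⬝ᵥ u) := by
  simp [Fin.sum_univ_three, cross_apply, dotProduct, Matrix.one_apply]
  ring

theorem sc2 (al be : ℝ) (v : Fin 3 → ℝ) :
    ∑ a, ∑ b, ((crossProduct (fun i => (al • (1 : Matrix (Fin 3) (Fin 3) ℝ)) i a)
      (fun i => (be • (1 : Matrix (Fin 3) (Fin 3) ℝ)) i b)) ⬝ᵥ v) ^ 2 =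
      2 * al ^ 2 * be ^ 2 * (v ⬝ᵥ v) := by
  simp [Fin.sum_univ_three, cross_apply, dotProduct, Matrix.one_apply]
  ring

theorem sum_neg_cross (al : ℝ) (z : Fin 3 → ℝ) :
    ∑ a, (-(crossProduct (fun i => (al • (1 : Matrix (Fin 3) (Fin 3) ℝ)) i a) z)) ⬝ᵥ
      (-(crossProduct (fun i => (al • (1 : Matrix (Fin 3) (Fin 3) ℝ)) i a) z)) =
      2 * al ^ 2 * (z ⬝ᵥ z) := by
  simp [Fin.sum_univ_three, cross_apply, dotProduct, Matrix.one_apply]
  ring

theorem ricci_jensen {R : Matrix (Fin 3) (Fin 3) ℝ} (hR : Rᵀ * R = 1) (hd : R.det = 1)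
    {g : LinearMap.BilinForm ℝ (Compl 3 m)} (p x al be : ℝ) (hal : al ^ 2 * p = 1)
    (hbe : be ^ 2 * x = 1)
    (hg : ∀ u v : Fin 3 → ℝ, ∀ z w : Fin m → Fin 3 → ℝ,
        g (mkR R u z) (mkR R v w) = p * (u ⬝ᵥ v) + x * ∑ i, z i ⬝ᵥ w i)
    (u : Fin 3 → ℝ) (z : Fin m → Fin 3 → ℝ) :
    ricci g (fam R (al • 1) (be • 1)) (mkR R u z) =
      (1 / 2 + m / 2 * (p / x) ^ 2) * (u ⬝ᵥ u)
        + (((m : ℝ) + 1) - p / x) * ∑ i, z i ⬝ᵥ z i := by
  have hp0 : p ≠ 0 := by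
    rintro rfl
    simp at hal
  have hx0 : x ≠ 0 := by
    rintro rfl
    simp at hbe
  have ha2 : al ^ 2 = 1 / p := by field_simp; linarith
  have hb2 : be ^ 2 = 1 / x := by field_simp; linarith
  have gs : ∀ (a b v : Fin 3 → ℝ) (w : Fin m → Fin 3 → ℝ) (i : Fin m),
      g (mkR R a (Pi.single i v)) (mkR R b w) = p * (a ⬝ᵥ b) + x * (v ⬝ᵥ w i) := by
    intro a b v w i
    rw [hg, Finset.sum_eq_single i]
    · simp
    · intro l _ hl
      rw [Pi.single_eq_of_ne hl]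
      simp
    · simp
  have g0 : ∀ (a b : Fin 3 → ℝ) (w : Fin m → Fin 3 → ℝ),
      g (mkR R a 0) (mkR R b w) = p * (a ⬝ᵥ b) := by
    intro a b w
    rw [hg]
    simp
  rw [ricci, killing_mkR hR]
  simp only [Fintype.sum_sum_type, Fintype.sum_prod_type, fam, br_ll hR hd, br_lr hR hd,
    br_rl hR hd, br_rr hR hd, br_gl hR hd, br_gr hR hd, gs, g0]
  simp only [hg, Pi.single_eq_same, Finset.sum_add_distrib]
  have A1 := sc1 al u
  have A2 : ∑ a, ∑ i, (-(crossProduct (fun i => (al • (1 : Matrix (Fin 3) (Fin 3) ℝ)) i a)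
      (z i))) ⬝ᵥ (-(crossProduct (fun i => (al • (1 : Matrix (Fin 3) (Fin 3) ℝ)) i a) (z i))) =
      2 * al ^ 2 * ∑ i, z i ⬝ᵥ z i := by
    rw [Finset.sum_comm, Finset.mul_sum]
    exact Finset.sum_congr rfl (fun i _ => sum_neg_cross al (z i))
  have A3 : ∑ i : Fin m, ∑ b, (crossProduct (z i) (fun j => (be • (1 : Matrix (Fin 3) (Fin 3) ℝ))
      j b)) ⬝ᵥ (crossProduct (z i) (fun j => (be • (1 : Matrix (Fin 3) (Fin 3) ℝ)) j b)) =
      2 * be ^ 2 * ∑ i, z i ⬝ᵥ z i := by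
    rw [Finset.mul_sum]
    exact Finset.sum_congr rfl (fun i _ => sc1 be (z i))
  have A4 : ∑ _i : Fin m, ∑ b, (crossProduct u (fun j => (be • (1 : Matrix (Fin 3) (Fin 3) ℝ))
      j b)) ⬝ᵥ (crossProduct u (fun j => (be • (1 : Matrix (Fin 3) (Fin 3) ℝ)) j b)) =
      m * (2 * be ^ 2 * (u ⬝ᵥ u)) := by
    rw [sc1 be u]
    simp
  have A5 := sc2 al al u
  have A6 : ∑ a, ∑ i : Fin m, ∑ b, ((crossProduct (fun j => (al • (1 : Matrix (Fin 3) (Fin 3) ℝ))
      j a) (fun j => (be • (1 : Matrix (Fin 3) (Fin 3) ℝ)) j b)) ⬝ᵥ z i) ^ 2 =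
      2 * al ^ 2 * be ^ 2 * ∑ i, z i ⬝ᵥ z i := by
    rw [Finset.sum_comm, Finset.mul_sum]
    exact Finset.sum_congr rfl (fun i _ => sc2 al be (z i))
  have A7 : ∑ i : Fin m, ∑ b, ∑ a, ((-(crossProduct (fun j => (al • (1 : Matrix (Fin 3) (Fin 3) ℝ))
      j a) (fun j => (be • (1 : Matrix (Fin 3) (Fin 3) ℝ)) j b))) ⬝ᵥ z i) ^ 2 =
      2 * al ^ 2 * be ^ 2 * ∑ i, z i ⬝ᵥ z i := by
    rw [Finset.mul_sum]
    refine Finset.sum_congr rfl (fun i _ => ?_)
    rw [Finset.sum_comm, ← sc2 al be (z i)]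
    refine Finset.sum_congr rfl (fun a _ => Finset.sum_congr rfl (fun b _ => ?_))
    rw [neg_dotProduct]
    ring
  have A8 := sum_four (m := m) (fun a b => crossProduct
    (fun i => (be • (1 : Matrix (Fin 3) (Fin 3) ℝ)) i a)
    (fun i => (be • (1 : Matrix (Fin 3) (Fin 3) ℝ)) i b)) u
  have A9 := sc2 be be u
  simp only [zero_dotProduct, mul_zero, zero_add, mul_pow, ← Finset.mul_sum]
  rw [A1, A2, A3, A4, A5, A6, A7, A8, A9, ha2, hb2]
  field_simp
  ring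

theorem exists_isEinstein_aux {g : LinearMap.BilinForm ℝ (Compl 3 m)}
    (x y : ℝ) (hx : 0 < x) (hy : 0 < y)
    (hq : ((m : ℝ) + 2) * y ^ 2 - 2 * ((m : ℝ) + 1) * y + 1 = 0)
    (hj : ∀ X Y, g X Y = x * jensenValue y X Y) (hs : ∀ X Y, g X Y = g Y X) :
    IsEinstein g := by
  have h1 : ((1 : Matrix (Fin 3) (Fin 3) ℝ))ᵀ * 1 = 1 := by simp
  have hd : ((1 : Matrix (Fin 3) (Fin 3) ℝ)).det = 1 := by simp
  have hxy : 0 < x * y := mul_pos hx hy
  have e1 : (Real.sqrt (x * y))⁻¹ ^ 2 * (x * y) = 1 := by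
    rw [inv_pow, Real.sq_sqrt hxy.le, inv_mul_cancel₀ hxy.ne']
  have e2 : (Real.sqrt x)⁻¹ ^ 2 * x = 1 := by
    rw [inv_pow, Real.sq_sqrt hx.le, inv_mul_cancel₀ hx.ne']
  set al := (Real.sqrt (x * y))⁻¹
  set be := (Real.sqrt x)⁻¹
  have hg : ∀ u v : Fin 3 → ℝ, ∀ z w : Fin m → Fin 3 → ℝ,
      g (mkR 1 u z) (mkR 1 v w) = (x * y) * (u ⬝ᵥ v) + x * ∑ i, z i ⬝ᵥ w i := by
    intro u v z w
    rw [hj, mkR, mkR, jensen_mk]
    simp only [Matrix.one_mulVec]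
    ring
  have hg' : ∀ u v : Fin 3 → ℝ, ∀ z w : Fin m → Fin 3 → ℝ,
      g (mkR 1 u z) (mkR 1 v w) = u ⬝ᵥ (((x * y) • (1 : Matrix (Fin 3) (Fin 3) ℝ)) *ᵥ v)
        + ∑ i, z i ⬝ᵥ ((x • (1 : Matrix (Fin 3) (Fin 3) ℝ)) *ᵥ w i) := by
    intro u v z w
    rw [hg]
    simp only [Matrix.smul_mulVec, Matrix.one_mulVec, dotProduct_smul, smul_eq_mul]
    rw [Finset.mul_sum]
  have hW : (al • (1 : Matrix (Fin 3) (Fin 3) ℝ))ᵀ * ((x * y) • (1 : Matrix (Fin 3) (Fin 3) ℝ))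
      * (al • (1 : Matrix (Fin 3) (Fin 3) ℝ)) = 1 := by
    rw [Matrix.transpose_smul, Matrix.transpose_one]
    simp only [Matrix.mul_smul, Matrix.mul_one, smul_smul]
    have : al * (x * y * al) = 1 := by linear_combination e1
    rw [this, one_smul]
  have hY : (be • (1 : Matrix (Fin 3) (Fin 3) ℝ))ᵀ * (x • (1 : Matrix (Fin 3) (Fin 3) ℝ))
      * (be • (1 : Matrix (Fin 3) (Fin 3) ℝ)) = 1 := by
    rw [Matrix.transpose_smul, Matrix.transpose_one]
    simp only [Matrix.mul_smul, Matrix.mul_one, smul_smul]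
    have : be * (x * be) = 1 := by linear_combination e2
    rw [this, one_smul]
  obtain ⟨f, hf, ho⟩ := exists_obasis (m := m) h1 g hg' hW hY
  refine ⟨(((m : ℝ) + 1) - y) / x, _, f.reindex (Fintype.equivFin _), ?_, ?_⟩
  · intro i j
    rw [Module.Basis.reindex_apply, Module.Basis.reindex_apply, ho]
    simp
  · intro X
    rw [ricci_indep g hs (f.reindex (Fintype.equivFin _)) f (by
      intro i j
      rw [Module.Basis.reindex_apply, Module.Basis.reindex_apply, ho]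
      simp) ho X]
    have hfe : (fun i => f i) = fam 1 (al • 1) (be • 1) := funext hf
    obtain ⟨u, z, rfl⟩ := exists_mkR h1 X
    have hr := ricci_jensen h1 hd (x * y) x al be e1 e2 hg u z
    rw [← hfe] at hr
    rw [hr, hg]
    have hx0 := hx.ne'
    field_simp
    linear_combination (u ⬝ᵥ u) * hq

theorem dot_rot_gen (h : Matrix (Fin m) (Fin m) ℝ) (h2 : hᵀ * h = 1) (a b : Fin m → ℝ) :
    (h *ᵥ a) ⬝ᵥ (h *ᵥ b) = a ⬝ᵥ b := by
  rw [Matrix.dotProduct_mulVec, Matrix.vecMul_mulVec, ← Matrix.dotProduct_mulVec, h2,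
    Matrix.one_mulVec]

theorem jensen_invariant {g : LinearMap.BilinForm ℝ (Compl 3 m)}
    (x y : ℝ) (hx : 0 < x) (hy : 0 < y) (hj : ∀ X Y, g X Y = x * jensenValue y X Y) :
    IsInvariantMetric g := by
  refine ⟨?_, ?_, ?_⟩
  · intro X Y
    obtain ⟨u, z, rfl⟩ := exists_mk X
    obtain ⟨v, w, rfl⟩ := exists_mk Y
    rw [hj, hj, jensen_mk, jensen_mk, dotProduct_comm u v]
    congr 2
    exact Finset.sum_congr rfl (fun i _ => dotProduct_comm _ _)
  · intro X hX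
    obtain ⟨u, z, rfl⟩ := exists_mk X
    rw [hj, jensen_mk]
    refine mul_pos hx ?_
    have a1 : 0 ≤ u ⬝ᵥ u := by
      simp only [dotProduct, Fin.sum_univ_three]
      nlinarith [mul_self_nonneg (u 0), mul_self_nonneg (u 1), mul_self_nonneg (u 2)]
    have a2 : ∀ i, 0 ≤ z i ⬝ᵥ z i := by
      intro i
      simp only [dotProduct, Fin.sum_univ_three]
      nlinarith [mul_self_nonneg (z i 0), mul_self_nonneg (z i 1), mul_self_nonneg (z i 2)]
    have a3 : 0 ≤ ∑ i, z i ⬝ᵥ z i := Finset.sum_nonneg (fun i _ => a2 i)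
    rcases lt_or_eq_of_le (add_nonneg (mul_nonneg hy.le a1) a3) with h | h
    · exact h
    · exfalso
      have b1 : u ⬝ᵥ u = 0 := by
        have : y * (u ⬝ᵥ u) = 0 := by nlinarith [mul_nonneg hy.le a1]
        rcases mul_eq_zero.mp this with h0 | h0
        · exact absurd h0 hy.ne'
        · exact h0
      have b2 : ∑ i, z i ⬝ᵥ z i = 0 := by
        rw [b1] at h
        linarith
      have b3 := (Finset.sum_eq_zero_iff_of_nonneg (fun i _ => a2 i)).mp b2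
      apply hX
      have c1 : u = 0 := dotProduct_self_eq_zero.mp b1
      have c2 : z = 0 := by
        funext i
        exact dotProduct_self_eq_zero.mp (b3 i (Finset.mem_univ i))
      rw [c1, c2]
      have := mk_smul 0 (0 : Fin 3 → ℝ) (0 : Fin m → Fin 3 → ℝ)
      simpa using this
  · intro h hh _ X Y
    obtain ⟨u, z, rfl⟩ := exists_mk X
    obtain ⟨v, w, rfl⟩ := exists_mk Y
    rw [Ad_mk, Ad_mk, hj, hj, jensen_mk, jensen_mk]
    congr 2
    have h2 : hᵀ * h = 1 := mul_eq_one_comm.mp hh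
    have key : ∀ a : Fin 3, ∑ i, (∑ j, h i j * z j a) * (∑ j, h i j * w j a) =
        ∑ j, z j a * w j a := by
      intro a
      have e := dot_rot_gen h h2 (fun j => z j a) (fun j => w j a)
      simpa [Matrix.mulVec, dotProduct] using e
    simp only [dotProduct]
    refine Finset.sum_comm.trans ?_
    refine Eq.trans ?_ Finset.sum_comm
    exact Finset.sum_congr rfl (fun a _ => key a)

end Pool.H36.ST
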