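import Pool.Agent.H36.ST.Stmt
import Pool.Agent.H36.ST.Converse

/-!
The classification in terms of the definitions of the module `Stmt`.
-/

namespace Pool.H36.ST

open Matrix

variable {k m : ℕ}

theorem exists_form {g : Compl k m → Compl k m → ℝ} (hs : ∀ X Y, g X Y = g Y X)
    (ha : IsAdd g) (hh : IsHom g) :
    ∃ G : LinearMap.BilinForm ℝ (Compl k m), ∀ X Y, G X Y = g X Y := by
  refine ⟨LinearMap.mk₂ ℝ g ha (fun c X Y => by rw [hh, smul_eq_mul])
    (fun X Y Z => by rw [hs X, ha, hs Y, hs Z])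
    (fun c X Y => by rw [hs X, hh, hs Y, smul_eq_mul]), fun X Y => rfl⟩

theorem isEinstein_of_isEin {g : Compl k m → Compl k m → ℝ}
    {G : LinearMap.BilinForm ℝ (Compl k m)} (hG : ∀ X Y, G X Y = g X Y) (h : IsEin g) :
    IsEinstein G := by
  obtain ⟨c, d, e, ⟨ho, hsp⟩, hr⟩ := h
  have ho' : ∀ i j, G (e i) (e j) = if i = j then 1 else 0 := fun i j => by rw [hG, ho]
  have hli : LinearIndependent ℝ e := by
    rw [Fintype.linearIndependent_iff]
    intro a hc j
    have h1 : G (∑ i, a i • e i) (e j) = 0 := by rw [hc]; simp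
    rw [map_sum, LinearMap.sum_apply] at h1
    simp only [map_smul, LinearMap.smul_apply, ho', smul_eq_mul, mul_ite, mul_one, mul_zero,
      Finset.sum_ite_eq', Finset.mem_univ, if_true] at h1
    exact h1
  refine ⟨c, d, Module.Basis.mk hli (le_of_eq hsp.symm), ?_, ?_⟩
  · intro i j
    simp only [Module.Basis.mk_apply]
    exact ho' i j
  · intro X
    have he : (fun i => Module.Basis.mk hli (le_of_eq hsp.symm) i) = e := by
      funext i
      simp
    rw [hG, ← hr X]
    simp only [ricci, ric, hG, Module.Basis.mk_apply]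

theorem isEin_of_isEinstein {g : Compl k m → Compl k m → ℝ}
    {G : LinearMap.BilinForm ℝ (Compl k m)} (hG : ∀ X Y, G X Y = g X Y) (h : IsEinstein G) :
    IsEin g := by
  obtain ⟨c, d, e, ho, hr⟩ := h
  refine ⟨c, d, fun i => e i, ⟨fun i j => by rw [← hG, ho], e.span_eq⟩, fun X => ?_⟩
  rw [← hG, ← hr X]
  simp only [ricci, ric, hG]

theorem classification (hm : 3 ≤ m) (g : Compl 3 m → Compl 3 m → ℝ) :
    (IsInvMetric g ∧ IsEin g) ↔
      ∃ x y : ℝ, 0 < x ∧ 0 < y ∧ ((m : ℝ) + 2) * y ^ 2 - 2 * ((m : ℝ) + 1) * y + 1 = 0 ∧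
        IsJensen x y g := by
  constructor
  · rintro ⟨⟨⟨hs, ha, hh, hp⟩, hinv⟩, he⟩
    obtain ⟨G, hG⟩ := exists_form hs ha hh
    have hI : IsInvariantMetric G :=
      ⟨fun X Y => by rw [hG, hG, hs], fun X hX => by rw [hG]; exact hp X hX,
        fun h h1 h2 X Y => by rw [hG, hG]; exact hinv h h1 h2 X Y⟩
    obtain ⟨x, y, hx, hy, hq, hj⟩ := main_thm hm G hI (isEinstein_of_isEin hG he)
    exact ⟨x, y, hx, hy, hq, fun X Y => by rw [← hG]; exact hj X Y⟩
  · rintro ⟨x, y, hx, hy, hq, hj⟩
    have hs : ∀ X Y, g X Y = g Y X := by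
      intro X Y
      rw [hj, hj]
      simp only [jensenValue]
      congr 2
      · congr 2
        exact Finset.sum_congr rfl (fun a _ => Finset.sum_congr rfl (fun b _ => mul_comm _ _))
      · exact Finset.sum_congr rfl (fun a _ => Finset.sum_congr rfl (fun b _ => mul_comm _ _))
    have ha : IsAdd g := by
      intro X Y Z
      rw [hj, hj, hj]
      simp only [jensenValue, Submodule.coe_add, Matrix.add_apply, add_mul,
        Finset.sum_add_distrib]
      ring
    have hh : IsHom g := by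
      intro c X Y
      rw [hj, hj]
      simp only [jensenValue, Submodule.coe_smul, Matrix.smul_apply, smul_eq_mul, mul_assoc,
        ← Finset.mul_sum]
      ring
    obtain ⟨G, hG⟩ := exists_form hs ha hh
    have hjG : ∀ X Y, G X Y = x * jensenValue y X Y := fun X Y => by rw [hG, hj]
    have hI := jensen_invariant x y hx hy hjG
    have hE := exists_isEinstein_aux x y hx hy hq hjG hI.symm
    refine ⟨⟨⟨hs, ha, hh, fun X hX => by rw [← hG]; exact hI.pos X hX⟩, ?_⟩,
      isEin_of_isEinstein hG hE⟩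
    intro h h1 h2 X Y
    rw [← hG, ← hG]
    exact hI.inv h h1 h2 X Y

end Pool.H36.ST
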