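import Mathlib

/-!
One off-diagonal entry in the `𝔰𝔬(3)`-part is impossible. Indices `i, j, k`; `al = P_ii`,
`be = P_jj`, `ga = P_ij ≠ 0`, `p = P_kk`, the other entries zero; `t = al + be`,
`de = al be - ga²`, `tau = (p² + al² + be² + 2 ga²)/2 = (p² + t² - 2 de)/2`.
`block_lam_neg`: `(Eij)/ga` (with `(B³)_ij = (t² - de) ga`):
`lam = (m/2)(al/(xj xk) + be/(xi xk)) + (t² - p²)/(2 p de)`. Inserted in `Eii`, `Ejj`
(`(B³)_ii = (t² - de) al - t de`): `(m/2)(xj/xk + xk/xj + de/(xi xk)) = m + 1 - t/p`,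
`(m/2)(xi/xk + xk/xi + de/(xj xk)) = m + 1 - t/p`. As `xi ≠ xj`: `de = xk² - xi xj`, and
`(m/2)(xk/xi + xk/xj) = m + 1 - t/p`. As `xk² > xi xj`, `xk/xi + xk/xj > 2`, so `t < p` and
`p - t = (m p/2)(xk/xi + xk/xj - 2)`. Then
`al/xj + be/xi = 2 xk lam/m + (xk/2)(p + t)(xk/xi + xk/xj - 2)/de`, `p + t > 2t`, and
`al/xj - al xk (xk/xi + xk/xj - 2)/de = - al (xi - xk)²/(xi de) ≤ 0`, same for `be`: `lam < 0`.
`block_lam_pos` (`xj < xi`): `Ekk`:
`lam p = (m/2)(p² - (xi-xj)²)/(xi xj) + 2 + (p² - t²)/(2 de)`. If `p ≥ xi - xj`, done. Otherwise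
`xk < xi`: if `xk ≥ xi` then `p² > t² ≥ 4 de ≥ 4 xi (xi - xj) ≥ 4 (xi - xj)²`. So
`be < t < p < xi`, and `Xi` with `al/de ≥ 1/be` gives `lam xi > m - 1`.
-/

namespace Pool.H36.ST

theorem block_lam_neg {m lam xi xj xk al be ga p : ℝ} (hm : 3 ≤ m) (hi : 0 < xi) (hj : 0 < xj)
    (hk : 0 < xk) (hij : xi ≠ xj) (hal : 0 < al) (hbe : 0 < be) (hga : ga ≠ 0)
    (hde : 0 < al * be - ga ^ 2) (hp : 0 < p)
    (Eii : lam * al = (m + 1) - m / 2 * (xj / xk + xk / xj)
      + m / 2 * (al ^ 2 / (xj * xk) + ga ^ 2 / (xi * xk))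
      + ((al ^ 3 + 2 * al * ga ^ 2 + be * ga ^ 2)
        - (p ^ 2 + al ^ 2 + be ^ 2 + 2 * ga ^ 2) / 2 * al) / (p * (al * be - ga ^ 2)))
    (Ejj : lam * be = (m + 1) - m / 2 * (xi / xk + xk / xi)
      + m / 2 * (ga ^ 2 / (xj * xk) + be ^ 2 / (xi * xk))
      + ((be ^ 3 + 2 * be * ga ^ 2 + al * ga ^ 2)
        - (p ^ 2 + al ^ 2 + be ^ 2 + 2 * ga ^ 2) / 2 * be) / (p * (al * be - ga ^ 2)))
    (Eij : lam * ga = m / 2 * (al * ga / (xj * xk) + ga * be / (xi * xk))
      + (ga * (al ^ 2 + al * be + be ^ 2 + ga ^ 2)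
        - (p ^ 2 + al ^ 2 + be ^ 2 + 2 * ga ^ 2) / 2 * ga) / (p * (al * be - ga ^ 2))) :
    lam < 0 ∧ al * be - ga ^ 2 = xk ^ 2 - xi * xj ∧ al + be < p := by
  obtain ⟨de, hdd⟩ : ∃ de, de = al * be - ga ^ 2 := ⟨_, rfl⟩
  have hga2 : ga ^ 2 = al * be - de := by rw [hdd]; ring
  rw [← hdd] at Eii Ejj Eij hde ⊢
  have hde0 : de ≠ 0 := hde.ne'
  have hm0 : 0 < m := by linarith
  have hL : lam = m / 2 * (al / (xj * xk) + be / (xi * xk)) +
      ((al + be) ^ 2 - p ^ 2) / (2 * (p * de)) := by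
    refine mul_right_cancel₀ hga ?_
    rw [Eij]
    field_simp
    ring
  have F1 : m / 2 * (xj / xk + xk / xj + de / (xi * xk)) = m + 1 - (al + be) / p := by
    rw [hL, hga2] at Eii
    have key : (m / 2 * (al / (xj * xk) + be / (xi * xk)) +
        ((al + be) ^ 2 - p ^ 2) / (2 * (p * de))) * al -
        (m + 1 - m / 2 * (xj / xk + xk / xj) + m / 2 * (al ^ 2 / (xj * xk) + (al * be - de) / (xi * xk)) +
          (al ^ 3 + 2 * al * (al * be - de) + be * (al * be - de) -
            (p ^ 2 + al ^ 2 + be ^ 2 + 2 * (al * be - de)) / 2 * al) / (p * de)) =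
        m / 2 * (xj / xk + xk / xj + de / (xi * xk)) - (m + 1 - (al + be) / p) := by
      field_simp
      ring
    linarith
  have F2 : m / 2 * (xi / xk + xk / xi + de / (xj * xk)) = m + 1 - (al + be) / p := by
    rw [hL, hga2] at Ejj
    have key : (m / 2 * (al / (xj * xk) + be / (xi * xk)) +
        ((al + be) ^ 2 - p ^ 2) / (2 * (p * de))) * be -
        (m + 1 - m / 2 * (xi / xk + xk / xi) + m / 2 * ((al * be - de) / (xj * xk) + be ^ 2 / (xi * xk)) +
          (be ^ 3 + 2 * be * (al * be - de) + al * (al * be - de) -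
            (p ^ 2 + al ^ 2 + be ^ 2 + 2 * (al * be - de)) / 2 * be) / (p * de)) =
        m / 2 * (xi / xk + xk / xi + de / (xj * xk)) - (m + 1 - (al + be) / p) := by
      field_simp
      ring
    linarith
  have hd : de = xk ^ 2 - xi * xj := by
    have key : (xj / xk + xk / xj + de / (xi * xk)) - (xi / xk + xk / xi + de / (xj * xk)) =
        (xi - xj) * (xk ^ 2 - xi * xj - de) / (xi * xj * xk) := by
      field_simp
      ring
    have h1 : m / 2 * ((xi - xj) * (xk ^ 2 - xi * xj - de) / (xi * xj * xk)) = 0 := by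
      rw [← key]
      linarith
    have h2 : (xi - xj) * (xk ^ 2 - xi * xj - de) / (xi * xj * xk) = 0 := by
      rcases mul_eq_zero.1 h1 with h | h
      · linarith
      · exact h
    have h3 : (xi - xj) * (xk ^ 2 - xi * xj - de) = 0 := by
      rcases div_eq_zero_iff.1 h2 with h | h
      · exact h
      · exact absurd h (by positivity)
    rcases mul_eq_zero.1 h3 with h | h
    · exact absurd (sub_eq_zero.1 h) hij
    · linarith
  obtain ⟨W, hW⟩ : ∃ W, W = xk / xi + xk / xj - 2 := ⟨_, rfl⟩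
  have F3 : m / 2 * W = 1 - (al + be) / p := by
    have key : xj / xk + xk / xj + de / (xi * xk) = xk / xi + xk / xj +
        (de - (xk ^ 2 - xi * xj)) / (xi * xk) := by
      field_simp
      ring
    rw [hd, sub_self, zero_div, ← hd] at key
    rw [key] at F1
    rw [hW]
    linarith
  have hW0 : 0 < W := by
    have h1 : 2 * (xi * xj) < xk * (xi + xj) := by
      by_contra hcon
      have h2 := pow_le_pow_left₀ (by positivity) (not_lt.1 hcon) 2
      have h3 : xi * xj < xk ^ 2 := by linarith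
      have h4 := mul_lt_mul_of_pos_right h3 (by positivity : 0 < (xi + xj) ^ 2)
      have h5 : 4 * (xi * xj) ≤ (xi + xj) ^ 2 := by nlinarith [sq_nonneg (xi - xj)]
      have h6 := mul_le_mul_of_nonneg_left h5 (by positivity : 0 ≤ xi * xj)
      nlinarith
    have h2 : W = (xk * (xi + xj) - 2 * (xi * xj)) / (xi * xj) := by
      rw [hW]
      field_simp
      ring
    rw [h2]
    exact div_pos (by linarith) (by positivity)
  have ht : al + be < p := by
    have h1 : 0 < 1 - (al + be) / p := by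
      rw [← F3]
      positivity
    have h2 : (al + be) / p < 1 := by linarith
    rwa [div_lt_one hp] at h2
  refine ⟨?_, hd, ht⟩
  have G1 : 1 / (xj * xk) - W / de ≤ 0 := by
    have key : 1 / (xj * xk) - W / de = (de - (xk ^ 2 - xi * xj)) / (xj * xk * de) -
        (xi - xk) ^ 2 / (xi * xk * de) := by
      rw [hW]
      field_simp
      ring
    rw [key, hd, sub_self, zero_div, ← hd, zero_sub]
    exact neg_nonpos.2 (by positivity)
  have G2 : 1 / (xi * xk) - W / de ≤ 0 := by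
    have key : 1 / (xi * xk) - W / de = (de - (xk ^ 2 - xi * xj)) / (xi * xk * de) -
        (xj - xk) ^ 2 / (xj * xk * de) := by
      rw [hW]
      field_simp
      ring
    rw [key, hd, sub_self, zero_div, ← hd, zero_sub]
    exact neg_nonpos.2 (by positivity)
  have G3 : ((al + be) ^ 2 - p ^ 2) / (2 * (p * de)) < -(m / 2 * W * (al + be) / de) := by
    have key : ((al + be) ^ 2 - p ^ 2) / (2 * (p * de)) =
        -((1 - (al + be) / p) * (p + (al + be)) / (2 * de)) := by
      field_simp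
      ring
    rw [key, ← F3, neg_lt_neg_iff, div_lt_div_iff₀ hde (by positivity)]
    have h1 : 0 < m / 2 * W := by positivity
    have h2 : m / 2 * W * (2 * (al + be)) < m / 2 * W * (p + (al + be)) :=
      mul_lt_mul_of_pos_left (by linarith) h1
    have h3 := mul_lt_mul_of_pos_right h2 hde
    linarith
  have G4 : m / 2 * (al / (xj * xk) + be / (xi * xk)) - m / 2 * W * (al + be) / de =
      m / 2 * (al * (1 / (xj * xk) - W / de) + be * (1 / (xi * xk) - W / de)) := by
    ring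
  have G5 : m / 2 * (al * (1 / (xj * xk) - W / de) + be * (1 / (xi * xk) - W / de)) ≤ 0 := by
    have h1 := mul_nonpos_of_nonneg_of_nonpos hal.le G1
    have h2 := mul_nonpos_of_nonneg_of_nonpos hbe.le G2
    exact mul_nonpos_of_nonneg_of_nonpos (by positivity) (by linarith)
  rw [hL]
  linarith

theorem block_lam_pos {m lam xi xj xk al be ga p : ℝ} (hm : 3 ≤ m) (hj : 0 < xj)
    (hk : 0 < xk) (hij : xj < xi) (hal : 0 < al) (hbe : 0 < be)
    (hde : 0 < al * be - ga ^ 2) (hp : 0 < p)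
    (hd : al * be - ga ^ 2 = xk ^ 2 - xi * xj) (ht : al + be < p)
    (Ekk : lam * p = (m + 1) - m / 2 * (xi / xj + xj / xi) + m / 2 * (p ^ 2 / (xi * xj))
      + (p ^ 3 - (p ^ 2 + al ^ 2 + be ^ 2 + 2 * ga ^ 2) / 2 * p) / (p * (al * be - ga ^ 2)))
    (Xi : lam * xi = (m + 1) + 1 / 2 * ((xi ^ 2 / xj - xj) / p
      + al / (al * be - ga ^ 2) * (xi ^ 2 / xk - xk) - p / xj - be / xk)) :
    0 < lam := by
  obtain ⟨de, hdd⟩ : ∃ de, de = al * be - ga ^ 2 := ⟨_, rfl⟩
  have hga2 : ga ^ 2 = al * be - de := by rw [hdd]; ring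
  rw [← hdd] at Ekk Xi hde hd
  rw [hga2] at Ekk
  have hi : 0 < xi := by linarith
  have hm0 : 0 < m := by linarith
  have hde0 : de ≠ 0 := hde.ne'
  have hdb : de ≤ al * be := by
    have := sq_nonneg ga
    linarith
  by_cases hc : xi - xj ≤ p
  · have key : lam * p = m / 2 * ((p ^ 2 - (xi - xj) ^ 2) / (xi * xj)) + 2 +
        (p ^ 2 - (al + be) ^ 2) / (2 * de) := by
      rw [Ekk]
      field_simp
      ring
    have h1 : (xi - xj) ^ 2 ≤ p ^ 2 := pow_le_pow_left₀ (by linarith) hc 2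
    have h2 : (al + be) ^ 2 ≤ p ^ 2 := pow_le_pow_left₀ (by linarith) ht.le 2
    have h3 : 0 ≤ (p ^ 2 - (xi - xj) ^ 2) / (xi * xj) := div_nonneg (by linarith) (by positivity)
    have h4 : 0 ≤ (p ^ 2 - (al + be) ^ 2) / (2 * de) := div_nonneg (by linarith) (by positivity)
    have h5 : 0 < lam * p := by
      rw [key]
      have := mul_nonneg (by linarith : 0 ≤ m / 2) h3
      linarith
    exact pos_of_mul_pos_left h5 hp.le
  · have hc' : p < xi - xj := not_le.1 hc
    have hki : xk < xi := by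
      by_contra hcon
      have h1 : xi ≤ xk := not_lt.1 hcon
      have h2 : xi ^ 2 ≤ xk ^ 2 := pow_le_pow_left₀ hi.le h1 2
      have h3 : 4 * (al * be) ≤ (al + be) ^ 2 := by nlinarith [sq_nonneg (al - be)]
      have h4 : (al + be) ^ 2 < p ^ 2 := pow_lt_pow_left₀ ht (by linarith) (by norm_num)
      have h5 : p ^ 2 < (xi - xj) ^ 2 := pow_lt_pow_left₀ hc' hp.le (by norm_num)
      have h6 : (xi - xj) ^ 2 ≤ xi * (xi - xj) := by nlinarith
      nlinarith
    have e1 : (xi ^ 2 / xj - xj) / p - p / xj = (xi ^ 2 - xj ^ 2 - p ^ 2) / (xj * p) := by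
      field_simp
    have e2 : 0 ≤ (xi ^ 2 / xj - xj) / p - p / xj := by
      rw [e1]
      refine div_nonneg ?_ (by positivity)
      have h5 : p ^ 2 < (xi - xj) ^ 2 := pow_lt_pow_left₀ hc' hp.le (by norm_num)
      nlinarith
    have e3 : 1 / be * (xi ^ 2 / xk - xk) ≤ al / de * (xi ^ 2 / xk - xk) := by
      refine mul_le_mul_of_nonneg_right ?_ ?_
      · rw [div_le_div_iff₀ hbe hde]
        linarith
      · have h1 : xi ^ 2 / xk - xk = (xi ^ 2 - xk ^ 2) / xk := by field_simp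
        rw [h1]
        refine div_nonneg ?_ hk.le
        have : xk ^ 2 < xi ^ 2 := pow_lt_pow_left₀ hki hk.le (by norm_num)
        linarith
    have e4 : 1 / be * (xi ^ 2 / xk - xk) - be / xk =
        (xi ^ 2 - (xk - be) ^ 2) / (be * xk) - 2 := by
      field_simp
      ring
    have e5 : 0 ≤ (xi ^ 2 - (xk - be) ^ 2) / (be * xk) := by
      refine div_nonneg ?_ (by positivity)
      have h1 : (xk - be) ^ 2 ≤ xi ^ 2 := by
        rw [sq_le_sq, abs_of_pos hi, abs_le]
        constructor <;> linarith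
      linarith
    have h5 : 0 < lam * xi := by
      rw [Xi]
      linarith
    exact pos_of_mul_pos_left h5 hi.le

end Pool.H36.ST
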