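import Pool.Agent.H36.ST.Sys

/-!
Steps C and G. Assume all `g_i > 0` and `c < a`.
C: `Xa - Xc` and `e2`: `s2 (p2 (m+2-g2-g3) - 2m) = m (s1 + s3) + c (g3 - g1)`. If `g3 ≥ g1`, the
right side is positive (`s1 p1 + s3 p3 = s2 p2 > 0`). If `g3 < g1`: `p3 < p1` (`dg13`), and `P3`
gives `1 - g3 ≤ m p3/(2ab) ≤ m p1/(2bc)`, `P1` gives `1 - g1 = m p1 (1 - s1²)/(2bc)`, so
`c (g3 - g1) ≥ - m p1 s1²/(2b) = - m s1 (b - c)/(2b) ≥ - m s1/2`.
G: put `s = g2 + g3`. `p2 s < 2` (`two12`) and C give `s (m+1) < m + 2`.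
`g3 < 1`: if `g3 ≥ 1` then `g2 < g3`, `p2 < p3` (`dg23`), `s3 ≥ 1` (`P3`),
`s2 p2 = a - c ≥ a - b = s3 p3 > p2`, `s2 > 1`, so `g2 > 1` (`P2`), contradiction.
`g2 < 1`: if `g2 ≥ 1`: `g3 < 1/(m+1)`, `p3 < p2` (`dg23`), `p2 s < 2` so `p3 < p2 < 2`, `s3 < 1`,
`2 a b (1 - g3) ≤ m p3 < 2m`, so `a b < m + 1`; but `s2 ≥ 1` and `Xa`: `a > m (m+2+s3)/(m+1)`,
`Xb`: `b > m (m+1-s3)/(m+2)`, so `a b > m³/(m+1) ≥ m + 1` for `m ≥ 3`.
`g1 < 1`: if `g1 ≥ 1 > g2` then `p1 > p2` (`dg12`), `s1 ≥ 1` (`P1`),
`s2 p2 = a - c ≥ b - c = s1 p1 > p2`, `s2 > 1`, `g2 > 1`, contradiction.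
-/

namespace Pool.H36.ST

namespace Sys

variable {m a b c p1 p2 p3 g1 g2 g3 s1 s2 s3 : ℝ}

theorem c2 (h : Sys m a b c p1 p2 p3 g1 g2 g3 s1 s2 s3) (h1 : 0 < g1) (h2 : 0 < g2) (h3 : 0 < g3)
    (hac : c < a) : 2 * m < p2 * (m + 2 - g2 - g3) := by
  have hm : 0 < m := by linarith [h.hm]
  have hb := h.hb
  have ha := h.ha
  have hc := h.hc
  have hp1 := h.hp1
  have hp2 := h.hp2
  have hp3 := h.hp3
  have s1n := h.s1_nonneg
  have s2n := h.s2_nonneg
  have s3n := h.s3_nonneg
  have key : s2 * (p2 * (m + 2 - g2 - g3) - 2 * m) = m * (s1 + s3) + c * (g3 - g1) := by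
    linear_combination h.Xa - h.Xc + (m + 2 - g2 - g3) * h.e2
  have hpos : 0 < m * (s1 + s3) + c * (g3 - g1) := by
    rcases le_or_gt g1 g3 with hg | hg
    · have h4 : 0 < s1 + s3 := by
        by_contra hn
        have h5 : s1 = 0 := by linarith
        have h6 : s3 = 0 := by linarith
        have e1 := h.e1
        have e3 := h.e3
        rw [h5, zero_mul] at e1
        rw [h6, zero_mul] at e3
        linarith
      have h5 : 0 < m * (s1 + s3) := mul_pos hm h4
      have h6 : 0 ≤ c * (g3 - g1) := mul_nonneg hc.le (by linarith)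
      linarith
    · have h4 : p3 < p1 := by
        have h5 := h.dg13
        have h6 : 0 < (p1 - p3) * (g1 + g3) := by
          rw [← h5]
          exact mul_pos (by linarith) hp2
        have h7 : 0 < p1 - p3 := by
          by_contra h8
          push Not at h8
          have := mul_nonpos_of_nonpos_of_nonneg h8 (show 0 ≤ g1 + g3 by linarith)
          linarith
        linarith
      have h5 : 2 * (a * b) * (1 - g3) ≤ m * p3 := by
        rw [← h.P3]
        have : 0 ≤ m * p3 * s3 ^ 2 := by positivity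
        nlinarith
      have h6 : 2 * (b * c) * (1 - g3) < m * p1 := by
        have h7 : a * (2 * (b * c) * (1 - g3)) < a * (m * p1) := by
          calc a * (2 * (b * c) * (1 - g3)) = c * (2 * (a * b) * (1 - g3)) := by ring
            _ ≤ c * (m * p3) := mul_le_mul_of_nonneg_left h5 hc.le
            _ ≤ a * (m * p3) := mul_le_mul_of_nonneg_right hac.le (by positivity)
            _ < a * (m * p1) := mul_lt_mul_of_pos_left (mul_lt_mul_of_pos_left h4 hm) ha
        exact lt_of_mul_lt_mul_left h7 ha.le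
      have h7 : b * (2 * c * (g3 - g1)) > b * (-(m * s1)) := by
        have h8 : 0 ≤ m * s1 * c := by positivity
        have h9 : m * s1 * (s1 * p1) = m * s1 * (b - c) := by rw [h.e1]
        have h10 := h.P1
        nlinarith
      have h8 : 2 * c * (g3 - g1) > -(m * s1) := lt_of_mul_lt_mul_left h7 hb.le
      have h9 : 0 ≤ m * s3 := by positivity
      have h10 : 0 ≤ m * s1 := by positivity
      nlinarith
  rw [← key] at hpos
  have h5 : 0 < p2 * (m + 2 - g2 - g3) - 2 * m := by
    by_contra hn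
    push Not at hn
    have : s2 * (p2 * (m + 2 - g2 - g3) - 2 * m) ≤ 0 := mul_nonpos_of_nonneg_of_nonpos s2n hn
    linarith
  linarith

theorem one_le_of (h : 0 < m) {p s g x : ℝ} (hp : 0 < p) (hs : 0 ≤ s) (hx : 0 < x)
    (e : m * p * (1 - s ^ 2) = 2 * x * (1 - g)) (hg : 1 ≤ g) : 1 ≤ s := by
  by_contra hn
  push Not at hn
  have h1 : 0 < m * p * (1 - s ^ 2) := by
    have : s ^ 2 < 1 := by nlinarith
    have : 0 < 1 - s ^ 2 := by linarith
    positivity
  have h2 : 2 * x * (1 - g) ≤ 0 := mul_nonpos_of_nonneg_of_nonpos (by positivity) (by linarith)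
  linarith

theorem one_lt_of (h : 0 < m) {p s g x : ℝ} (hp : 0 < p) (hx : 0 < x)
    (e : m * p * (1 - s ^ 2) = 2 * x * (1 - g)) (hs : 1 < s) : 1 < g := by
  by_contra hn
  push Not at hn
  have h1 : m * p * (1 - s ^ 2) < 0 := by
    have h3 : 1 - s ^ 2 < 0 := by nlinarith
    exact mul_neg_of_pos_of_neg (by positivity) h3
  have h2 : 0 ≤ 2 * x * (1 - g) := mul_nonneg (by positivity) (by linarith)
  linarith

theorem lt_one (h : Sys m a b c p1 p2 p3 g1 g2 g3 s1 s2 s3) (h1 : 0 < g1) (h2 : 0 < g2)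
    (h3 : 0 < g3) (hac : c < a) (hc : 2 * m < p2 * (m + 2 - g2 - g3)) :
    g1 < 1 ∧ g2 < 1 ∧ g3 < 1 ∧ (g2 + g3) * (m + 1) < m + 2 := by
  have hm3 := h.hm
  have hm : 0 < m := by linarith [h.hm]
  have hb := h.hb
  have ha := h.ha
  have hcc := h.hc
  have hp1 := h.hp1
  have hp2 := h.hp2
  have hp3 := h.hp3
  have s1n := h.s1_nonneg
  have s2n := h.s2_nonneg
  have s3n := h.s3_nonneg
  have hps : p2 * (g2 + g3) < 2 := by
    have h4 := h.two12
    have h5 : 0 < p1 * (g1 + g3) := by positivity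
    linarith
  have hpos : 0 < m + 2 - g2 - g3 := by
    by_contra hn
    push Not at hn
    have : p2 * (m + 2 - g2 - g3) ≤ 0 := mul_nonpos_of_nonneg_of_nonpos hp2.le hn
    linarith
  have hS : (g2 + g3) * (m + 1) < m + 2 := by
    have h4 : (g2 + g3) * (2 * m) < (g2 + g3) * (p2 * (m + 2 - g2 - g3)) :=
      mul_lt_mul_of_pos_left hc (by positivity)
    have h5 : p2 * (g2 + g3) * (m + 2 - g2 - g3) < 2 * (m + 2 - g2 - g3) :=
      mul_lt_mul_of_pos_right hps hpos
    nlinarith
  have hg3 : g3 < 1 := by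
    by_contra hn
    push Not at hn
    have hg2 : g2 < 1 := by
      by_contra hn2
      push Not at hn2
      nlinarith
    have h4 : p2 < p3 := by
      have h5 := h.dg23
      have h6 : (p2 - p3) * (g2 + g3) < 0 := by
        rw [← h5]
        exact mul_neg_of_neg_of_pos (by linarith) hp1
      have h7 : p2 - p3 < 0 := by
        by_contra h8
        push Not at h8
        have := mul_nonneg h8 (show 0 ≤ g2 + g3 by linarith)
        linarith
      linarith
    have h5 : 1 ≤ s3 := one_le_of hm hp3 s3n (mul_pos ha hb) h.P3 hn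
    have h6 : 1 < s2 := by
      by_contra h7
      push Not at h7
      have e2 := h.e2
      have e3 := h.e3
      have hbc := h.hbc
      have h8 : p3 ≤ s3 * p3 := by nlinarith
      have h9 : s2 * p2 ≤ p2 := by nlinarith
      linarith
    have h7 := one_lt_of hm hp2 (mul_pos ha hcc) h.P2 h6
    linarith
  have hg2 : g2 < 1 := by
    by_contra hn
    push Not at hn
    have h4 : g3 * (m + 1) < 1 := by nlinarith
    have h5 : p3 < p2 := by
      have h5 := h.dg23
      have h6 : 0 < (p2 - p3) * (g2 + g3) := by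
        rw [← h5]
        exact mul_pos (by linarith) hp1
      have h7 : 0 < p2 - p3 := by
        by_contra h8
        push Not at h8
        have := mul_nonpos_of_nonpos_of_nonneg h8 (show 0 ≤ g2 + g3 by linarith)
        linarith
      linarith
    have h6 : p2 < 2 := by nlinarith
    have h7 : a * b * (1 - g3) < m := by
      have h8 := h.P3
      have h9 : 0 ≤ m * p3 * s3 ^ 2 := by positivity
      have h10 : m * p3 < m * 2 := mul_lt_mul_of_pos_left (by linarith) hm
      nlinarith
    have h8 : a * b < m + 1 := by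
      have h9 : 0 < a * b := mul_pos ha hb
      have h10 : a * b * m < a * b * ((1 - g3) * (m + 1)) :=
        mul_lt_mul_of_pos_left (by linarith) h9
      have h11 : a * b * (1 - g3) * (m + 1) < m * (m + 1) :=
        mul_lt_mul_of_pos_right h7 (by linarith)
      have h12 : m * (a * b) < m * (m + 1) := by nlinarith
      exact lt_of_mul_lt_mul_left h12 hm.le
    have h9 : 1 ≤ s2 := one_le_of hm hp2 s2n (mul_pos ha hcc) h.P2 hn
    have h10 : s3 ≤ 1 := by
      by_contra h11
      push Not at h11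
      have := one_lt_of hm hp3 (mul_pos ha hb) h.P3 h11
      linarith
    have h11 : m * (m + 2 + s3) ≤ a * (m + 1) := by
      have h12 := h.Xa
      have h13 : m * s2 ≥ m := by nlinarith
      have h14 : a * (g2 + g3) ≥ a := by nlinarith
      nlinarith
    have h12 : m * (m + 1 - s3) ≤ b * (m + 2) := by
      have h13 := h.Xb
      have h14 : 0 ≤ m * s1 := by positivity
      have h15 : 0 ≤ b * (g1 + g3) := by positivity
      nlinarith
    have h13 : (m * (m + 2 + s3)) * (m * (m + 1 - s3)) ≤ (a * (m + 1)) * (b * (m + 2)) :=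
      mul_le_mul h11 h12 (mul_nonneg hm.le (by linarith)) (by positivity)
    have h14 : (a * b) * ((m + 1) * (m + 2)) < (m + 1) * ((m + 1) * (m + 2)) :=
      mul_lt_mul_of_pos_right h8 (by positivity)
    have h15 : m ^ 3 * (m + 3) ≤ (m * (m + 2 + s3)) * (m * (m + 1 - s3)) := by
      have h16 : m ^ 2 * (m * (m + 3)) ≤ m ^ 2 * ((m + 2 + s3) * (m + 1 - s3)) := by
        apply mul_le_mul_of_nonneg_left _ (by positivity)
        nlinarith
      nlinarith
    have h16 : (m + 1) * ((m + 1) * (m + 2)) < m ^ 3 * (m + 3) := by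
      have h17 : 0 ≤ m - 3 := by linarith
      have h18 : m = (m - 3) + 3 := by ring
      have h19 : 0 < m ^ 3 * (m + 3) - (m + 1) * ((m + 1) * (m + 2)) := by
        generalize m - 3 = n at h17 h18
        subst h18
        ring_nf
        positivity
      linarith
    nlinarith
  have hg1 : g1 < 1 := by
    by_contra hn
    push Not at hn
    have h4 : p2 < p1 := by
      have h5 := h.dg12
      have h6 : 0 < (p1 - p2) * (g1 + g2) := by
        rw [← h5]
        exact mul_pos (by linarith) hp3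
      have h7 : 0 < p1 - p2 := by
        by_contra h8
        push Not at h8
        have := mul_nonpos_of_nonpos_of_nonneg h8 (show 0 ≤ g1 + g2 by linarith)
        linarith
      linarith
    have h5 : 1 ≤ s1 := one_le_of hm hp1 s1n (mul_pos hb hcc) h.P1 hn
    have h6 : 1 < s2 := by
      by_contra h7
      push Not at h7
      have e2 := h.e2
      have e1 := h.e1
      have hab := h.hab
      have h8 : p1 ≤ s1 * p1 := by nlinarith
      have h9 : s2 * p2 ≤ p2 := by nlinarith
      linarith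
    have h7 := one_lt_of hm hp2 (mul_pos ha hcc) h.P2 h6
    linarith
  exact ⟨hg1, hg2, hg3, hS⟩

end Sys

end Pool.H36.ST
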