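import Pool.Agent.H36.ST.Defs

/-!
Coordinates on `𝔪` for `k = 3`: a pair `(u, z)` with `u ∈ ℝ³` and `z_1, ..., z_m ∈ ℝ³`.
-/

namespace Pool.H36.ST

open Matrix

variable {m : ℕ}

/-- The skew matrix of the cross product with `u`. -/
def hat (u : Fin 3 → ℝ) : Matrix (Fin 3) (Fin 3) ℝ :=
  !![0, -u 2, u 1; u 2, 0, -u 0; -u 1, u 0, 0]

theorem hat_transpose (u : Fin 3 → ℝ) : (hat u)ᵀ = -hat u := by
  ext i j
  fin_cases i <;> fin_cases j <;> simp [hat]

/-- The element of `𝔪` with coordinates `u`, `z`. -/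
def mk (u : Fin 3 → ℝ) (z : Fin m → Fin 3 → ℝ) : Compl 3 m :=
  ⟨Matrix.fromBlocks (hat u) (Matrix.of fun a i => z i a) (Matrix.of fun i a => - z i a) 0, by
    refine ⟨?_, ?_⟩
    · rw [Matrix.fromBlocks_transpose, hat_transpose, Matrix.fromBlocks_neg]
      congr 1
      · ext a i
        simp
      · ext i j
        simp
    · intro i j
      simp⟩

theorem exists_mk (X : Compl 3 m) : ∃ u z, X = mk u z := by
  have h : ∀ a b, X.1 b a = - X.1 a b := fun a b => by
    have := congrFun (congrFun X.2.1 a) b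
    simpa using this
  refine ⟨![-X.1 (Sum.inl 1) (Sum.inl 2), X.1 (Sum.inl 0) (Sum.inl 2),
    -X.1 (Sum.inl 0) (Sum.inl 1)], fun i a => X.1 (Sum.inl a) (Sum.inr i), ?_⟩
  apply Subtype.ext
  ext a b
  rcases a with a | a <;> rcases b with b | b
  · have h0 := h (Sum.inl a) (Sum.inl b)
    have hd : ∀ c, X.1 (Sum.inl c) (Sum.inl c) = 0 := fun c => by
      have := h (Sum.inl c) (Sum.inl c)
      linarith
    fin_cases a <;> fin_cases b <;> simp [mk, hat, hd] <;>
      first
      | rfl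
      | (have h1 := h (Sum.inl 0) (Sum.inl 1); linarith)
      | (have h1 := h (Sum.inl 0) (Sum.inl 2); linarith)
      | (have h1 := h (Sum.inl 1) (Sum.inl 2); linarith)
  · simp [mk]
  · simp [mk, h (Sum.inl b) (Sum.inr a)]
  · simp [mk, X.2.2]

theorem mk_add (u v : Fin 3 → ℝ) (z w : Fin m → Fin 3 → ℝ) :
    mk (u + v) (z + w) = mk u z + mk v w := by
  apply Subtype.ext
  ext a b
  rcases a with a | a <;> rcases b with b | b
  · fin_cases a <;> fin_cases b <;> simp [mk, hat] <;> ring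
  · simp [mk]
  · simp [mk]
    ring
  · simp [mk]

theorem mk_smul (c : ℝ) (u : Fin 3 → ℝ) (z : Fin m → Fin 3 → ℝ) :
    mk (c • u) (c • z) = c • mk u z := by
  apply Subtype.ext
  ext a b
  rcases a with a | a <;> rcases b with b | b
  · fin_cases a <;> fin_cases b <;> simp [mk, hat]
  · simp [mk]
  · simp [mk]
  · simp [mk]

theorem mk_inj {u v : Fin 3 → ℝ} {z w : Fin m → Fin 3 → ℝ} (h : mk u z = mk v w) :
    u = v ∧ z = w := by
  have h' : ∀ a b, (mk u z).1 a b = (mk v w).1 a b := fun a b => by rw [h]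
  refine ⟨?_, ?_⟩
  · ext a
    fin_cases a
    · simpa [mk, hat] using h' (Sum.inl 2) (Sum.inl 1)
    · simpa [mk, hat] using h' (Sum.inl 0) (Sum.inl 2)
    · simpa [mk, hat] using h' (Sum.inl 1) (Sum.inl 0)
  · ext i a
    simpa [mk] using h' (Sum.inl a) (Sum.inr i)

/-- The bracket in coordinates. -/
theorem bracket_mk (u v : Fin 3 → ℝ) (z w : Fin m → Fin 3 → ℝ) :
    bracket (mk u z) (mk v w) =
      mk (crossProduct u v + ∑ i, crossProduct (z i) (w i))
        (fun i => crossProduct u (w i) - crossProduct v (z i)) := by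
  have hc : ∀ a b, ∑ x, w x a * z x b = ∑ x, z x b * w x a :=
    fun a b => Finset.sum_congr rfl (fun x _ => mul_comm _ _)
  apply Subtype.ext
  ext a b
  rcases a with a | a <;> rcases b with b | b
  · fin_cases a <;> fin_cases b <;>
      simp [bracket, proj, mk, hat, Matrix.mul_apply, Matrix.toBlocks₁₁, Fin.sum_univ_three,
        cross_apply, Finset.sum_apply, Finset.sum_sub_distrib, hc] <;> ring
  · fin_cases a <;>
      simp [bracket, proj, mk, hat, Matrix.mul_apply, Matrix.toBlocks₁₂, Fin.sum_univ_three,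
        cross_apply] <;> ring
  · fin_cases b <;>
      simp [bracket, proj, mk, hat, Matrix.mul_apply, Matrix.toBlocks₂₁, Fin.sum_univ_three,
        cross_apply] <;> ring
  · simp [bracket, proj, mk]

/-- The Killing form in coordinates. -/
theorem killing_mk (u : Fin 3 → ℝ) (z : Fin m → Fin 3 → ℝ) :
    killing (mk u z) = -2 * ((m : ℝ) + 1) * (u ⬝ᵥ u + ∑ i, z i ⬝ᵥ z i) := by
  simp only [killing, mk, Matrix.trace, Matrix.diag, Matrix.mul_apply, Fintype.sum_sum_type]
  simp [hat, Fin.sum_univ_three, dotProduct, Finset.sum_add_distrib]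
  ring

end Pool.H36.ST
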