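import Pool.Agent.H36.ST.Stmt

/-!
Versions of the definitions of `Stmt` for bilinear forms (used in the proof only).
-/

namespace Pool.H36.ST

open Matrix

variable {k m : ℕ}

/-- `g` is an `Ad(SO(m))`-invariant inner product on `𝔪`, that is an `SO(k+m)`-invariant
Riemannian metric on `V_k ℝ^{k+m} = SO(k+m)/SO(m)`. -/
structure IsInvariantMetric (g : LinearMap.BilinForm ℝ (Compl k m)) : Prop where
  symm : ∀ X Y, g X Y = g Y X
  pos : ∀ X, X ≠ 0 → 0 < g X X
  inv : ∀ h : Matrix (Fin m) (Fin m) ℝ, h * hᵀ = 1 → h.det = 1 →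
    ∀ X Y, g (Ad h X) (Ad h Y) = g X Y

/-- The Ricci curvature `Ric(X, X)` of the invariant metric `g`, in terms of a `g`-orthonormal
basis `e` of `𝔪` (Besse, Einstein Manifolds, 7.38; `SO(k+m)` is unimodular):
`Ric(X,X) = - 1/2 ∑ |[X,e_i]_𝔪|² - 1/2 B(X,X) + 1/4 ∑ g([e_i,e_j]_𝔪, X)²`. -/
noncomputable def ricci (g : LinearMap.BilinForm ℝ (Compl k m)) {ι : Type} [Fintype ι]
    (e : ι → Compl k m) (X : Compl k m) : ℝ :=
  -(1 / 2) * ∑ i, g (bracket X (e i)) (bracket X (e i)) - (1 / 2) * killing X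
    + (1 / 4) * ∑ i, ∑ j, (g (bracket (e i) (e j)) X) ^ 2

/-- `g` is Einstein: `Ric(X, X) = c g(X, X)` for a constant `c`, the Ricci curvature being
computed in a `g`-orthonormal basis of `𝔪`. -/
def IsEinstein (g : LinearMap.BilinForm ℝ (Compl k m)) : Prop :=
  ∃ (c : ℝ) (d : ℕ) (e : Module.Basis (Fin d) ℝ (Compl k m)),
    (∀ i j, g (e i) (e j) = if i = j then 1 else 0) ∧ ∀ X, ricci g e X = c * g X X

end Pool.H36.ST
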