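import Pool.Agent.H36.ST.Sys

/-!
Step F: the final contradiction in the case `c < a`. Notation: `M = m + 1`, `al = 1 - g1`,
`be = 1 - g2`, `ga = 1 - g3`, `A = m+2-g1-g2 = M - 1 + al + be`, `B = m+2-g2-g3 = M - 1 + be + ga`,
`U = M + s2 + s3`, `L = M - s1 - s2`; `a B = m U`, `c A = m L`.
1. `Xa - Xc`, `e2`: `s2 p2 B = 2 m s2 + m (s1 + s3) + c (g3 - g1)`.
2. `P2`: `m p2 (1 - s2²) = 2 a c be`, so `2m/(p2 B) = A (1 - s2²)/(be U L)`.
3. `(1 - s2²)(s1 + s3) ≤ (74/49) be s2`: with `y_i = s_i/(1 - s_i²) ≥ s_i`,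
   `2 al y1 = m (1/c - 1/b)`, `2 ga y3 = m (1/b - 1/a)`, `2 be y2 = m (1/c - 1/a)`, and
   `al, ga ≥ 49/74`.
4. If `g3 > g1` then `p3 ≥ p1` (`dg13`), so `ga a ≥ al c (1 - s3²)` (`P1, P3`, `1 - s1² ≤ 1`), so
   `a (g3 - g1) ≤ (a - c) + c s3²` (as `al ≤ 1`), and `c s3² ≤ c s3 s2 = c s3 (a - c)/p2`, and
   `c/p2 = m (1-s2²)/(2 a be)`, `m/a = B/U`.
   So `c (g3 - g1)/(s2 p2 B) ≤ (c/(a B)) (1 + s3 (1-s2²) B/(2 be U))`, `c/(aB) = L/(U A)`.
5. Dividing 1 by `s2 p2 B` and multiplying by `U`: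
   `U ≤ (A/L) ((1-s2²)/be + 37/49) + (L/A) (1 + s3 (1-s2²) B/(2 be U))`; the last part is at most
   `1 + s3` (`L ≤ M`, `A ≥ M`..., `B ≤ (5/4) U`, `be ≥ 2/3`), so with `A ≤ M + be`, `L ≥ M - 2 s2`:
   `(M - 2 s2)(M - 1 + s2) ≤ (M + be)((1-s2²)/be + 37/49) ≤ (1-s2²)(3M/2+1) + (37/49)(M+1)`,
   which is false for `M ≥ 4`, `0 ≤ s2 ≤ 1`.
-/

namespace Pool.H36.ST

namespace Sys

variable {m a b c p1 p2 p3 g1 g2 g3 s1 s2 s3 : ℝ}

private theorem num_aux {m s : ℝ} (hm : 3 ≤ m) (h0 : 0 ≤ s) (h1 : s ≤ 1) :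
    3 / 2 * (m + 1) * (1 - s ^ 2) + (1 - s ^ 2) + 37 / 49 * (m + 2) <
      (m + 1 - 2 * s) * (m + s) := by
  have hN : 0 ≤ m - 3 := by linarith
  have e1 : (m + 1 - 2 * s) * (m + s) -
      (3 / 2 * (m + 1) * (1 - s ^ 2) + (1 - s ^ 2) + 37 / 49 * (m + 2)) =
      (m - 3) ^ 2 + (m - 3) * (8 - 1 - s - 3 / 2 + 3 / 2 * s ^ 2 - 37 / 49) +
        (60 / 49 - 2 * s + 5 * s ^ 2) := by ring
  have e2 : 0 ≤ 8 - 1 - s - 3 / 2 + 3 / 2 * s ^ 2 - 37 / 49 := by nlinarith [sq_nonneg s]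
  have e3 : 0 < 60 / 49 - 2 * s + 5 * s ^ 2 := by nlinarith [sq_nonneg (s - 1 / 5)]
  have e4 := mul_nonneg hN e2
  have e5 := sq_nonneg (m - 3)
  linarith

theorem final (h : Sys m a b c p1 p2 p3 g1 g2 g3 s1 s2 s3) (h1 : 0 < g1) (h2 : 0 < g2)
    (h3 : 0 < g3) (t1 : s1 < 1) (t2 : s2 < 1) (t3 : s3 < 1) (o1 : s1 ≤ s2) (o3 : s3 ≤ s2)
    (b1 : g1 ≤ 5 / 19) (b2 : g2 ≤ 1 / 3) (b3 : g3 ≤ 25 / 74) (hac : c < a) : False := by
  have hm := h.hm
  have hm0 : 0 < m := by linarith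
  have ha := h.ha
  have hb := h.hb
  have hc := h.hc
  have hab := h.hab
  have hbc := h.hbc
  have hp1 := h.hp1
  have hp2 := h.hp2
  have hp3 := h.hp3
  have n1 := h.s1_nonneg
  have n2 := h.s2_nonneg
  have n3 := h.s3_nonneg
  have hs2 : 0 < s2 := by
    have e1 : 0 < s2 * p2 := by rw [h.e2]; linarith
    exact pos_of_mul_pos_left e1 hp2.le
  have w1 : 0 < 1 - s1 ^ 2 := by nlinarith
  have w2 : 0 < 1 - s2 ^ 2 := by nlinarith
  have w3 : 0 < 1 - s3 ^ 2 := by nlinarith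
  have w1' : 1 - s1 ^ 2 ≤ 1 := by nlinarith
  have w2' : 1 - s2 ^ 2 ≤ 1 := by nlinarith
  have w3' : 1 - s3 ^ 2 ≤ 1 := by nlinarith
  obtain ⟨A, hA⟩ : ∃ A, A = m + 2 - g1 - g2 := ⟨_, rfl⟩
  obtain ⟨B, hB⟩ : ∃ B, B = m + 2 - g2 - g3 := ⟨_, rfl⟩
  obtain ⟨U, hU⟩ : ∃ U, U = m + 1 + s2 + s3 := ⟨_, rfl⟩
  obtain ⟨L, hL⟩ : ∃ L, L = m + 1 - s1 - s2 := ⟨_, rfl⟩
  have hA0 : 0 < A := by linarith
  have hB0 : 0 < B := by linarith
  have hU0 : 0 < U := by linarith
  have hL0 : 0 < L := by linarith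
  have Xa : a * B = m * U := by rw [hB, hU]; exact h.Xa
  have Xc : c * A = m * L := by rw [hA, hL]; exact h.Xc
  -- step 1
  have st1 : s2 * p2 * B = m * (s1 + 2 * s2 + s3) + c * (g3 - g1) := by
    have e1 : a * B - c * A = m * (s1 + 2 * s2 + s3) := by rw [Xa, Xc, hU, hL]; ring
    have e2 : s2 * p2 * B = (a - c) * B := by rw [h.e2]
    have e3 : A - B = g3 - g1 := by rw [hA, hB]; ring
    rw [e2, ← e3]
    linear_combination e1
  -- step 2
  have st2 : p2 * (1 - s2 ^ 2) * (A * B) = 2 * (1 - g2) * (m * (U * L)) := by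
    have e0 : m * (p2 * (1 - s2 ^ 2) * (A * B)) = m * (2 * (1 - g2) * (m * (U * L))) := by
      calc m * (p2 * (1 - s2 ^ 2) * (A * B)) = (m * p2 * (1 - s2 ^ 2)) * (A * B) := by ring
        _ = (2 * (a * c) * (1 - g2)) * (A * B) := by rw [h.P2]
        _ = 2 * (1 - g2) * ((a * B) * (c * A)) := by ring
        _ = _ := by rw [Xa, Xc]; ring
    exact mul_left_cancel₀ hm0.ne' e0
  -- step 3
  have st3 : 49 / 74 * (s1 + s3) * (1 - s2 ^ 2) ≤ (1 - g2) * s2 := by
    have q1 : m * (b - c) * (1 - s1 ^ 2) = 2 * (b * c) * (1 - g1) * s1 := by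
      rw [← h.e1]
      linear_combination s1 * h.P1
    have q2 : m * (a - c) * (1 - s2 ^ 2) = 2 * (a * c) * (1 - g2) * s2 := by
      rw [← h.e2]
      linear_combination s2 * h.P2
    have q3 : m * (a - b) * (1 - s3 ^ 2) = 2 * (a * b) * (1 - g3) * s3 := by
      rw [← h.e3]
      linear_combination s3 * h.P3
    have r1 : 2 * (b * c) * (1 - g1) * s1 ≤ m * (b - c) := by
      rw [← q1]
      have := mul_le_mul_of_nonneg_left w1' (mul_nonneg hm0.le (sub_nonneg.2 hbc))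
      linarith
    have r3 : 2 * (a * b) * (1 - g3) * s3 ≤ m * (a - b) := by
      rw [← q3]
      have := mul_le_mul_of_nonneg_left w3' (mul_nonneg hm0.le (sub_nonneg.2 hab))
      linarith
    have r4 := mul_le_mul_of_nonneg_left r1 ha.le
    have r5 := mul_le_mul_of_nonneg_left r3 hc.le
    have r6 : 2 * (a * b * c) * ((1 - g1) * s1 + (1 - g3) * s3) ≤ b * (m * (a - c)) := by
      linarith
    have r7 := mul_le_mul_of_nonneg_right r6 w2.le
    have r8 : b * (m * (a - c)) * (1 - s2 ^ 2) = 2 * (a * b * c) * ((1 - g2) * s2) := by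
      linear_combination b * q2
    rw [r8] at r7
    have habc : 0 < 2 * (a * b * c) := by positivity
    have r9 : ((1 - g1) * s1 + (1 - g3) * s3) * (1 - s2 ^ 2) ≤ (1 - g2) * s2 := by
      refine le_of_mul_le_mul_left ?_ habc
      linarith
    have r10 : 49 / 74 * (s1 + s3) ≤ (1 - g1) * s1 + (1 - g3) * s3 := by
      have := mul_le_mul_of_nonneg_right (by linarith : (49 : ℝ) / 74 ≤ 1 - g1) n1
      have := mul_le_mul_of_nonneg_right (by linarith : (49 : ℝ) / 74 ≤ 1 - g3) n3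
      linarith
    exact (mul_le_mul_of_nonneg_right r10 w2.le).trans r9
  -- step 4
  have st4 : c * (g3 - g1) * (U * A) ≤ s2 * p2 * B * (L * (1 + s3)) := by
    rcases le_or_gt g3 g1 with hg | hg
    · have e1 : c * (g3 - g1) * (U * A) ≤ 0 :=
        mul_nonpos_of_nonpos_of_nonneg (mul_nonpos_of_nonneg_of_nonpos hc.le (by linarith))
          (by positivity)
      have e2 : 0 ≤ s2 * p2 * B * (L * (1 + s3)) := by positivity
      linarith
    · have hp : p1 < p3 := by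
        by_contra hcon
        have e1 := mul_neg_of_neg_of_pos (sub_neg.2 hg) hp2
        have e2 := mul_nonneg (sub_nonneg.2 (not_lt.1 hcon)) (add_pos h1 h3).le
        have e3 := h.dg13
        linarith
      have f1 : c * (1 - g1) * (1 - s3 ^ 2) ≤ a * (1 - g3) := by
        refine le_of_mul_le_mul_left (a := 2 * b) ?_ (by positivity)
        have e1 : m * p1 * (1 - s1 ^ 2) * (1 - s3 ^ 2) ≤ m * p1 * (1 - s3 ^ 2) := by
          have := mul_le_mul_of_nonneg_left w1' (mul_nonneg (mul_pos hm0 hp1).le w3.le)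
          linarith
        have e2 : m * p1 * (1 - s3 ^ 2) ≤ m * p3 * (1 - s3 ^ 2) :=
          mul_le_mul_of_nonneg_right (mul_le_mul_of_nonneg_left hp.le hm0.le) w3.le
        have e3 := h.P1
        have e4 := h.P3
        calc 2 * b * (c * (1 - g1) * (1 - s3 ^ 2)) = m * p1 * (1 - s1 ^ 2) * (1 - s3 ^ 2) := by
              rw [e3]; ring
          _ ≤ m * p3 * (1 - s3 ^ 2) := e1.trans e2
          _ = 2 * b * (a * (1 - g3)) := by rw [e4]; ring
      have f2 : a * (g3 - g1) ≤ (a - c) + c * s3 ^ 2 := by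
        have e1 : 0 ≤ (a - c) + c * s3 ^ 2 := by
          have := sub_pos.2 hac
          positivity
        have e2 := mul_le_mul_of_nonneg_right (by linarith : 1 - g1 ≤ 1) e1
        nlinarith
      have f3 : c * s3 ^ 2 ≤ c * s3 * s2 := by
        have := mul_le_mul_of_nonneg_left o3 (mul_nonneg hc.le n3)
        linarith
      have f4 : c ≤ p2 := by
        have e1 : 2 * (1 - g2) * U * c = p2 * (1 - s2 ^ 2) * B := by
          have e2 : m * (2 * (1 - g2) * U * c) = m * (p2 * (1 - s2 ^ 2) * B) := by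
            calc m * (2 * (1 - g2) * U * c) = 2 * ((m * U) * c) * (1 - g2) := by ring
              _ = (2 * (a * c) * (1 - g2)) * B := by rw [← Xa]; ring
              _ = _ := by rw [← h.P2]; ring
          exact mul_left_cancel₀ hm0.ne' e2
        have e3 : (1 - s2 ^ 2) * B ≤ 2 * (1 - g2) * U := by
          have e4 : (1 - s2 ^ 2) * B ≤ B := by
            have := mul_le_mul_of_nonneg_right w2' hB0.le
            linarith
          have e5 : B ≤ 4 / 3 * U := by rw [hB, hU]; linarith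
          have e6 : 4 / 3 * U ≤ 2 * (1 - g2) * U :=
            mul_le_mul_of_nonneg_right (by linarith) hU0.le
          linarith
        have e7 := mul_le_mul_of_nonneg_left e3 hp2.le
        have e8 : 0 < 2 * (1 - g2) * U := by
          have : 0 < 1 - g2 := by linarith
          positivity
        refine le_of_mul_le_mul_left (a := 2 * (1 - g2) * U) ?_ e8
        linarith
      have f5 : a * (g3 - g1) ≤ s2 * p2 * (1 + s3) := by
        have e1 : c * s3 * s2 ≤ p2 * s3 * s2 := by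
          have := mul_le_mul_of_nonneg_right f4 (mul_nonneg n3 n2)
          linarith
        have e2 := h.e2
        nlinarith
      have f6 : c * (g3 - g1) * (U * A) = a * (g3 - g1) * (L * B) := by
        calc c * (g3 - g1) * (U * A) = (c * A) * ((g3 - g1) * U) := by ring
          _ = (m * U) * ((g3 - g1) * L) := by rw [Xc]; ring
          _ = a * (g3 - g1) * (L * B) := by rw [← Xa]; ring
      rw [f6]
      have := mul_le_mul_of_nonneg_right f5 (mul_pos hL0 hB0).le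
      linarith
  -- step 5
  have g5 : s2 * p2 * B * (U * A - L * (1 + s3)) ≤ m * (s1 + 2 * s2 + s3) * (U * A) := by
    have e1 : s2 * p2 * B * (U * A) = m * (s1 + 2 * s2 + s3) * (U * A) +
        c * (g3 - g1) * (U * A) := by rw [st1]; ring
    linarith
  have g6 : 2 * (1 - g2) * s2 * (L * (U * A - L * (1 + s3))) ≤
      (1 - s2 ^ 2) * (s1 + 2 * s2 + s3) * A ^ 2 := by
    have e1 := mul_le_mul_of_nonneg_right g5 (mul_pos w2 hA0).le
    refine le_of_mul_le_mul_left (a := m * U) ?_ (mul_pos hm0 hU0)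
    have e2 : s2 * p2 * B * (U * A - L * (1 + s3)) * ((1 - s2 ^ 2) * A) =
        m * U * (2 * (1 - g2) * s2 * (L * (U * A - L * (1 + s3)))) := by
      calc s2 * p2 * B * (U * A - L * (1 + s3)) * ((1 - s2 ^ 2) * A)
          = (p2 * (1 - s2 ^ 2) * (A * B)) * (s2 * (U * A - L * (1 + s3))) := by ring
        _ = _ := by rw [st2]; ring
    rw [e2] at e1
    linarith
  have hLA : L ≤ A := by rw [hL, hA]; linarith
  have g7 : A * (m + s2) ≤ U * A - L * (1 + s3) := by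
    have e1 := mul_le_mul_of_nonneg_right hLA (by linarith : 0 ≤ 1 + s3)
    have e2 : U = m + 1 + s2 + s3 := hU
    nlinarith
  have g8 : 2 * (1 - g2) * s2 * (L * (A * (m + s2))) ≤
      (1 - s2 ^ 2) * (s1 + 2 * s2 + s3) * A ^ 2 := by
    refine le_trans ?_ g6
    have : 0 ≤ 2 * (1 - g2) * s2 * L := by
      have : 0 < 1 - g2 := by linarith
      positivity
    have := mul_le_mul_of_nonneg_left g7 this
    linarith
  have g9 : (1 - s2 ^ 2) * (s1 + 2 * s2 + s3) ≤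
      2 * s2 * ((1 - s2 ^ 2) + 37 / 49 * (1 - g2)) := by nlinarith
  have g10 : (1 - g2) * (L * (m + s2)) ≤ ((1 - s2 ^ 2) + 37 / 49 * (1 - g2)) * A := by
    refine le_of_mul_le_mul_left (a := 2 * s2 * A) ?_ (by positivity)
    have e1 := mul_le_mul_of_nonneg_right g9 (sq_nonneg A)
    nlinarith
  have g11 : (1 - g2) * ((m + 1 - 2 * s2) * (m + s2)) ≤ (1 - g2) * (L * (m + s2)) := by
    refine mul_le_mul_of_nonneg_left (mul_le_mul_of_nonneg_right ?_ (by linarith)) (by linarith)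
    rw [hL]; linarith
  have g12 : ((1 - s2 ^ 2) + 37 / 49 * (1 - g2)) * A ≤
      ((1 - s2 ^ 2) + 37 / 49 * (1 - g2)) * (m + 1 + (1 - g2)) := by
    refine mul_le_mul_of_nonneg_left ?_ (by linarith)
    rw [hA]; linarith
  have g13 : ((1 - s2 ^ 2) + 37 / 49 * (1 - g2)) * (m + 1 + (1 - g2)) ≤
      (1 - g2) * (3 / 2 * (m + 1) * (1 - s2 ^ 2) + (1 - s2 ^ 2) + 37 / 49 * (m + 2)) := by
    have e1 : (1 - s2 ^ 2) * (m + 1) * 1 ≤ (1 - s2 ^ 2) * (m + 1) * (3 / 2 * (1 - g2)) := by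
      refine mul_le_mul_of_nonneg_left (by linarith) (by positivity)
    have e2 : 37 / 49 * (1 - g2) * (1 - g2) ≤ 37 / 49 * (1 - g2) * 1 :=
      mul_le_mul_of_nonneg_left (by linarith) (by linarith)
    nlinarith
  have g14 := num_aux hm hs2.le t2.le
  have g15 := mul_lt_mul_of_pos_left g14 (by linarith : 0 < 1 - g2)
  linarith

end Sys

end Pool.H36.ST
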