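import Pool.Agent.H36.ST.Sys

/-!
Lower bounds for `p_i/(2 (1 - g_i))` (called `K_i`, so `m K_1 (1 - s1²) = bc` etc.).
`M = m + 1 ≥ 4`, `A = m+2-g1-g2`, `B = m+2-g2-g3`, `C = m+2-g1-g3`, all `< M + 1`.
From `Xa, Xb, Xc`: `a B = m (M+s2+s3)`, `b C = m (M+s1-s3)`, `c A = m (M-s1-s2)`.
`K2 A B = m (M+s2+s3)(M-s1-s2)/(1-s2²) ≥ m (M+s2)(M-2 s2)/(1-s2²) ≥ m (M² - 1/3)`,
`K3 B C = m (M+s2+s3)(M+s1-s3)/(1-s3²) ≥ m (M+s3)(M-s3)/(1-s3²) ≥ m M²`,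
`K1 A C = m (M+s1-s3)(M-s1-s2)/(1-s1²) ≥ m ((M-s2)²-s1²)/(1-s1²) ≥ m (M-1)²`.
With `A, B, C ≤ M + 1`: `K1 ≥ 27/25`, `K2 ≥ 47/25`, `K3 ≥ 48/25`. If `A ≤ M` or `B ≤ M` then
`K2 ≥ 47/20`; if `B ≤ M` then `K3 ≥ 12/5`.
(`20 (M-1)(3M²-1) ≥ 141 M (M+1)` and `25 (M-1)(3M²-1) ≥ 141 (M+1)²` for `M ≥ 4`.)
-/

namespace Pool.H36.ST

namespace Sys

variable {m a b c p1 p2 p3 g1 g2 g3 s1 s2 s3 : ℝ}

private theorem kf2 (h : Sys m a b c p1 p2 p3 g1 g2 g3 s1 s2 s3)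
    (k2 : g2 < 1) (t2 : s2 < 1) (o1 : s1 ≤ s2) :
    2 * (1 - g2) * (m * ((m + 1) ^ 2 - 1 / 3)) ≤
      p2 * ((m + 2 - g1 - g2) * (m + 2 - g2 - g3)) := by
  have hm := h.hm
  have n1 := h.s1_nonneg
  have n2 := h.s2_nonneg
  have n3 := h.s3_nonneg
  have w : 0 < 1 - s2 ^ 2 := by nlinarith
  have hg : 0 < 1 - g2 := by linarith
  have e0 : m * (p2 * (1 - s2 ^ 2) * ((m + 2 - g1 - g2) * (m + 2 - g2 - g3))) =
      m * (2 * (1 - g2) * (m * ((m + 1 + s2 + s3) * (m + 1 - s1 - s2)))) := by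
    calc m * (p2 * (1 - s2 ^ 2) * ((m + 2 - g1 - g2) * (m + 2 - g2 - g3)))
        = (m * p2 * (1 - s2 ^ 2)) * ((m + 2 - g1 - g2) * (m + 2 - g2 - g3)) := by ring
      _ = (2 * (a * c) * (1 - g2)) * ((m + 2 - g1 - g2) * (m + 2 - g2 - g3)) := by rw [h.P2]
      _ = 2 * (1 - g2) * ((a * (m + 2 - g2 - g3)) * (c * (m + 2 - g1 - g2))) := by ring
      _ = _ := by rw [h.Xa, h.Xc]; ring
  have e1 := mul_left_cancel₀ (by linarith : m ≠ 0) e0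
  have e2 : ((m + 1) ^ 2 - 1 / 3) * (1 - s2 ^ 2) ≤ (m + 1 + s2 + s3) * (m + 1 - s1 - s2) := by
    have f1 : (m + 1 + s2) * (m + 1 - 2 * s2) ≤ (m + 1 + s2 + s3) * (m + 1 - s1 - s2) := by
      apply mul_le_mul <;> nlinarith
    have f2 : ((m + 1) ^ 2 - 1 / 3) * (1 - s2 ^ 2) ≤ (m + 1 + s2) * (m + 1 - 2 * s2) := by
      nlinarith [sq_nonneg ((m + 1) * s2 - 1 / 2), mul_nonneg n2 n2, sq_nonneg s2,
        mul_nonneg (mul_nonneg n2 n2) (by linarith : 0 ≤ m - 3), sq_nonneg (m * s2),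
        mul_nonneg (sq_nonneg s2) (by nlinarith : 0 ≤ (m + 1) ^ 2 - 16)]
    linarith
  have e3 : 2 * (1 - g2) * (m * ((m + 1) ^ 2 - 1 / 3)) * (1 - s2 ^ 2) ≤
      p2 * ((m + 2 - g1 - g2) * (m + 2 - g2 - g3)) * (1 - s2 ^ 2) := by
    have f3 : 0 ≤ 2 * (1 - g2) * m := by positivity
    have f4 := mul_le_mul_of_nonneg_left e2 f3
    nlinarith
  exact le_of_mul_le_mul_right e3 w

private theorem kf3 (h : Sys m a b c p1 p2 p3 g1 g2 g3 s1 s2 s3)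
    (k3 : g3 < 1) (t3 : s3 < 1) :
    2 * (1 - g3) * (m * (m + 1) ^ 2) ≤
      p3 * ((m + 2 - g2 - g3) * (m + 2 - g1 - g3)) := by
  have hm := h.hm
  have n1 := h.s1_nonneg
  have n2 := h.s2_nonneg
  have n3 := h.s3_nonneg
  have w : 0 < 1 - s3 ^ 2 := by nlinarith
  have hg : 0 < 1 - g3 := by linarith
  have e0 : m * (p3 * (1 - s3 ^ 2) * ((m + 2 - g2 - g3) * (m + 2 - g1 - g3))) =
      m * (2 * (1 - g3) * (m * ((m + 1 + s2 + s3) * (m + 1 + s1 - s3)))) := by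
    calc m * (p3 * (1 - s3 ^ 2) * ((m + 2 - g2 - g3) * (m + 2 - g1 - g3)))
        = (m * p3 * (1 - s3 ^ 2)) * ((m + 2 - g2 - g3) * (m + 2 - g1 - g3)) := by ring
      _ = (2 * (a * b) * (1 - g3)) * ((m + 2 - g2 - g3) * (m + 2 - g1 - g3)) := by rw [h.P3]
      _ = 2 * (1 - g3) * ((a * (m + 2 - g2 - g3)) * (b * (m + 2 - g1 - g3))) := by ring
      _ = _ := by rw [h.Xa, h.Xb]; ring
  have e1 := mul_left_cancel₀ (by linarith : m ≠ 0) e0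
  have e2 : (m + 1) ^ 2 * (1 - s3 ^ 2) ≤ (m + 1 + s2 + s3) * (m + 1 + s1 - s3) := by
    have f1 : (m + 1 + s3) * (m + 1 - s3) ≤ (m + 1 + s2 + s3) * (m + 1 + s1 - s3) := by
      apply mul_le_mul <;> nlinarith
    have f2 : (m + 1) ^ 2 * (1 - s3 ^ 2) ≤ (m + 1 + s3) * (m + 1 - s3) := by
      nlinarith [mul_nonneg (sq_nonneg s3) (by nlinarith : 0 ≤ (m + 1) ^ 2 - 16)]
    linarith
  have e3 : 2 * (1 - g3) * (m * (m + 1) ^ 2) * (1 - s3 ^ 2) ≤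
      p3 * ((m + 2 - g2 - g3) * (m + 2 - g1 - g3)) * (1 - s3 ^ 2) := by
    have f3 : 0 ≤ 2 * (1 - g3) * m := by positivity
    have f4 := mul_le_mul_of_nonneg_left e2 f3
    nlinarith
  exact le_of_mul_le_mul_right e3 w

private theorem kf1 (h : Sys m a b c p1 p2 p3 g1 g2 g3 s1 s2 s3)
    (k1 : g1 < 1) (t1 : s1 < 1) (t2 : s2 < 1) (o1 : s1 ≤ s2) (o3 : s3 ≤ s2) :
    2 * (1 - g1) * (m * m ^ 2) ≤
      p1 * ((m + 2 - g1 - g2) * (m + 2 - g1 - g3)) := by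
  have hm := h.hm
  have n1 := h.s1_nonneg
  have n2 := h.s2_nonneg
  have n3 := h.s3_nonneg
  have w : 0 < 1 - s1 ^ 2 := by nlinarith
  have hg : 0 < 1 - g1 := by linarith
  have e0 : m * (p1 * (1 - s1 ^ 2) * ((m + 2 - g1 - g2) * (m + 2 - g1 - g3))) =
      m * (2 * (1 - g1) * (m * ((m + 1 + s1 - s3) * (m + 1 - s1 - s2)))) := by
    calc m * (p1 * (1 - s1 ^ 2) * ((m + 2 - g1 - g2) * (m + 2 - g1 - g3)))
        = (m * p1 * (1 - s1 ^ 2)) * ((m + 2 - g1 - g2) * (m + 2 - g1 - g3)) := by ring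
      _ = (2 * (b * c) * (1 - g1)) * ((m + 2 - g1 - g2) * (m + 2 - g1 - g3)) := by rw [h.P1]
      _ = 2 * (1 - g1) * ((b * (m + 2 - g1 - g3)) * (c * (m + 2 - g1 - g2))) := by ring
      _ = _ := by rw [h.Xb, h.Xc]; ring
  have e1 := mul_left_cancel₀ (by linarith : m ≠ 0) e0
  have e2 : m ^ 2 * (1 - s1 ^ 2) ≤ (m + 1 + s1 - s3) * (m + 1 - s1 - s2) := by
    have f1 : (m + 1 + s1 - s2) * (m + 1 - s1 - s2) ≤
        (m + 1 + s1 - s3) * (m + 1 - s1 - s2) := by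
      apply mul_le_mul_of_nonneg_right <;> linarith
    have f2 : m ^ 2 * (1 - s1 ^ 2) ≤ (m + 1 + s1 - s2) * (m + 1 - s1 - s2) := by
      have f3 : m ^ 2 ≤ (m + 1 - s2) ^ 2 := by
        apply pow_le_pow_left₀ <;> linarith
      have f4 : s1 ^ 2 ≤ m ^ 2 * s1 ^ 2 := by
        have f5 : 1 ≤ m ^ 2 := by nlinarith
        have := mul_le_mul_of_nonneg_right f5 (sq_nonneg s1)
        linarith
      nlinarith
    linarith
  have e3 : 2 * (1 - g1) * (m * m ^ 2) * (1 - s1 ^ 2) ≤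
      p1 * ((m + 2 - g1 - g2) * (m + 2 - g1 - g3)) * (1 - s1 ^ 2) := by
    have f3 : 0 ≤ 2 * (1 - g1) * m := by positivity
    have f4 := mul_le_mul_of_nonneg_left e2 f3
    nlinarith
  exact le_of_mul_le_mul_right e3 w

/-- conclusion of the estimates -/
private theorem fin_aux {x p T A B P : ℝ} (hx : 0 ≤ x) (hp : 0 < p) (hA : 0 ≤ A)
    (hAB : A ≤ P) (hP : 0 < P) (h : 2 * x * T ≤ p * A) (hT : B * P ≤ 2 * T) : B * x ≤ p := by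
  have h1 : 2 * x * T ≤ p * P := h.trans (mul_le_mul_of_nonneg_left hAB hp.le)
  have h2 : (B * x) * P ≤ p * P := by
    have := mul_le_mul_of_nonneg_left hT hx
    nlinarith
  exact le_of_mul_le_mul_right h2 hP

theorem k1 (h : Sys m a b c p1 p2 p3 g1 g2 g3 s1 s2 s3) (h1 : 0 < g1) (h2 : 0 < g2)
    (h3 : 0 < g3) (k1 : g1 < 1) (k2 : g2 < 1) (k3 : g3 < 1)
    (t1 : s1 < 1) (t2 : s2 < 1) (t3 : s3 < 1) (o1 : s1 ≤ s2) (o3 : s3 ≤ s2) :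
    54 / 25 * (1 - g1) ≤ p1 := by
  have hm := h.hm
  refine fin_aux (P := (m + 2) * (m + 2)) (by linarith) h.hp1 ?_ ?_ (by positivity)
    (kf1 h k1 t1 t2 o1 o3) ?_
  · exact mul_nonneg (by linarith) (by linarith)
  · exact mul_le_mul (by linarith) (by linarith) (by linarith) (by linarith)
  · nlinarith [mul_nonneg (by linarith : 0 ≤ m - 3) (by linarith : 0 ≤ m - 3),
      mul_nonneg (mul_nonneg (by linarith : 0 ≤ m - 3) (by linarith : 0 ≤ m - 3))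
        (by linarith : 0 ≤ m - 3)]

theorem k2 (h : Sys m a b c p1 p2 p3 g1 g2 g3 s1 s2 s3) (h1 : 0 < g1) (h2 : 0 < g2)
    (h3 : 0 < g3) (k1 : g1 < 1) (k2 : g2 < 1) (k3 : g3 < 1)
    (t1 : s1 < 1) (t2 : s2 < 1) (t3 : s3 < 1) (o1 : s1 ≤ s2) (o3 : s3 ≤ s2) :
    94 / 25 * (1 - g2) ≤ p2 := by
  have hm := h.hm
  refine fin_aux (P := (m + 2) * (m + 2)) (by linarith) h.hp2 ?_ ?_ (by positivity)
    (kf2 h k2 t2 o1) ?_
  · exact mul_nonneg (by linarith) (by linarith)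
  · exact mul_le_mul (by linarith) (by linarith) (by linarith) (by linarith)
  · nlinarith [mul_nonneg (by linarith : 0 ≤ m - 3) (by linarith : 0 ≤ m - 3),
      mul_nonneg (mul_nonneg (by linarith : 0 ≤ m - 3) (by linarith : 0 ≤ m - 3))
        (by linarith : 0 ≤ m - 3)]

theorem k3 (h : Sys m a b c p1 p2 p3 g1 g2 g3 s1 s2 s3) (h1 : 0 < g1) (h2 : 0 < g2)
    (h3 : 0 < g3) (k1 : g1 < 1) (k2 : g2 < 1) (k3 : g3 < 1)
    (t1 : s1 < 1) (t2 : s2 < 1) (t3 : s3 < 1) (o1 : s1 ≤ s2) (o3 : s3 ≤ s2) :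
    96 / 25 * (1 - g3) ≤ p3 := by
  have hm := h.hm
  refine fin_aux (P := (m + 2) * (m + 2)) (by linarith) h.hp3 ?_ ?_ (by positivity)
    (kf3 h k3 t3) ?_
  · exact mul_nonneg (by linarith) (by linarith)
  · exact mul_le_mul (by linarith) (by linarith) (by linarith) (by linarith)
  · nlinarith [mul_nonneg (by linarith : 0 ≤ m - 3) (by linarith : 0 ≤ m - 3),
      mul_nonneg (mul_nonneg (by linarith : 0 ≤ m - 3) (by linarith : 0 ≤ m - 3))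
        (by linarith : 0 ≤ m - 3)]

theorem k2' (h : Sys m a b c p1 p2 p3 g1 g2 g3 s1 s2 s3) (h1 : 0 < g1) (h2 : 0 < g2)
    (h3 : 0 < g3) (k1 : g1 < 1) (k2 : g2 < 1) (k3 : g3 < 1)
    (t1 : s1 < 1) (t2 : s2 < 1) (t3 : s3 < 1) (o1 : s1 ≤ s2) (o3 : s3 ≤ s2)
    (hs : 1 ≤ g1 + g2 ∨ 1 ≤ g2 + g3) :
    47 / 10 * (1 - g2) ≤ p2 := by
  have hm := h.hm
  refine fin_aux (P := (m + 1) * (m + 2)) (by linarith) h.hp2 ?_ ?_ (by positivity)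
    (kf2 h k2 t2 o1) ?_
  · exact mul_nonneg (by linarith) (by linarith)
  · rcases hs with hs | hs
    · exact mul_le_mul (by linarith) (by linarith) (by linarith) (by linarith)
    · rw [mul_comm (m + 1) (m + 2)]
      exact mul_le_mul (by linarith) (by linarith) (by linarith) (by linarith)
  · nlinarith [mul_nonneg (by linarith : 0 ≤ m - 3) (by linarith : 0 ≤ m - 3),
      mul_nonneg (mul_nonneg (by linarith : 0 ≤ m - 3) (by linarith : 0 ≤ m - 3))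
        (by linarith : 0 ≤ m - 3)]

theorem k3' (h : Sys m a b c p1 p2 p3 g1 g2 g3 s1 s2 s3) (h1 : 0 < g1) (h2 : 0 < g2)
    (h3 : 0 < g3) (k1 : g1 < 1) (k2 : g2 < 1) (k3 : g3 < 1)
    (t1 : s1 < 1) (t2 : s2 < 1) (t3 : s3 < 1) (o1 : s1 ≤ s2) (o3 : s3 ≤ s2)
    (hs : 1 ≤ g2 + g3) :
    47 / 10 * (1 - g3) ≤ p3 := by
  have hm := h.hm
  refine fin_aux (P := (m + 1) * (m + 2)) (by linarith) h.hp3 ?_ ?_ (by positivity)
    (kf3 h k3 t3) ?_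
  · exact mul_nonneg (by linarith) (by linarith)
  · exact mul_le_mul (by linarith) (by linarith) (by linarith) (by linarith)
  · nlinarith [mul_nonneg (by linarith : 0 ≤ m - 3) (by linarith : 0 ≤ m - 3),
      mul_nonneg (mul_nonneg (by linarith : 0 ≤ m - 3) (by linarith : 0 ≤ m - 3))
        (by linarith : 0 ≤ m - 3)]

end Sys

end Pool.H36.ST
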