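import Pool.Agent.H36.ST.Sys

/-!
Order facts. All `g_i ∈ (0, 1)`, `c < a`.
`s_i < 1` from `P_i`. With `y_i = s_i/(1 - s_i²)`: `P_i` and `e_i` give
`2 (1-g1) y1 = m (1/c - 1/b)`, `2 (1-g2) y2 = m (1/c - 1/a)`, `2 (1-g3) y3 = m (1/b - 1/a)`.
`s1 ≤ s2`: otherwise `p1 < p2` (since `s1 p1 = b - c ≤ a - c = s2 p2`), `g1 < g2` (`dg12`),
`(1-g1) y1 > (1-g2) y2`, contradicting `1/c - 1/b ≤ 1/c - 1/a`. `s3 ≤ s2` in the same way (`dg23`).
`p1 ≤ p2`: otherwise `g2 < g1`, and `m p1 (1-s1²) = 2bc(1-g1)`, `m p2 (1-s2²) = 2ac(1-g2)` give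
`p1 (1 - s1²) ≤ p2 (1 - s2²) ≤ p2 (1 - s1²)`, so `p1 ≤ p2`. Then `g1 ≤ g2`.
-/

namespace Pool.H36.ST

namespace Sys

variable {m a b c p1 p2 p3 g1 g2 g3 s1 s2 s3 : ℝ}

private theorem lt_one_aux {x y s : ℝ} (hx : 0 < x) (hy : 0 < y) (h : x * (1 - s ^ 2) = y) :
    s < 1 := by
  have h1 : 0 < 1 - s ^ 2 := by
    by_contra hc
    have := mul_nonpos_of_nonneg_of_nonpos hx.le (not_lt.1 hc)
    linarith
  nlinarith

theorem s_lt_one (h : Sys m a b c p1 p2 p3 g1 g2 g3 s1 s2 s3) (k1 : g1 < 1) (k2 : g2 < 1)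
    (k3 : g3 < 1) : s1 < 1 ∧ s2 < 1 ∧ s3 < 1 := by
  have hm : 0 < m := by linarith [h.hm]
  have ha := h.ha
  have hb := h.hb
  have hc := h.hc
  refine ⟨lt_one_aux (mul_pos hm h.hp1) ?_ h.P1, lt_one_aux (mul_pos hm h.hp2) ?_ h.P2,
    lt_one_aux (mul_pos hm h.hp3) ?_ h.P3⟩
  · have : 0 < 1 - g1 := by linarith
    positivity
  · have : 0 < 1 - g2 := by linarith
    positivity
  · have : 0 < 1 - g3 := by linarith
    positivity

private theorem y_lt {s t al be : ℝ} (ht : 0 ≤ t) (hst : t < s) (hs : s < 1) (hbe : 0 < be)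
    (hab : be ≤ al) : be * t * (1 - s ^ 2) < al * s * (1 - t ^ 2) := by
  have h1 : 0 < 1 - s ^ 2 := by nlinarith
  have h2 : 1 - s ^ 2 ≤ 1 - t ^ 2 := by nlinarith
  have h3 : be * t ≤ al * t := mul_le_mul_of_nonneg_right hab ht
  have h4 : al * t < al * s := mul_lt_mul_of_pos_left hst (hbe.trans_le hab)
  have h5 : 0 ≤ al * s := by
    have := mul_nonneg hbe.le ht
    linarith
  calc be * t * (1 - s ^ 2) < al * s * (1 - s ^ 2) :=
        mul_lt_mul_of_pos_right (lt_of_le_of_lt h3 h4) h1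
    _ ≤ al * s * (1 - t ^ 2) := mul_le_mul_of_nonneg_left h2 h5

theorem order (h : Sys m a b c p1 p2 p3 g1 g2 g3 s1 s2 s3) (h1 : 0 < g1) (h2 : 0 < g2)
    (h3 : 0 < g3) (k1 : g1 < 1) (k2 : g2 < 1) (k3 : g3 < 1) (hac : c < a) :
    s1 ≤ s2 ∧ s3 ≤ s2 ∧ p1 ≤ p2 ∧ g1 ≤ g2 := by
  obtain ⟨t1, t2, t3⟩ := h.s_lt_one k1 k2 k3
  have hm : 0 < m := by linarith [h.hm]
  have ha := h.ha
  have hb := h.hb
  have hc := h.hc
  have hab := h.hab
  have hbc := h.hbc
  have n1 := h.s1_nonneg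
  have n2 := h.s2_nonneg
  have n3 := h.s3_nonneg
  have q1 : m * (b - c) * (1 - s1 ^ 2) = 2 * (b * c) * (1 - g1) * s1 := by
    rw [← h.e1]
    linear_combination s1 * h.P1
  have q2 : m * (a - c) * (1 - s2 ^ 2) = 2 * (a * c) * (1 - g2) * s2 := by
    rw [← h.e2]
    linear_combination s2 * h.P2
  have q3 : m * (a - b) * (1 - s3 ^ 2) = 2 * (a * b) * (1 - g3) * s3 := by
    rw [← h.e3]
    linear_combination s3 * h.P3
  have w1 : 0 < 1 - s1 ^ 2 := by nlinarith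
  have w2 : 0 < 1 - s2 ^ 2 := by nlinarith
  have w3 : 0 < 1 - s3 ^ 2 := by nlinarith
  have r1 : s1 ≤ s2 := by
    by_contra hcon
    have hlt : s2 < s1 := not_le.1 hcon
    have hp : p1 < p2 := by
      by_contra hpc
      have e1 := mul_le_mul_of_nonneg_left (not_lt.1 hpc) n2
      have e2 := mul_lt_mul_of_pos_right hlt h.hp1
      have e3 := h.e1
      have e4 := h.e2
      linarith
    have hg : g1 < g2 := by
      by_contra hgc
      have e1 := mul_nonneg (sub_nonneg.2 (not_lt.1 hgc)) h.hp3.le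
      have e2 := mul_neg_of_neg_of_pos (sub_neg.2 hp) (add_pos h1 h2)
      have e3 := h.dg12
      linarith
    have hy := y_lt n2 hlt t1 (by linarith : 0 < 1 - g2) (by linarith : 1 - g2 ≤ 1 - g1)
    have habc : 0 < 2 * (a * b * c) := by positivity
    have hy2 := mul_lt_mul_of_pos_left hy habc
    have e1 : 2 * (a * b * c) * ((1 - g2) * s2 * (1 - s1 ^ 2)) =
        b * (m * (a - c) * (1 - s2 ^ 2)) * (1 - s1 ^ 2) := by rw [q2]; ring
    have e2 : 2 * (a * b * c) * ((1 - g1) * s1 * (1 - s2 ^ 2)) =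
        a * (m * (b - c) * (1 - s1 ^ 2)) * (1 - s2 ^ 2) := by rw [q1]; ring
    rw [e1, e2] at hy2
    have e3 : 0 ≤ m * ((1 - s1 ^ 2) * (1 - s2 ^ 2)) * (c * (a - b)) := by
      have := sub_nonneg.2 hab
      positivity
    nlinarith
  have r3 : s3 ≤ s2 := by
    by_contra hcon
    have hlt : s2 < s3 := not_le.1 hcon
    have hp : p3 < p2 := by
      by_contra hpc
      have e1 := mul_le_mul_of_nonneg_left (not_lt.1 hpc) n2
      have e2 := mul_lt_mul_of_pos_right hlt h.hp3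
      have e3 := h.e3
      have e4 := h.e2
      linarith
    have hg : g3 < g2 := by
      by_contra hgc
      have e1 := mul_nonpos_of_nonpos_of_nonneg (sub_nonpos.2 (not_lt.1 hgc)) h.hp1.le
      have e2 := mul_pos (sub_pos.2 hp) (add_pos h2 h3)
      have e3 := h.dg23
      linarith
    have hy := y_lt n2 hlt t3 (by linarith : 0 < 1 - g2) (by linarith : 1 - g2 ≤ 1 - g3)
    have habc : 0 < 2 * (a * b * c) := by positivity
    have hy2 := mul_lt_mul_of_pos_left hy habc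
    have e1 : 2 * (a * b * c) * ((1 - g2) * s2 * (1 - s3 ^ 2)) =
        b * (m * (a - c) * (1 - s2 ^ 2)) * (1 - s3 ^ 2) := by rw [q2]; ring
    have e2 : 2 * (a * b * c) * ((1 - g3) * s3 * (1 - s2 ^ 2)) =
        c * (m * (a - b) * (1 - s3 ^ 2)) * (1 - s2 ^ 2) := by rw [q3]; ring
    rw [e1, e2] at hy2
    have e3 : 0 ≤ m * ((1 - s3 ^ 2) * (1 - s2 ^ 2)) * (a * (b - c)) := by
      have := sub_nonneg.2 hbc
      positivity
    nlinarith
  have r4 : p1 ≤ p2 := by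
    by_contra hcon
    have hlt : p2 < p1 := not_le.1 hcon
    have hg : g2 < g1 := by
      by_contra hgc
      have e1 := mul_nonpos_of_nonpos_of_nonneg (sub_nonpos.2 (not_lt.1 hgc)) h.hp3.le
      have e2 := mul_pos (sub_pos.2 hlt) (add_pos h1 h2)
      have e3 := h.dg12
      linarith
    have e1 : 2 * (b * c) * (1 - g1) ≤ 2 * (a * c) * (1 - g2) := by
      have : b * c ≤ a * c := mul_le_mul_of_nonneg_right hab hc.le
      exact mul_le_mul (by linarith) (by linarith) (by linarith) (by positivity)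
    have e2 : m * p2 * (1 - s2 ^ 2) ≤ m * p2 * (1 - s1 ^ 2) :=
      mul_le_mul_of_nonneg_left (by nlinarith) (mul_pos hm h.hp2).le
    have e3 : m * p2 * (1 - s1 ^ 2) < m * p1 * (1 - s1 ^ 2) :=
      mul_lt_mul_of_pos_right (mul_lt_mul_of_pos_left hlt hm) w1
    have e4 := h.P1
    have e5 := h.P2
    linarith
  refine ⟨r1, r3, r4, ?_⟩
  by_contra hgc
  have e1 := mul_pos (sub_pos.2 (not_le.1 hgc)) h.hp3
  have e2 := mul_nonpos_of_nonpos_of_nonneg (sub_nonpos.2 r4) (add_pos h1 h2).le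
  have e3 := h.dg12
  linarith

end Sys

end Pool.H36.ST
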