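import Pool.Agent.H36.ST.Sys

/-!
Pair sums and bounds for the `g_i`, from the lower bounds `K_i` of the module `KB`.
`pair`: `s = g2 + g3 ≥ 1` is impossible: `p2 s < 2`, `p3 s < 2` (`two12`, `two13`), so
`(47/20)(1-g2) s < 1`, `(47/20)(1-g3) s < 1`, sum `(2 - s) s < 40/47`, but `1 ≤ s < 5/4` gives
`(2 - s) s ≥ 15/16`. `g1 + g2 ≥ 1` is impossible: `p2 ≤ p2 (g1+g2) < 2` (`two23`), so
`1 - g2 < 20/47`, `g3 < 1 - g2 < 20/47` by the first part, `p3 ≥ (96/25)(27/47) > 2 > p2`, so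
`g3 ≥ g2` (`dg23`), contradiction. `g1 + g3 ≤ g2 + g3 < 1`.
`gbound`: `(1-g1)(g1+g3) ≥ g3` as `g1 (1 - g1 - g3) ≥ 0`, etc.; so
`2 = p1(g1+g3) + p2(g2+g3) ≥ (54/25 + 94/25) g3`, and similarly for `g2`, `g1`.
-/

namespace Pool.H36.ST

namespace Sys

variable {m a b c p1 p2 p3 g1 g2 g3 s1 s2 s3 : ℝ}

theorem pair (h : Sys m a b c p1 p2 p3 g1 g2 g3 s1 s2 s3) (h1 : 0 < g1) (h2 : 0 < g2)
    (h3 : 0 < g3) (k1 : g1 < 1) (k2 : g2 < 1) (k3 : g3 < 1)
    (hs : (g2 + g3) * (m + 1) < m + 2) (o : g1 ≤ g2)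
    (q3 : 96 / 25 * (1 - g3) ≤ p3)
    (q2' : (1 ≤ g1 + g2 ∨ 1 ≤ g2 + g3) → 47 / 10 * (1 - g2) ≤ p2)
    (q3' : 1 ≤ g2 + g3 → 47 / 10 * (1 - g3) ≤ p3) :
    g1 + g2 < 1 ∧ g2 + g3 < 1 ∧ g1 + g3 < 1 := by
  have hm := h.hm
  have hp1 := h.hp1
  have hp2 := h.hp2
  have hp3 := h.hp3
  have r23 : g2 + g3 < 1 := by
    by_contra hcon
    have hs1 : 1 ≤ g2 + g3 := not_lt.1 hcon
    have a2 := q2' (Or.inr hs1)
    have a3 := q3' hs1
    have hs0 : 0 < g2 + g3 := by linarith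
    have e1 : p2 * (g2 + g3) < 2 := by
      have := mul_pos hp1 (add_pos h1 h3)
      linarith [h.two12]
    have e2 : p3 * (g2 + g3) < 2 := by
      have := mul_pos hp1 (add_pos h1 h2)
      linarith [h.two13]
    have e3 := mul_le_mul_of_nonneg_right a2 hs0.le
    have e4 := mul_le_mul_of_nonneg_right a3 hs0.le
    have e5 : g2 + g3 ≤ 5 / 4 := by
      by_contra hc5
      have : 5 / 4 * (m + 1) < (g2 + g3) * (m + 1) :=
        mul_lt_mul_of_pos_right (not_le.1 hc5) (by linarith)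
      linarith
    set s := g2 + g3 with hsd
    have e6 : 47 / 10 * ((2 - s) * s) < 4 := by
      have : 47 / 10 * ((2 - s) * s) = 47 / 10 * (1 - g2) * s + 47 / 10 * (1 - g3) * s := by
        rw [hsd]; ring
      linarith
    nlinarith
  refine ⟨?_, r23, by linarith⟩
  by_contra hcon
  have hs1 : 1 ≤ g1 + g2 := not_lt.1 hcon
  have a2 := q2' (Or.inl hs1)
  have e1 : p2 * (g1 + g2) < 2 := by
    have := mul_pos hp3 (add_pos h1 h3)
    linarith [h.two23]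
  have e2 : p2 ≤ p2 * (g1 + g2) := by nlinarith
  have e3 : 1 - g2 < 20 / 47 := by linarith
  have e4 : g3 < 20 / 47 := by linarith
  have e5 : p2 < p3 := by linarith
  have e6 := h.dg23
  have e7 : (p2 - p3) * (g2 + g3) < 0 := mul_neg_of_neg_of_pos (by linarith) (by linarith)
  have e8 : 0 < (g2 - g3) * p1 := mul_pos (by linarith) hp1
  linarith

theorem gbound (h : Sys m a b c p1 p2 p3 g1 g2 g3 s1 s2 s3) (h1 : 0 < g1) (h2 : 0 < g2)
    (h3 : 0 < g3) (r12 : g1 + g2 < 1) (r23 : g2 + g3 < 1) (r13 : g1 + g3 < 1)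
    (q1 : 54 / 25 * (1 - g1) ≤ p1) (q2 : 94 / 25 * (1 - g2) ≤ p2)
    (q3 : 96 / 25 * (1 - g3) ≤ p3) :
    g1 ≤ 5 / 19 ∧ g2 ≤ 1 / 3 ∧ g3 ≤ 25 / 74 := by
  have key : ∀ x y : ℝ, 0 < x → x + y < 1 → y ≤ (1 - x) * (x + y) := by
    intro x y hx hxy
    nlinarith
  have b1 := mul_le_mul_of_nonneg_right q1 (add_pos h1 h2).le
  have b2 := mul_le_mul_of_nonneg_right q1 (add_pos h1 h3).le
  have b3 := mul_le_mul_of_nonneg_right q2 (add_pos h2 h1).le
  have b4 := mul_le_mul_of_nonneg_right q2 (add_pos h2 h3).le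
  have b5 := mul_le_mul_of_nonneg_right q3 (add_pos h3 h1).le
  have b6 := mul_le_mul_of_nonneg_right q3 (add_pos h3 h2).le
  have c1 := key g1 g2 h1 r12
  have c2 := key g1 g3 h1 r13
  have c3 := key g2 g1 h2 (by linarith)
  have c4 := key g2 g3 h2 r23
  have c5 := key g3 g1 h3 (by linarith)
  have c6 := key g3 g2 h3 (by linarith)
  have t12 := h.two12
  have t13 := h.two13
  have t23 := h.two23
  refine ⟨?_, ?_, ?_⟩
  · nlinarith
  · nlinarith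
  · nlinarith

end Sys

end Pool.H36.ST
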