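import Pool.Agent.H36.ST.Sys

/-!
Step T, second part: `p3 < p1 + p2`. Write `M = m + 1 ≥ 4`. Suppose `p3 ≥ p1 + p2`.
1. `g1 ≤ 0`, `g2 ≤ 0`, `0 < g3` (`gf1, gf2, gf3`), `g1 + g3 > 0`, `g2 + g3 > 0` (`g13, g23`),
   `s1 < 1`, `s2 < 1` (`P1, P2`: `1 - g > 0`), `s3 < 1` (`s3 p3 = a - b ≤ a - c = s2 p2 < p2 < p3`),
   `g3 < 1` (`P3`). So `-g1 < g3 < 1`, `-g2 < 1`.
2. Put `z = m/c`, `x = m/a`, `y = m/b`. `Xc`: `m + 2 - g1 - g2 = z (M - s1 - s2)`.
3. `P1` and `e1`: `(z - y)(1 - s1²) ≥ 2 s1`, because `z - y = m (b-c)/(bc) = m s1 p1/(bc)` and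
   `m p1 (1 - s1²) ≥ 2bc`. In the same way `(z - x)(1 - s2²) ≥ 2 s2`.
   By `lin_bound`: `s1 ≤ 1/8 + (3/10)(z - y)`, `s2 ≤ 1/8 + (3/10)(z - x)`.
4. `p3 - p2 ≤ 2 (ab - ac)/m`: `m (p3 - s3² p3) ≤ 2ab`, `m (p2 - s2² p2) ≥ 2ac`,
   `s3² p3 ≤ s2² p2` (`(a-b)² p2 ≤ (a-c)² p3`). With `p1 ≥ 2bc/m`, `p2 ≥ 2ac/m` and `g12`:
   `-(g1 + g2) = (p3 - p1 - p2)/(p1 p2) ≤ (z/(2m)) (z - x - y)`, and `z ≥ x + y`.
5. `x (M + s2 + s3) > M`, `y (M + s1 - s3) > M` (`Xa, Xb`), so `x + y ≥ 2M/(M+1) ≥ 8/5`.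
6. `z (M - 2) < M + 3`, so `z < 7/2`.
7. With `S = x + y`: `z (M - 1/4 - (3/10)(2z - S)) ≤ M + 1 + (z/(2m))(z - S)`, but
   `z (M - 1/4) - (3/5) z² + (3/10) z S - (z² - z S)/6 - (M + 1) > 0` for `8/5 ≤ S ≤ z ≤ 7/2`
   (increasing in `M` and `S`; at `M = 4`, `S = 8/5` it is `4.4966 z - 0.7667 z² - 5 > 0`).
-/

namespace Pool.H36.ST

/-- `e (1 - s²) ≥ 2 s` gives `s ≤ 1/8 + 3e/10`, since
`s³ - s²/8 - 2s/5 + 1/8 = (s - 41/100)² (s + 139/200) + small positive`. -/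
theorem lin_bound {s e : ℝ} (h0 : 0 ≤ s) (h1 : s < 1) (h : 2 * s ≤ e * (1 - s ^ 2)) :
    s ≤ 1 / 8 + 3 / 10 * e := by
  have hw : 0 < 1 - s ^ 2 := by nlinarith
  have key : 0 ≤ s ^ 3 - s ^ 2 / 8 - 2 * s / 5 + 1 / 8 := by
    have e1 : s ^ 3 - s ^ 2 / 8 - 2 * s / 5 + 1 / 8 =
      (s - 41 / 100) ^ 2 * (s + 139 / 200) + (18 / 10000 * s + 81705 / 10000000) := by ring
    rw [e1]
    have : 0 ≤ (s - 41 / 100) ^ 2 * (s + 139 / 200) := by positivity
    linarith
  have h2 : (s - 1 / 8) * (1 - s ^ 2) ≤ (3 / 10 * e) * (1 - s ^ 2) := by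
    have e2 : (3 / 10 * e) * (1 - s ^ 2) = 3 / 10 * (e * (1 - s ^ 2)) := by ring
    rw [e2]
    have e3 : (s - 1 / 8) * (1 - s ^ 2) = 3 / 5 * s - (s ^ 3 - s ^ 2 / 8 - 2 * s / 5 + 1 / 8) := by
      ring
    rw [e3]
    linarith
  have h3 := le_of_mul_le_mul_right h2 hw
  linarith

/-- the last inequality of step T -/
private theorem final {M z S : ℝ} (hM : 4 ≤ M) (hS : 8 / 5 ≤ S) (hz : S ≤ z) (hz' : z ≤ 7 / 2) :
    0 < z * (M - 1 / 4) - 3 / 5 * z ^ 2 + 3 / 10 * z * S - (z ^ 2 - z * S) / 6 - (M + 1) := by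
  have h1 : 0 ≤ (M - 4) * (z - 1) := mul_nonneg (by linarith) (by linarith)
  have h2 : 0 ≤ z * (S - 8 / 5) := mul_nonneg (by linarith) (by linarith)
  have h3 : 0 ≤ (z - 8 / 5) * (7 / 2 - z) := mul_nonneg (by linarith) (by linarith)
  nlinarith

/-- a lower bound for the sum of two numbers -/
private theorem sum_bound {M x y s2 s3 r : ℝ} (hM : 4 ≤ M) (hx : 0 < x) (hy : 0 < y)
    (hs : s2 < 1) (hr : r < 1) (h30 : 0 ≤ s3) (h3 : s3 < 1)
    (h1 : M < x * (M + s2 + s3)) (h2 : M < y * (M + r - s3)) : 8 / 5 ≤ x + y := by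
  have h1' : M < x * (M + 1 + s3) := by
    have : 0 ≤ x * (1 - s2) := mul_nonneg hx.le (by linarith)
    nlinarith
  have h2' : M < y * (M + 1 - s3) := by
    have : 0 ≤ y * (1 - r) := mul_nonneg hy.le (by linarith)
    nlinarith
  have h3' : M * (M + 1 - s3) ≤ x * (M + 1) ^ 2 := by
    have a1 := mul_le_mul_of_nonneg_right h1'.le (show 0 ≤ M + 1 - s3 by linarith)
    have a2 : 0 ≤ x * s3 ^ 2 := by positivity
    have e : x * (M + 1 + s3) * (M + 1 - s3) = x * (M + 1) ^ 2 - x * s3 ^ 2 := by ring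
    linarith
  have h4' : M * (M + 1 + s3) ≤ y * (M + 1) ^ 2 := by
    have a1 := mul_le_mul_of_nonneg_right h2'.le (show 0 ≤ M + 1 + s3 by linarith)
    have a2 : 0 ≤ y * s3 ^ 2 := by positivity
    have e : y * (M + 1 - s3) * (M + 1 + s3) = y * (M + 1) ^ 2 - y * s3 ^ 2 := by ring
    linarith
  have h5 : (2 * M) * (M + 1) ≤ ((x + y) * (M + 1)) * (M + 1) := by
    have e1 : (2 * M) * (M + 1) = M * (M + 1 - s3) + M * (M + 1 + s3) := by ring
    have e2 : ((x + y) * (M + 1)) * (M + 1) = x * (M + 1) ^ 2 + y * (M + 1) ^ 2 := by ring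
    linarith
  have h6 := le_of_mul_le_mul_right h5 (by linarith)
  nlinarith

namespace Sys

variable {m a b c p1 p2 p3 g1 g2 g3 s1 s2 s3 : ℝ}

theorem t3 (h : Sys m a b c p1 p2 p3 g1 g2 g3 s1 s2 s3) : p3 < p1 + p2 := by
  by_contra hcon
  rw [not_lt] at hcon
  have hp1 := h.hp1
  have hp2 := h.hp2
  have hp3 := h.hp3
  have ha := h.ha
  have hb := h.hb
  have hc := h.hc
  have hm := h.hm
  have hm0 : 0 < m := by linarith
  have hab := h.hab
  have hbc := h.hbc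
  have hs1 := h.s1_nonneg
  have hs2 := h.s2_nonneg
  have hs3 := h.s3_nonneg
  have hp : 0 < p1 * p2 * p3 := by positivity
  have hac : 0 < a * c := mul_pos ha hc
  have hbc' : 0 < b * c := mul_pos hb hc
  have hab' : 0 < a * b := mul_pos ha hb
  -- signs
  have hg1 : g1 ≤ 0 := by
    have h1 : g1 * (2 * (p1 * p2 * p3)) ≤ 0 := by
      have := h.gf1
      nlinarith
    exact nonpos_of_mul_nonpos_left h1 (by positivity)
  have hg2 : g2 ≤ 0 := by
    have h1 : g2 * (2 * (p1 * p2 * p3)) ≤ 0 := by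
      have := h.gf2
      nlinarith
    exact nonpos_of_mul_nonpos_left h1 (by positivity)
  have hg13 : 0 < g1 + g3 := by
    have h1 : 0 < (g1 + g3) * (p1 * p3) := by rw [h.g13]; linarith
    exact pos_of_mul_pos_left h1 (by positivity)
  have hg23 : 0 < g2 + g3 := by
    have h1 : 0 < (g2 + g3) * (p2 * p3) := by rw [h.g23]; linarith
    exact pos_of_mul_pos_left h1 (by positivity)
  have e1 : 2 * (b * c) ≤ m * p1 * (1 - s1 ^ 2) := by
    rw [h.P1]
    nlinarith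
  have e2 : 2 * (a * c) ≤ m * p2 * (1 - s2 ^ 2) := by
    rw [h.P2]
    nlinarith
  have l1 : s1 < 1 := by
    by_contra hn
    rw [not_lt] at hn
    have : 1 - s1 ^ 2 ≤ 0 := by nlinarith
    have h1 : m * p1 * (1 - s1 ^ 2) ≤ 0 := mul_nonpos_of_nonneg_of_nonpos (by positivity) this
    linarith
  have l2 : s2 < 1 := by
    by_contra hn
    rw [not_lt] at hn
    have : 1 - s2 ^ 2 ≤ 0 := by nlinarith
    have h1 : m * p2 * (1 - s2 ^ 2) ≤ 0 := mul_nonpos_of_nonneg_of_nonpos (by positivity) this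
    linarith
  have l3 : s3 < 1 := by
    have h1 : s3 * p3 < 1 * p3 := by
      have a1 : s2 * p2 < 1 * p2 := mul_lt_mul_of_pos_right l2 hp2
      rw [h.e2] at a1
      rw [h.e3]
      linarith
    exact lt_of_mul_lt_mul_right h1 hp3.le
  have hg3 : g3 < 1 := by
    have h1 : 0 < 2 * (a * b) * (1 - g3) := by
      rw [← h.P3]
      have : 0 < 1 - s3 ^ 2 := by nlinarith
      positivity
    have h2 := pos_of_mul_pos_right h1 (by positivity)
    linarith
  -- the variables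
  obtain ⟨z, hz⟩ : ∃ z, z * c = m := ⟨m / c, div_mul_cancel₀ _ hc.ne'⟩
  obtain ⟨x, hx⟩ : ∃ x, x * a = m := ⟨m / a, div_mul_cancel₀ _ ha.ne'⟩
  obtain ⟨y, hy⟩ : ∃ y, y * b = m := ⟨m / b, div_mul_cancel₀ _ hb.ne'⟩
  have hz0 : 0 < z := pos_of_mul_pos_left (by rw [hz]; exact hm0) hc.le
  have hx0 : 0 < x := pos_of_mul_pos_left (by rw [hx]; exact hm0) ha.le
  have hy0 : 0 < y := pos_of_mul_pos_left (by rw [hy]; exact hm0) hb.le
  -- (i)
  have hXc : m + 2 - g1 - g2 = z * (m + 1 - s1 - s2) := by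
    have := h.Xc
    refine mul_left_cancel₀ hc.ne' ?_
    rw [this, ← hz]
    ring
  have hXa : m + 2 - g2 - g3 = x * (m + 1 + s2 + s3) := by
    have := h.Xa
    refine mul_left_cancel₀ ha.ne' ?_
    rw [this, ← hx]
    ring
  have hXb : m + 2 - g1 - g3 = y * (m + 1 + s1 - s3) := by
    have := h.Xb
    refine mul_left_cancel₀ hb.ne' ?_
    rw [this, ← hy]
    ring
  -- (ii)
  have i1 : (z - y) * (b * c) = m * (s1 * p1) := by
    rw [h.e1]
    linear_combination b * hz - c * hy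
  have i2 : (z - x) * (a * c) = m * (s2 * p2) := by
    rw [h.e2]
    linear_combination a * hz - c * hx
  have j1 : 2 * s1 ≤ (z - y) * (1 - s1 ^ 2) := by
    have h1 : (2 * s1) * (b * c) ≤ ((z - y) * (1 - s1 ^ 2)) * (b * c) := by
      have e : ((z - y) * (1 - s1 ^ 2)) * (b * c) = s1 * (m * p1 * (1 - s1 ^ 2)) := by
        linear_combination (1 - s1 ^ 2) * i1
      rw [e]
      have := mul_le_mul_of_nonneg_left e1 hs1
      linarith
    exact le_of_mul_le_mul_right h1 hbc'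
  have j2 : 2 * s2 ≤ (z - x) * (1 - s2 ^ 2) := by
    have h1 : (2 * s2) * (a * c) ≤ ((z - x) * (1 - s2 ^ 2)) * (a * c) := by
      have e : ((z - x) * (1 - s2 ^ 2)) * (a * c) = s2 * (m * p2 * (1 - s2 ^ 2)) := by
        linear_combination (1 - s2 ^ 2) * i2
      rw [e]
      have := mul_le_mul_of_nonneg_left e2 hs2
      linarith
    exact le_of_mul_le_mul_right h1 hac
  have b1 := lin_bound hs1 l1 j1
  have b2 := lin_bound hs2 l2 j2
  -- (iii)
  have k1 : 2 * (b * c) ≤ m * p1 := by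
    have : 0 ≤ m * p1 * s1 ^ 2 := by positivity
    linarith
  have k2 : 2 * (a * c) ≤ m * p2 := by
    have : 0 ≤ m * p2 * s2 ^ 2 := by positivity
    linarith
  have k3 : s3 ^ 2 * p3 ≤ s2 ^ 2 * p2 := by
    have a1 : s3 * p3 ≤ s2 * p2 := by rw [h.e2, h.e3]; linarith
    have a2 : s3 ≤ s2 := by
      have : s3 * p2 ≤ s2 * p2 := by
        have : s3 * p2 ≤ s3 * p3 := mul_le_mul_of_nonneg_left (by linarith) hs3
        linarith
      exact le_of_mul_le_mul_right this hp2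
    have a3 := mul_le_mul a2 a1 (by positivity) hs2
    calc s3 ^ 2 * p3 = s3 * (s3 * p3) := by ring
      _ ≤ s2 * (s2 * p2) := a3
      _ = s2 ^ 2 * p2 := by ring
  have k4 : m * (p3 - p1 - p2) ≤ 2 * (a * b - a * c - b * c) := by
    have a1 : m * p3 * (1 - s3 ^ 2) ≤ 2 * (a * b) := by
      rw [h.P3]
      nlinarith
    have a2 : m * (s3 ^ 2 * p3) ≤ m * (s2 ^ 2 * p2) := mul_le_mul_of_nonneg_left k3 hm0.le
    have e1' : m * p3 * (1 - s3 ^ 2) = m * p3 - m * (s3 ^ 2 * p3) := by ring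
    have e2' : m * p2 * (1 - s2 ^ 2) = m * p2 - m * (s2 ^ 2 * p2) := by ring
    have e3' : m * (p3 - p1 - p2) = m * p3 - m * p1 - m * p2 := by ring
    rw [e1'] at a1
    rw [e2'] at e2
    rw [e3']
    linarith
  have k5 : 0 ≤ a * b - a * c - b * c := by
    have : 0 ≤ m * (p3 - p1 - p2) := mul_nonneg hm0.le (by linarith)
    linarith
  have hzS : x + y ≤ z := by
    have h1 : (x + y) * (a * b * c) ≤ z * (a * b * c) := by
      have e : z * (a * b * c) - (x + y) * (a * b * c) = m * (a * b - a * c - b * c) := by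
        linear_combination a * b * hz - b * c * hx - a * c * hy
      have := mul_nonneg hm0.le k5
      linarith
    exact le_of_mul_le_mul_right h1 (by positivity)
  -- bound for `-(g1 + g2)`
  have hG : -(g1 + g2) * (2 * m) ≤ z * (z - (x + y)) := by
    have h1 : -(g1 + g2) * (m * p1) * (m * p2) ≤ 2 * m * (a * b - a * c - b * c) := by
      have e : -(g1 + g2) * (m * p1) * (m * p2) = m * (m * (p3 - p1 - p2)) := by
        linear_combination -(m ^ 2) * h.g12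
      rw [e]
      have := mul_le_mul_of_nonneg_left k4 hm0.le
      linarith
    have h2 : 2 * (b * c) * (2 * (a * c)) ≤ (m * p1) * (m * p2) :=
      mul_le_mul k1 k2 (by positivity) (by positivity)
    have h3 : -(g1 + g2) * (2 * (b * c) * (2 * (a * c))) ≤ -(g1 + g2) * ((m * p1) * (m * p2)) :=
      mul_le_mul_of_nonneg_left h2 (by linarith)
    have h4 : -(g1 + g2) * (2 * m) * (2 * (a * b * c ^ 2)) ≤
        (z * (z - (x + y))) * (2 * (a * b * c ^ 2)) := by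
      have e : (z * (z - (x + y))) * (2 * (a * b * c ^ 2)) =
          m * (2 * m * (a * b - a * c - b * c)) := by
        have e1 : z * c * ((z - (x + y)) * (a * b * c)) = m * (m * (a * b - a * c - b * c)) := by
          rw [hz]
          linear_combination m * (a * b * hz - b * c * hx - a * c * hy)
        linear_combination 2 * e1
      have e' : -(g1 + g2) * (2 * m) * (2 * (a * b * c ^ 2)) =
          m * (-(g1 + g2) * (2 * (b * c) * (2 * (a * c)))) := by ring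
      rw [e, e']
      apply mul_le_mul_of_nonneg_left _ hm0.le
      linarith
    exact le_of_mul_le_mul_right h4 (by positivity)
  -- (v)
  have hS : 8 / 5 ≤ x + y := by
    refine sum_bound (M := m + 1) (s2 := s2) (s3 := s3) (r := s1) (by linarith) hx0 hy0 l2 l1
      hs3 l3 ?_ ?_
    · rw [← hXa]; linarith
    · rw [← hXb]; linarith
  -- (vi)
  have hz7 : z ≤ 7 / 2 := by
    by_contra hn
    rw [not_le] at hn
    have h1 : z * (m + 1 - 2) < z * (m + 1 - s1 - s2) := mul_lt_mul_of_pos_left (by linarith) hz0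
    rw [← hXc] at h1
    have h2 : 7 / 2 * (m + 1 - 2) ≤ z * (m + 1 - 2) :=
      mul_le_mul_of_nonneg_right hn.le (by linarith)
    linarith
  -- (vii)
  have hfin := final (M := m + 1) (by linarith) hS hzS hz7
  have h1 : z * (m + 1 - (1 / 4 + 3 / 10 * (z - y) + 3 / 10 * (z - x))) ≤
      z * (m + 1 - s1 - s2) := mul_le_mul_of_nonneg_left (by linarith) hz0.le
  rw [← hXc] at h1
  have h2 : -(g1 + g2) ≤ (z ^ 2 - z * (x + y)) / 6 := by
    have : -(g1 + g2) * 6 ≤ -(g1 + g2) * (2 * m) :=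
      mul_le_mul_of_nonneg_left (by linarith) (by linarith)
    have e : z * (z - (x + y)) = z ^ 2 - z * (x + y) := by ring
    linarith
  have e : z * (m + 1 - (1 / 4 + 3 / 10 * (z - y) + 3 / 10 * (z - x))) =
      z * (m + 1 - 1 / 4) - 3 / 5 * z ^ 2 + 3 / 10 * z * (x + y) := by ring
  rw [e] at h1
  linarith

end Sys

end Pool.H36.ST
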