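import Pool.Agent.H36.ST.T12
import Pool.Agent.H36.ST.T3
import Pool.Agent.H36.ST.CG
import Pool.Agent.H36.ST.Ord
import Pool.Agent.H36.ST.KB
import Pool.Agent.H36.ST.PS
import Pool.Agent.H36.ST.FI

/-!
Conclusion for the normalised diagonal system.
-/

namespace Pool.H36.ST

namespace Sys

variable {m a b c p1 p2 p3 g1 g2 g3 s1 s2 s3 : ℝ}

theorem gpos (h : Sys m a b c p1 p2 p3 g1 g2 g3 s1 s2 s3) : 0 < g1 ∧ 0 < g2 ∧ 0 < g3 := by
  have t1 := h.t1
  have t2 := h.t2
  have t3 := h.t3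
  have hD : 0 < p1 * p2 * p3 := mul_pos (mul_pos h.hp1 h.hp2) h.hp3
  refine ⟨?_, ?_, ?_⟩
  · have e : g1 * (2 * (p1 * p2 * p3)) = (p1 - p2 + p3) * (p1 + p2 - p3) := by
      linear_combination h.gf1
    have hp : 0 < g1 * (2 * (p1 * p2 * p3)) := by
      rw [e]
      exact mul_pos (by linarith) (by linarith)
    exact pos_of_mul_pos_left hp (by linarith)
  · have e : g2 * (2 * (p1 * p2 * p3)) = (p2 - p1 + p3) * (p2 + p1 - p3) := by
      linear_combination h.gf2
    have hp : 0 < g2 * (2 * (p1 * p2 * p3)) := by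
      rw [e]
      exact mul_pos (by linarith) (by linarith)
    exact pos_of_mul_pos_left hp (by linarith)
  · have e : g3 * (2 * (p1 * p2 * p3)) = (p3 - p1 + p2) * (p3 + p1 - p2) := by
      linear_combination h.gf3
    have hp : 0 < g3 * (2 * (p1 * p2 * p3)) := by
      rw [e]
      exact mul_pos (by linarith) (by linarith)
    exact pos_of_mul_pos_left hp (by linarith)

/-- `a = c` (all the previous modules). -/
theorem eq_ac (h : Sys m a b c p1 p2 p3 g1 g2 g3 s1 s2 s3) : a = c := by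
  by_contra hne
  have hac : c < a := lt_of_le_of_ne (h.hbc.trans h.hab) (fun e => hne e.symm)
  obtain ⟨h1, h2, h3⟩ := h.gpos
  have hc := h.c2 h1 h2 h3 hac
  obtain ⟨l1, l2, l3, hs⟩ := h.lt_one h1 h2 h3 hac hc
  obtain ⟨t1, t2, t3⟩ := h.s_lt_one l1 l2 l3
  obtain ⟨o1, o3, op, og⟩ := h.order h1 h2 h3 l1 l2 l3 hac
  have q1 := h.k1 h1 h2 h3 l1 l2 l3 t1 t2 t3 o1 o3
  have q2 := h.k2 h1 h2 h3 l1 l2 l3 t1 t2 t3 o1 o3
  have q3 := h.k3 h1 h2 h3 l1 l2 l3 t1 t2 t3 o1 o3
  obtain ⟨r12, r23, r13⟩ := h.pair h1 h2 h3 l1 l2 l3 hs og q3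
    (fun hh => h.k2' h1 h2 h3 l1 l2 l3 t1 t2 t3 o1 o3 hh)
    (fun hh => h.k3' h1 h2 h3 l1 l2 l3 t1 t2 t3 o1 o3 hh)
  obtain ⟨b1, b2, b3⟩ := h.gbound h1 h2 h3 r12 r23 r13 q1 q2 q3
  exact h.final h1 h2 h3 t1 t2 t3 o1 o3 b1 b2 b3 hac

/-- Conclusion: all the eigenvalues on `ℝ^3 ⊗ ℝ^m` agree, all those on `𝔰𝔬(3)` agree, and
Jensen's quadratic equation holds for their quotient. -/
theorem main (h : Sys m a b c p1 p2 p3 g1 g2 g3 s1 s2 s3) :
    a = b ∧ b = c ∧ p1 = p2 ∧ p2 = p3 ∧
      (m + 2) * p1 ^ 2 - 2 * (m + 1) * p1 * a + a ^ 2 = 0 := by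
  have hac := h.eq_ac
  have hab : a = b := le_antisymm (by rw [hac]; exact h.hbc) h.hab
  have hbc : b = c := by rw [← hab, hac]
  obtain ⟨h1, h2, h3⟩ := h.gpos
  subst hab
  subst hbc
  have hm : 0 < m := by linarith [h.hm]
  have ha := h.hc
  have hp1 := h.hp1
  have hp2 := h.hp2
  have hp3 := h.hp3
  have z1 : s1 = 0 := by
    have := h.e1
    rw [sub_self] at this
    rcases mul_eq_zero.mp this with h0 | h0
    · exact h0
    · exact absurd h0 hp1.ne'
  have z2 : s2 = 0 := by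
    have := h.e2
    rw [sub_self] at this
    rcases mul_eq_zero.mp this with h0 | h0
    · exact h0
    · exact absurd h0 hp2.ne'
  have z3 : s3 = 0 := by
    have := h.e3
    rw [sub_self] at this
    rcases mul_eq_zero.mp this with h0 | h0
    · exact h0
    · exact absurd h0 hp3.ne'
  subst z1
  subst z2
  subst z3
  have P1 : m * p1 = 2 * (a * a) * (1 - g1) := by linear_combination h.P1
  have P2 : m * p2 = 2 * (a * a) * (1 - g2) := by linear_combination h.P2
  have P3 : m * p3 = 2 * (a * a) * (1 - g3) := by linear_combination h.P3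
  have e12 : p1 = p2 := by
    have e : (p1 - p2) * (m * p3 + 2 * (a * a) * (g1 + g2)) = 0 := by
      linear_combination p3 * P1 - p3 * P2 + 2 * (a * a) * h.dg12 * (-1)
    have hpos : 0 < m * p3 + 2 * (a * a) * (g1 + g2) := by positivity
    rcases mul_eq_zero.mp e with h0 | h0
    · linarith
    · exact absurd h0 hpos.ne'
  have e23 : p2 = p3 := by
    have e : (p2 - p3) * (m * p1 + 2 * (a * a) * (g2 + g3)) = 0 := by
      linear_combination p1 * P2 - p1 * P3 + 2 * (a * a) * h.dg23 * (-1)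
    have hpos : 0 < m * p1 + 2 * (a * a) * (g2 + g3) := by positivity
    rcases mul_eq_zero.mp e with h0 | h0
    · linarith
    · exact absurd h0 hpos.ne'
  refine ⟨rfl, rfl, e12, e23, ?_⟩
  subst e12
  subst e23
  have k12 : g1 + g2 = 1 / p1 := by
    field_simp
    have := h.g12
    have h' := mul_left_cancel₀ hp1.ne' (a := p1) (b := (g1 + g2) * p1) (c := 1)
      (by linear_combination this)
    exact h'
  have k13 : g1 + g3 = 1 / p1 := by
    field_simp
    have := h.g13
    have h' := mul_left_cancel₀ hp1.ne' (a := p1) (b := (g1 + g3) * p1) (c := 1)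
      (by linear_combination this)
    exact h'
  have k23 : g2 + g3 = 1 / p1 := by
    field_simp
    have := h.g23
    have h' := mul_left_cancel₀ hp1.ne' (a := p1) (b := (g2 + g3) * p1) (c := 1)
      (by linear_combination this)
    exact h'
  have kg : 2 * g1 * p1 = 1 := by
    have : 2 * g1 = 1 / p1 := by linarith
    rw [this]
    field_simp
  have X : a * (m + 2 - g1 - g2) = m * (m + 1) := by
    have := h.Xc
    linarith
  have X' : a * ((m + 2) * p1 - 1) = m * (m + 1) * p1 := by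
    have e : g1 + g2 = 1 / p1 := k12
    have e2 : (g1 + g2) * p1 = 1 := by rw [e]; field_simp
    linear_combination p1 * X + a * e2
  have Q : m * p1 ^ 2 = a ^ 2 * (2 * p1 - 1) := by
    linear_combination p1 * P1 - a ^ 2 * kg
  -- eliminate: combine `Q` and `X'`
  have fin : m * ((m + 2) * p1 ^ 2 - 2 * (m + 1) * p1 * a + a ^ 2) = 0 := by
    linear_combination (m + 2) * Q + 2 * a * X'
  rcases mul_eq_zero.mp fin with h0 | h0
  · exact absurd h0 (by positivity)
  · exact h0

end Sys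

end Pool.H36.ST
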