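import Pool.Agent.H36.ST.Block

/-!
Elimination of the off-diagonal entries. `EqE` is the `𝔰𝔬(3)`-part of the Einstein equation as an
identity of quadratic forms in `u`, with `v = P u`; `D = det P`, `P³`-form `= v·P v`,
`tau = tr(P²)/2`:
`D lam u·Pu = D ((m+1)|u|² - (m/2) ∑ r_i u_i² + (m/2) ∑ sg_i v_i²) + v·Pv - tau u·Pu`,
`r_1 = x2/x3 + x3/x2`, `sg_1 = 1/(x2 x3)`, etc.
-/

namespace Pool.H36.ST

/-- Determinant of the symmetric matrix with entries `p11, p22, p33, p12, p13, p23`. -/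
def dt (p11 p22 p33 p12 p13 p23 : ℝ) : ℝ :=
  p11 * p22 * p33 + 2 * p12 * p13 * p23 - p11 * p23 ^ 2 - p22 * p13 ^ 2 - p33 * p12 ^ 2

/-- The quadratic form of that matrix. -/
def qf (p11 p22 p33 p12 p13 p23 u1 u2 u3 : ℝ) : ℝ :=
  p11 * u1 ^ 2 + p22 * u2 ^ 2 + p33 * u3 ^ 2 + 2 * p12 * u1 * u2 + 2 * p13 * u1 * u3
    + 2 * p23 * u2 * u3

/-- The `𝔰𝔬(3)`-part of the Einstein equation. -/
def EqE (m lam x1 x2 x3 p11 p22 p33 p12 p13 p23 : ℝ) : Prop :=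
  ∀ u1 u2 u3 v1 v2 v3 : ℝ, v1 = p11 * u1 + p12 * u2 + p13 * u3 →
    v2 = p12 * u1 + p22 * u2 + p23 * u3 → v3 = p13 * u1 + p23 * u2 + p33 * u3 →
    dt p11 p22 p33 p12 p13 p23 * (lam * qf p11 p22 p33 p12 p13 p23 u1 u2 u3) =
      dt p11 p22 p33 p12 p13 p23 * ((m + 1) * (u1 ^ 2 + u2 ^ 2 + u3 ^ 2)
        - m / 2 * ((x2 / x3 + x3 / x2) * u1 ^ 2 + (x1 / x3 + x3 / x1) * u2 ^ 2
          + (x1 / x2 + x2 / x1) * u3 ^ 2)
        + m / 2 * (v1 ^ 2 / (x2 * x3) + v2 ^ 2 / (x1 * x3) + v3 ^ 2 / (x1 * x2)))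
      + qf p11 p22 p33 p12 p13 p23 v1 v2 v3
      - (p11 ^ 2 + p22 ^ 2 + p33 ^ 2 + 2 * p12 ^ 2 + 2 * p13 ^ 2 + 2 * p23 ^ 2) / 2
        * qf p11 p22 p33 p12 p13 p23 u1 u2 u3

/-- Entries of `EqE`, diagonal and off-diagonal (polarisation). -/
structure EntE (m lam x1 x2 x3 p11 p22 p33 p12 p13 p23 : ℝ) : Prop where
  E11 : dt p11 p22 p33 p12 p13 p23 * (lam * p11) =
    dt p11 p22 p33 p12 p13 p23 * ((m + 1) - m / 2 * (x2 / x3 + x3 / x2)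
      + m / 2 * (p11 ^ 2 / (x2 * x3) + p12 ^ 2 / (x1 * x3) + p13 ^ 2 / (x1 * x2)))
    + qf p11 p22 p33 p12 p13 p23 p11 p12 p13
    - (p11 ^ 2 + p22 ^ 2 + p33 ^ 2 + 2 * p12 ^ 2 + 2 * p13 ^ 2 + 2 * p23 ^ 2) / 2 * p11
  E22 : dt p11 p22 p33 p12 p13 p23 * (lam * p22) =
    dt p11 p22 p33 p12 p13 p23 * ((m + 1) - m / 2 * (x1 / x3 + x3 / x1)
      + m / 2 * (p12 ^ 2 / (x2 * x3) + p22 ^ 2 / (x1 * x3) + p23 ^ 2 / (x1 * x2)))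
    + qf p11 p22 p33 p12 p13 p23 p12 p22 p23
    - (p11 ^ 2 + p22 ^ 2 + p33 ^ 2 + 2 * p12 ^ 2 + 2 * p13 ^ 2 + 2 * p23 ^ 2) / 2 * p22
  E33 : dt p11 p22 p33 p12 p13 p23 * (lam * p33) =
    dt p11 p22 p33 p12 p13 p23 * ((m + 1) - m / 2 * (x1 / x2 + x2 / x1)
      + m / 2 * (p13 ^ 2 / (x2 * x3) + p23 ^ 2 / (x1 * x3) + p33 ^ 2 / (x1 * x2)))
    + qf p11 p22 p33 p12 p13 p23 p13 p23 p33
    - (p11 ^ 2 + p22 ^ 2 + p33 ^ 2 + 2 * p12 ^ 2 + 2 * p13 ^ 2 + 2 * p23 ^ 2) / 2 * p33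
  E12 : dt p11 p22 p33 p12 p13 p23 * (lam * p12) =
    dt p11 p22 p33 p12 p13 p23 *
      (m / 2 * (p11 * p12 / (x2 * x3) + p12 * p22 / (x1 * x3) + p13 * p23 / (x1 * x2)))
    + (p11 * p11 * p12 + p22 * p12 * p22 + p33 * p13 * p23 + p12 * (p11 * p22 + p12 * p12)
      + p13 * (p11 * p23 + p13 * p12) + p23 * (p12 * p23 + p13 * p22))
    - (p11 ^ 2 + p22 ^ 2 + p33 ^ 2 + 2 * p12 ^ 2 + 2 * p13 ^ 2 + 2 * p23 ^ 2) / 2 * p12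
  E13 : dt p11 p22 p33 p12 p13 p23 * (lam * p13) =
    dt p11 p22 p33 p12 p13 p23 *
      (m / 2 * (p11 * p13 / (x2 * x3) + p12 * p23 / (x1 * x3) + p13 * p33 / (x1 * x2)))
    + (p11 * p11 * p13 + p22 * p12 * p23 + p33 * p13 * p33 + p12 * (p11 * p23 + p12 * p13)
      + p13 * (p11 * p33 + p13 * p13) + p23 * (p12 * p33 + p13 * p23))
    - (p11 ^ 2 + p22 ^ 2 + p33 ^ 2 + 2 * p12 ^ 2 + 2 * p13 ^ 2 + 2 * p23 ^ 2) / 2 * p13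
  E23 : dt p11 p22 p33 p12 p13 p23 * (lam * p23) =
    dt p11 p22 p33 p12 p13 p23 *
      (m / 2 * (p12 * p13 / (x2 * x3) + p22 * p23 / (x1 * x3) + p23 * p33 / (x1 * x2)))
    + (p11 * p12 * p13 + p22 * p22 * p23 + p33 * p23 * p33 + p12 * (p12 * p23 + p22 * p13)
      + p13 * (p12 * p33 + p23 * p13) + p23 * (p22 * p33 + p23 * p23))
    - (p11 ^ 2 + p22 ^ 2 + p33 ^ 2 + 2 * p12 ^ 2 + 2 * p13 ^ 2 + 2 * p23 ^ 2) / 2 * p23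

theorem entE_of_eqE {m lam x1 x2 x3 p11 p22 p33 p12 p13 p23 : ℝ}
    (h : EqE m lam x1 x2 x3 p11 p22 p33 p12 p13 p23) :
    EntE m lam x1 x2 x3 p11 p22 p33 p12 p13 p23 := by
  have h1 := h 1 0 0 p11 p12 p13 (by ring) (by ring) (by ring)
  have h2 := h 0 1 0 p12 p22 p23 (by ring) (by ring) (by ring)
  have h3 := h 0 0 1 p13 p23 p33 (by ring) (by ring) (by ring)
  have h12 := h 1 1 0 (p11 + p12) (p12 + p22) (p13 + p23) (by ring) (by ring) (by ring)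
  have h13 := h 1 0 1 (p11 + p13) (p12 + p23) (p13 + p33) (by ring) (by ring) (by ring)
  have h23 := h 0 1 1 (p12 + p13) (p22 + p23) (p23 + p33) (by ring) (by ring) (by ring)
  simp only [qf] at h1 h2 h3 h12 h13 h23
  refine ⟨?_, ?_, ?_, ?_, ?_, ?_⟩
  · simp only [qf]
    linear_combination h1
  · simp only [qf]
    linear_combination h2
  · simp only [qf]
    linear_combination h3
  · linear_combination (h12 - h1 - h2) / 2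
  · linear_combination (h13 - h1 - h3) / 2
  · linear_combination (h23 - h2 - h3) / 2

end Pool.H36.ST
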