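import Pool.Agent.H36.ST.RicEval
import Pool.Agent.H36.ST.ND

/-!
The Einstein equations in a frame in which `A` is diagonal, as equations between real numbers.
-/

namespace Pool.H36.ST

open Matrix

variable {m : ℕ}

theorem einstein_frame {R P A W Y : Matrix (Fin 3) (Fin 3) ℝ}
    {g : LinearMap.BilinForm ℝ (Compl 3 m)} (hm : 0 < m)
    (hR : Rᵀ * R = 1) (hd : R.det = 1) (hs : ∀ X Y, g X Y = g Y X)
    (hg : ∀ u v : Fin 3 → ℝ, ∀ z w : Fin m → Fin 3 → ℝ,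
        g (mkR R u z) (mkR R v w) = u ⬝ᵥ (P *ᵥ v) + ∑ i, z i ⬝ᵥ (A *ᵥ w i))
    (hW : Wᵀ * P * W = 1) (hY : Yᵀ * A * Y = 1) (he : IsEinstein g) :
    ∃ c : ℝ, (∀ u : Fin 3 → ℝ,
      -(1 / 2) * (((hat u)ᵀ * P * hat u * (W * Wᵀ)).trace
          + m * ((hat u)ᵀ * A * hat u * (Y * Yᵀ)).trace)
        + ((m : ℝ) + 1) * (u ⬝ᵥ u)
        + 1 / 4 * (((hat (P *ᵥ u))ᵀ * (W * Wᵀ) * hat (P *ᵥ u) * (W * Wᵀ)).trace
          + m * ((hat (P *ᵥ u))ᵀ * (Y * Yᵀ) * hat (P *ᵥ u) * (Y * Yᵀ)).trace)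
        = c * (u ⬝ᵥ (P *ᵥ u))) ∧
      (∀ z : Fin 3 → ℝ,
      -(1 / 2) * (((hat z)ᵀ * A * hat z * (W * Wᵀ)).trace
          + ((hat z)ᵀ * P * hat z * (Y * Yᵀ)).trace)
        + ((m : ℝ) + 1) * (z ⬝ᵥ z)
        + 1 / 2 * ((hat (A *ᵥ z))ᵀ * (W * Wᵀ) * hat (A *ᵥ z) * (Y * Yᵀ)).trace
        = c * (z ⬝ᵥ (A *ᵥ z))) := by
  obtain ⟨f, hf, ho⟩ := exists_obasis (m := m) hR g hg hW hY
  obtain ⟨c, d, e, heo, hr⟩ := he
  have hfe : (fun i => f i) = fam R W Y := funext hf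
  have hr' : ∀ X, ricci g (fam R W Y) X = c * g X X := by
    intro X
    rw [← hr X, ricci_indep g hs e f heo ho X, ← hfe]
  refine ⟨c, fun u => ?_, fun z => ?_⟩
  · rw [← ricci_u hR hd hg W Y u, hr', hg]
    simp
  · rw [← ricci_z hR hd hg W Y z ⟨0, hm⟩, hr', g_rr hg]
    simp

/-- Entries of the inverse of a positive definite matrix. -/
theorem inv_entries {P W : Matrix (Fin 3) (Fin 3) ℝ} (hs : Pᵀ = P) (hW : Wᵀ * P * W = 1) :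
    ∃ D : ℝ, D = dt (P 0 0) (P 1 1) (P 2 2) (P 0 1) (P 0 2) (P 1 2) ∧ D ≠ 0 ∧
      W * Wᵀ = !![(P 1 1 * P 2 2 - P 1 2 ^ 2) / D, (P 0 2 * P 1 2 - P 0 1 * P 2 2) / D,
          (P 0 1 * P 1 2 - P 0 2 * P 1 1) / D;
        (P 0 2 * P 1 2 - P 0 1 * P 2 2) / D, (P 0 0 * P 2 2 - P 0 2 ^ 2) / D,
          (P 0 1 * P 0 2 - P 0 0 * P 1 2) / D;
        (P 0 1 * P 1 2 - P 0 2 * P 1 1) / D, (P 0 1 * P 0 2 - P 0 0 * P 1 2) / D,
          (P 0 0 * P 1 1 - P 0 1 ^ 2) / D] := by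
  have h10 : P 1 0 = P 0 1 := congrFun (congrFun hs 0) 1
  have h20 : P 2 0 = P 0 2 := congrFun (congrFun hs 0) 2
  have h21 : P 2 1 = P 1 2 := congrFun (congrFun hs 1) 2
  have hdet : P.det = dt (P 0 0) (P 1 1) (P 2 2) (P 0 1) (P 0 2) (P 1 2) := by
    rw [Matrix.det_fin_three, dt, h10, h20, h21]
    ring
  have hne : P.det ≠ 0 := by
    intro h0
    have := congrArg Matrix.det hW
    rw [Matrix.det_mul, Matrix.det_mul, h0] at this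
    simp at this
  have hQ : (W * Wᵀ) * P = 1 := by
    have h1 : W * (Wᵀ * P) = 1 := mul_eq_one_comm.mp hW
    rw [Matrix.mul_assoc, h1]
  have hQ2 : P.det • (W * Wᵀ) = P.adjugate := by
    have h2 : (W * Wᵀ) * (P * P.adjugate) = P.adjugate := by
      rw [← Matrix.mul_assoc, hQ, Matrix.one_mul]
    rw [Matrix.mul_adjugate] at h2
    rw [← h2]
    simp
  have hQ3 : W * Wᵀ = (P.det)⁻¹ • P.adjugate := by
    rw [← hQ2, smul_smul, inv_mul_cancel₀ hne, one_smul]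
  refine ⟨P.det, hdet, hne, ?_⟩
  rw [hQ3, Matrix.adjugate_fin_three]
  ext i j
  fin_cases i <;> fin_cases j <;> simp [h10, h20, h21] <;> ring

end Pool.H36.ST
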