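import Pool.Agent.H36.ST.Extract

/-!
The Einstein equations in a frame in which `A = diag(x)`, as equations between real numbers.
-/

namespace Pool.H36.ST

open Matrix

variable {m : ℕ}

theorem trace_u1 (p11 p22 p33 p12 p13 p23 D u1 u2 u3 : ℝ) (h0 : D ≠ 0) :
    D * ((hat ![u1, u2, u3])ᵀ * !![p11, p12, p13; p12, p22, p23; p13, p23, p33] *
      hat ![u1, u2, u3] * !![(p22 * p33 - p23 ^ 2) / D, (p13 * p23 - p12 * p33) / D,
          (p12 * p23 - p13 * p22) / D;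
        (p13 * p23 - p12 * p33) / D, (p11 * p33 - p13 ^ 2) / D, (p12 * p13 - p11 * p23) / D;
        (p12 * p23 - p13 * p22) / D, (p12 * p13 - p11 * p23) / D,
          (p11 * p22 - p12 ^ 2) / D]).trace =
      (p11 ^ 2 + p22 ^ 2 + p33 ^ 2 + 2 * p12 ^ 2 + 2 * p13 ^ 2 + 2 * p23 ^ 2)
          * qf p11 p22 p33 p12 p13 p23 u1 u2 u3
        - qf p11 p22 p33 p12 p13 p23 (p11 * u1 + p12 * u2 + p13 * u3)
          (p12 * u1 + p22 * u2 + p23 * u3) (p13 * u1 + p23 * u2 + p33 * u3) := by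
  simp [Matrix.trace, Matrix.diag, Fin.sum_univ_three, Matrix.mul_apply, hat, qf]
  field_simp
  ring

theorem trace_u2 (p11 p22 p33 p12 p13 p23 D v1 v2 v3 : ℝ)
    (hD : D = dt p11 p22 p33 p12 p13 p23) (h0 : D ≠ 0) :
    D * ((hat ![v1, v2, v3])ᵀ * !![(p22 * p33 - p23 ^ 2) / D, (p13 * p23 - p12 * p33) / D,
          (p12 * p23 - p13 * p22) / D;
        (p13 * p23 - p12 * p33) / D, (p11 * p33 - p13 ^ 2) / D, (p12 * p13 - p11 * p23) / D;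
        (p12 * p23 - p13 * p22) / D, (p12 * p13 - p11 * p23) / D,
          (p11 * p22 - p12 ^ 2) / D] *
      hat ![v1, v2, v3] * !![(p22 * p33 - p23 ^ 2) / D, (p13 * p23 - p12 * p33) / D,
          (p12 * p23 - p13 * p22) / D;
        (p13 * p23 - p12 * p33) / D, (p11 * p33 - p13 ^ 2) / D, (p12 * p13 - p11 * p23) / D;
        (p12 * p23 - p13 * p22) / D, (p12 * p13 - p11 * p23) / D,
          (p11 * p22 - p12 ^ 2) / D]).trace =
      2 * qf p11 p22 p33 p12 p13 p23 v1 v2 v3 := by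
  have key : D ^ 2 * ((hat ![v1, v2, v3])ᵀ * !![(p22 * p33 - p23 ^ 2) / D,
      (p13 * p23 - p12 * p33) / D, (p12 * p23 - p13 * p22) / D;
        (p13 * p23 - p12 * p33) / D, (p11 * p33 - p13 ^ 2) / D, (p12 * p13 - p11 * p23) / D;
        (p12 * p23 - p13 * p22) / D, (p12 * p13 - p11 * p23) / D,
          (p11 * p22 - p12 ^ 2) / D] *
      hat ![v1, v2, v3] * !![(p22 * p33 - p23 ^ 2) / D, (p13 * p23 - p12 * p33) / D,
          (p12 * p23 - p13 * p22) / D;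
        (p13 * p23 - p12 * p33) / D, (p11 * p33 - p13 ^ 2) / D, (p12 * p13 - p11 * p23) / D;
        (p12 * p23 - p13 * p22) / D, (p12 * p13 - p11 * p23) / D,
          (p11 * p22 - p12 ^ 2) / D]).trace =
      2 * D * qf p11 p22 p33 p12 p13 p23 v1 v2 v3 := by
    simp [Matrix.trace, Matrix.diag, Fin.sum_univ_three, Matrix.mul_apply, hat, qf]
    field_simp
    rw [hD, dt]
    ring
  refine mul_left_cancel₀ h0 ?_
  linear_combination key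

theorem trace_a1 (x1 x2 x3 u1 u2 u3 : ℝ) (h1 : x1 ≠ 0) (h2 : x2 ≠ 0) (h3 : x3 ≠ 0) :
    ((hat ![u1, u2, u3])ᵀ * !![x1, 0, 0; 0, x2, 0; 0, 0, x3] * hat ![u1, u2, u3] *
      !![1 / x1, 0, 0; 0, 1 / x2, 0; 0, 0, 1 / x3]).trace =
      (x2 / x3 + x3 / x2) * u1 ^ 2 + (x1 / x3 + x3 / x1) * u2 ^ 2
        + (x1 / x2 + x2 / x1) * u3 ^ 2 := by
  simp [Matrix.trace, Matrix.diag, Fin.sum_univ_three, Matrix.mul_apply, hat]
  field_simp
  ring

theorem trace_a2 (x1 x2 x3 v1 v2 v3 : ℝ) (h1 : x1 ≠ 0) (h2 : x2 ≠ 0) (h3 : x3 ≠ 0) :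
    ((hat ![v1, v2, v3])ᵀ * !![1 / x1, 0, 0; 0, 1 / x2, 0; 0, 0, 1 / x3] * hat ![v1, v2, v3] *
      !![1 / x1, 0, 0; 0, 1 / x2, 0; 0, 0, 1 / x3]).trace =
      2 * (v1 ^ 2 / (x2 * x3) + v2 ^ 2 / (x1 * x3) + v3 ^ 2 / (x1 * x2)) := by
  simp [Matrix.trace, Matrix.diag, Fin.sum_univ_three, Matrix.mul_apply, hat]
  field_simp
  ring

theorem exists_Y (x : Fin 3 → ℝ) (hx : ∀ i, 0 < x i) :
    ∃ Y : Matrix (Fin 3) (Fin 3) ℝ, Yᵀ * Matrix.diagonal x * Y = 1 ∧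
      Y * Yᵀ = !![1 / x 0, 0, 0; 0, 1 / x 1, 0; 0, 0, 1 / x 2] := by
  refine ⟨Matrix.diagonal (fun i => (Real.sqrt (x i))⁻¹), ?_, ?_⟩
  · rw [Matrix.diagonal_transpose, Matrix.diagonal_mul_diagonal, Matrix.diagonal_mul_diagonal,
      ← Matrix.diagonal_one]
    congr 1
    funext i
    have h3 : Real.sqrt (x i) ≠ 0 := (Real.sqrt_pos.mpr (hx i)).ne'
    have h4 : Real.sqrt (x i) * Real.sqrt (x i) = x i := Real.mul_self_sqrt (hx i).le
    field_simp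
    nlinarith [h4]
  · rw [Matrix.diagonal_transpose, Matrix.diagonal_mul_diagonal]
    have h4 : ∀ i, (Real.sqrt (x i))⁻¹ * (Real.sqrt (x i))⁻¹ = 1 / x i := by
      intro i
      rw [← mul_inv, Real.mul_self_sqrt (hx i).le, one_div]
    ext i j
    fin_cases i <;> fin_cases j <;> simp [h4]

/-- The Einstein equations as real equations. -/
theorem extract {R P : Matrix (Fin 3) (Fin 3) ℝ} {x : Fin 3 → ℝ}
    {g : LinearMap.BilinForm ℝ (Compl 3 m)} (hm : 0 < m)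
    (hR : Rᵀ * R = 1) (hd : R.det = 1) (hs : ∀ X Y, g X Y = g Y X)
    (hg : ∀ u v : Fin 3 → ℝ, ∀ z w : Fin m → Fin 3 → ℝ,
        g (mkR R u z) (mkR R v w) = u ⬝ᵥ (P *ᵥ v) + ∑ i, z i ⬝ᵥ (Matrix.diagonal x *ᵥ w i))
    (hP : P.PosDef) (hx : ∀ i, 0 < x i) (he : IsEinstein g) :
    ∃ lam : ℝ, EqE m lam (x 0) (x 1) (x 2) (P 0 0) (P 1 1) (P 2 2) (P 0 1) (P 0 2) (P 1 2) ∧
      (lam * x 0 = ((m : ℝ) + 1) + 1 / 2 * ((P 0 0 * P 2 2 - P 0 2 ^ 2)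
          / dt (P 0 0) (P 1 1) (P 2 2) (P 0 1) (P 0 2) (P 1 2) * (x 0 ^ 2 / x 2 - x 2)
        + (P 0 0 * P 1 1 - P 0 1 ^ 2) / dt (P 0 0) (P 1 1) (P 2 2) (P 0 1) (P 0 2) (P 1 2)
          * (x 0 ^ 2 / x 1 - x 1) - P 1 1 / x 2 - P 2 2 / x 1)) ∧
      (lam * x 1 = ((m : ℝ) + 1) + 1 / 2 * ((P 1 1 * P 2 2 - P 1 2 ^ 2)
          / dt (P 0 0) (P 1 1) (P 2 2) (P 0 1) (P 0 2) (P 1 2) * (x 1 ^ 2 / x 2 - x 2)
        + (P 0 0 * P 1 1 - P 0 1 ^ 2) / dt (P 0 0) (P 1 1) (P 2 2) (P 0 1) (P 0 2) (P 1 2)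
          * (x 1 ^ 2 / x 0 - x 0) - P 0 0 / x 2 - P 2 2 / x 0)) ∧
      (lam * x 2 = ((m : ℝ) + 1) + 1 / 2 * ((P 1 1 * P 2 2 - P 1 2 ^ 2)
          / dt (P 0 0) (P 1 1) (P 2 2) (P 0 1) (P 0 2) (P 1 2) * (x 2 ^ 2 / x 1 - x 1)
        + (P 0 0 * P 2 2 - P 0 2 ^ 2) / dt (P 0 0) (P 1 1) (P 2 2) (P 0 1) (P 0 2) (P 1 2)
          * (x 2 ^ 2 / x 0 - x 0) - P 0 0 / x 1 - P 1 1 / x 0)) := by
  have hsP : Pᵀ = P := by
    have := hP.1
    rwa [Matrix.IsHermitian, Matrix.conjTranspose_eq_transpose_of_trivial] at this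
  have h10 : P 1 0 = P 0 1 := congrFun (congrFun hsP 0) 1
  have h20 : P 2 0 = P 0 2 := congrFun (congrFun hsP 0) 2
  have h21 : P 2 1 = P 1 2 := congrFun (congrFun hsP 1) 2
  obtain ⟨W, hW⟩ := exists_W P hP
  obtain ⟨Y, hY, hYY⟩ := exists_Y x hx
  obtain ⟨D, hD, h0, hQ⟩ := inv_entries hsP hW
  obtain ⟨c, hU, hZ⟩ := einstein_frame hm hR hd hs hg hW hY he
  have hPe : P = !![P 0 0, P 0 1, P 0 2; P 0 1, P 1 1, P 1 2; P 0 2, P 1 2, P 2 2] := by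
    ext i j
    fin_cases i <;> fin_cases j <;> simp [h10, h20, h21]
  have hxe : Matrix.diagonal x = !![x 0, 0, 0; 0, x 1, 0; 0, 0, x 2] := by
    ext i j
    fin_cases i <;> fin_cases j <;> simp
  rw [hxe] at hU hZ
  rw [hQ, hYY] at hU hZ
  have n0 := (hx 0).ne'
  have n1 := (hx 1).ne'
  have n2 := (hx 2).ne'
  rw [← hD]
  clear hg hW hY he hQ hYY hsP
  generalize P 0 0 = p11 at *
  generalize P 1 1 = p22 at *
  generalize P 2 2 = p33 at *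
  generalize P 0 1 = p12 at *
  generalize P 0 2 = p13 at *
  generalize P 1 2 = p23 at *
  generalize x 0 = x1 at *
  generalize x 1 = x2 at *
  generalize x 2 = x3 at *
  subst hPe
  refine ⟨c, ?_, ?_, ?_, ?_⟩
  · intro u1 u2 u3 v1 v2 v3 e1 e2 e3
    have h := hU ![u1, u2, u3]
    have hv : !![p11, p12, p13; p12, p22, p23; p13, p23, p33] *ᵥ ![u1, u2, u3] =
        ![v1, v2, v3] := by
      rw [e1, e2, e3]
      ext i
      fin_cases i <;> simp [Matrix.mulVec, dotProduct, Fin.sum_univ_three]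
    rw [hv] at h
    have t1 := trace_u1 p11 p22 p33 p12 p13 p23 D u1 u2 u3 h0
    have t2 := trace_a1 x1 x2 x3 u1 u2 u3 n0 n1 n2
    have t3 := trace_u2 p11 p22 p33 p12 p13 p23 D v1 v2 v3 hD h0
    have t4 := trace_a2 x1 x2 x3 v1 v2 v3 n0 n1 n2
    rw [← e1, ← e2, ← e3] at t1
    have d1 : ![u1, u2, u3] ⬝ᵥ ![u1, u2, u3] = u1 ^ 2 + u2 ^ 2 + u3 ^ 2 := by
      simp [dotProduct, Fin.sum_univ_three]
      ring
    have d2 : ![u1, u2, u3] ⬝ᵥ ![v1, v2, v3] = qf p11 p22 p33 p12 p13 p23 u1 u2 u3 := by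
      rw [e1, e2, e3]
      simp [dotProduct, Fin.sum_univ_three, qf]
      ring
    rw [d1, d2] at h
    rw [← hD]
    linear_combination (-D) * h - (1 / 2) * t1 + (1 / 4) * t3 - (D * m / 2) * t2
      + (D * m / 4) * t4
  · have h := hZ ![1, 0, 0]
    simp [Matrix.trace, Matrix.diag, Fin.sum_univ_three, Matrix.mul_apply, hat, dotProduct,
      Matrix.mulVec] at h
    rw [← h]
    ring
  · have h := hZ ![0, 1, 0]
    simp [Matrix.trace, Matrix.diag, Fin.sum_univ_three, Matrix.mul_apply, hat, dotProduct,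
      Matrix.mulVec] at h
    rw [← h]
    ring
  · have h := hZ ![0, 0, 1]
    simp [Matrix.trace, Matrix.diag, Fin.sum_univ_three, Matrix.mul_apply, hat, dotProduct,
      Matrix.mulVec] at h
    rw [← h]
    ring

end Pool.H36.ST
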