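import Pool.Agent.H36.ST.Defs

/-!
The Ricci curvature does not depend on the orthonormal basis.
`sum_indep`: `f_j = ∑_i g(e_i, f_j) e_i` and `e_i = ∑_j g(e_i, f_j) f_j`, so
`∑_i b(e_i, e_i) = ∑_i ∑_j g(e_i, f_j) b(e_i, f_j) = ∑_j b(f_j, f_j)`.
`ricci_indep`: apply it to `b(Y, Y') = g([X,Y], [X,Y'])` and twice to
`b(Y, Y') = g([Z,Y], X) g([Z,Y'], X)`; `bracket` is bilinear (`bracketHom`).
-/

namespace Pool.H36.ST

open Matrix

variable {k m : ℕ}

private theorem os_ext {X Y : Compl k m} (h : ∀ a, ∀ b : Fin k, X.1 (Sum.inl b) a = Y.1 (Sum.inl b) a) :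
    X = Y := by
  apply Subtype.ext
  have hX : ∀ a b, X.1 b a = - X.1 a b := fun a b => by
    have := congrFun (congrFun X.2.1 a) b
    simpa using this
  have hY : ∀ a b, Y.1 b a = - Y.1 a b := fun a b => by
    have := congrFun (congrFun Y.2.1 a) b
    simpa using this
  ext a b
  rcases a with a | a
  · exact h b a
  · rcases b with b | b
    · rw [hX (Sum.inl b) (Sum.inr a), hY (Sum.inl b) (Sum.inr a), h]
    · rw [X.2.2, Y.2.2]

private theorem os_br (X Y : Compl k m) (a : Idx k m) (b : Fin k) :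
    (bracket X Y).1 (Sum.inl b) a = (X.1 * Y.1 - Y.1 * X.1) (Sum.inl b) a := by
  rcases a with a | a <;> rfl

theorem bracket_add_right (X Y Z : Compl k m) :
    bracket X (Y + Z) = bracket X Y + bracket X Z := by
  apply os_ext
  intro a b
  rw [Submodule.coe_add, Matrix.add_apply, os_br, os_br, os_br, Submodule.coe_add, Matrix.mul_add,
    Matrix.add_mul]
  simp only [Matrix.add_apply, Matrix.sub_apply]
  ring

theorem bracket_smul_right (c : ℝ) (X Y : Compl k m) :
    bracket X (c • Y) = c • bracket X Y := by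
  apply os_ext
  intro a b
  rw [Submodule.coe_smul, Matrix.smul_apply, os_br, os_br, Submodule.coe_smul, Matrix.mul_smul,
    Matrix.smul_mul]
  simp only [Matrix.smul_apply, Matrix.sub_apply, smul_eq_mul]
  ring

theorem bracket_add_left (X Y Z : Compl k m) :
    bracket (X + Y) Z = bracket X Z + bracket Y Z := by
  apply os_ext
  intro a b
  rw [Submodule.coe_add, Matrix.add_apply, os_br, os_br, os_br, Submodule.coe_add, Matrix.mul_add,
    Matrix.add_mul]
  simp only [Matrix.add_apply, Matrix.sub_apply]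
  ring

theorem bracket_smul_left (c : ℝ) (X Y : Compl k m) :
    bracket (c • X) Y = c • bracket X Y := by
  apply os_ext
  intro a b
  rw [Submodule.coe_smul, Matrix.smul_apply, os_br, os_br, Submodule.coe_smul, Matrix.mul_smul,
    Matrix.smul_mul]
  simp only [Matrix.smul_apply, Matrix.sub_apply, smul_eq_mul]
  ring

theorem sum_indep {V : Type*} [AddCommGroup V] [Module ℝ V] (g b : LinearMap.BilinForm ℝ V)
    (hs : ∀ X Y, g X Y = g Y X) {ι κ : Type*} [Fintype ι] [Fintype κ] [DecidableEq ι]
    [DecidableEq κ] (e : Module.Basis ι ℝ V) (f : Module.Basis κ ℝ V)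
    (he : ∀ i j, g (e i) (e j) = if i = j then 1 else 0)
    (hf : ∀ i j, g (f i) (f j) = if i = j then 1 else 0) :
    ∑ i, b (e i) (e i) = ∑ j, b (f j) (f j) := by
  have hexp : ∀ v : V, v = ∑ i, g (e i) v • e i := by
    intro v
    have h1 : ∀ i, g (e i) v = e.repr v i := by
      intro i
      conv_lhs => rw [← e.sum_repr v]
      rw [map_sum]
      simp only [map_smul, he, smul_eq_mul, mul_ite, mul_one, mul_zero]
      simp
    simp only [h1]
    exact (e.sum_repr v).symm
  have hexpf : ∀ v : V, v = ∑ j, g (f j) v • f j := by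
    intro v
    have h1 : ∀ i, g (f i) v = f.repr v i := by
      intro i
      conv_lhs => rw [← f.sum_repr v]
      rw [map_sum]
      simp only [map_smul, hf, smul_eq_mul, mul_ite, mul_one, mul_zero]
      simp
    simp only [h1]
    exact (f.sum_repr v).symm
  have h1 : ∀ i, b (e i) (e i) = ∑ j, g (e i) (f j) * b (e i) (f j) := by
    intro i
    conv_lhs => rw [congrArg (b (e i)) (hexpf (e i))]
    rw [map_sum]
    apply Finset.sum_congr rfl
    intro j _
    rw [map_smul, smul_eq_mul, hs (f j) (e i)]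
  have h2 : ∀ j, b (f j) (f j) = ∑ i, g (e i) (f j) * b (e i) (f j) := by
    intro j
    conv_lhs => rw [congrArg b (hexp (f j))]
    rw [map_sum, LinearMap.sum_apply]
    apply Finset.sum_congr rfl
    intro i _
    rw [map_smul, LinearMap.smul_apply, smul_eq_mul]
  simp only [h1, h2]
  exact Finset.sum_comm

theorem ricci_indep (g : LinearMap.BilinForm ℝ (Compl k m)) (hs : ∀ X Y, g X Y = g Y X)
    {ι κ : Type} [Fintype ι] [Fintype κ] [DecidableEq ι] [DecidableEq κ]
    (e : Module.Basis ι ℝ (Compl k m)) (f : Module.Basis κ ℝ (Compl k m))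
    (he : ∀ i j, g (e i) (e j) = if i = j then 1 else 0)
    (hf : ∀ i j, g (f i) (f j) = if i = j then 1 else 0) (X : Compl k m) :
    ricci g e X = ricci g f X := by
  have hbr : ∀ X : Compl k m, ∃ B : Compl k m →ₗ[ℝ] Compl k m, ∀ Y, B Y = bracket X Y := fun X =>
    ⟨{ toFun := bracket X
       map_add' := bracket_add_right X
       map_smul' := fun c Y => bracket_smul_right c X Y }, fun _ => rfl⟩
  have hbl : ∀ Y : Compl k m, ∃ B : Compl k m →ₗ[ℝ] Compl k m, ∀ X, B X = bracket X Y := fun Y =>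
    ⟨{ toFun := fun X => bracket X Y
       map_add' := fun X X' => bracket_add_left X X' Y
       map_smul' := fun c X => bracket_smul_left c X Y }, fun _ => rfl⟩
  unfold ricci
  have h1 : ∑ i, g (bracket X (e i)) (bracket X (e i)) =
      ∑ j, g (bracket X (f j)) (bracket X (f j)) := by
    obtain ⟨B, hB⟩ := hbr X
    have := sum_indep g (g.comp B B) hs e f he hf
    simpa only [LinearMap.BilinForm.comp_apply, hB] using this
  have hsq : ∀ l : Compl k m →ₗ[ℝ] ℝ, ∑ i, (l (e i)) ^ 2 = ∑ j, (l (f j)) ^ 2 := by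
    intro l
    have := sum_indep g (LinearMap.BilinForm.linMulLin l l) hs e f he hf
    simpa only [LinearMap.BilinForm.linMulLin_apply, ← sq] using this
  have h2 : ∑ i, ∑ j, (g (bracket (e i) (e j)) X) ^ 2 =
      ∑ i, ∑ j, (g (bracket (f i) (f j)) X) ^ 2 := by
    have h3 : ∀ Z, ∑ j, (g (bracket Z (e j)) X) ^ 2 = ∑ j, (g (bracket Z (f j)) X) ^ 2 := by
      intro Z
      obtain ⟨B, hB⟩ := hbr Z
      have := hsq ((g X).comp B)
      simpa only [LinearMap.comp_apply, hB, hs X] using this
    have h4 : ∀ Z, ∑ i, (g (bracket (e i) Z) X) ^ 2 = ∑ i, (g (bracket (f i) Z) X) ^ 2 := by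
      intro Z
      obtain ⟨B, hB⟩ := hbl Z
      have := hsq ((g X).comp B)
      simpa only [LinearMap.comp_apply, hB, hs X] using this
    rw [Finset.sum_congr rfl fun i _ => h3 (e i), Finset.sum_comm,
      Finset.sum_congr rfl fun j _ => h4 (f j), Finset.sum_comm]
  rw [h1, h2]

end Pool.H36.ST
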