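import Pool.Agent.H36.ST.Coord
import Pool.Agent.H36.ST.OrthoSum

/-!
Rotated coordinates: `mkR R u z = mk (R u) (R z_i)` for `R ∈ SO(3)`.
-/

namespace Pool.H36.ST

open Matrix

variable {m : ℕ}

/-- Rotated coordinates on `𝔪`. -/
def mkR (R : Matrix (Fin 3) (Fin 3) ℝ) (u : Fin 3 → ℝ) (z : Fin m → Fin 3 → ℝ) : Compl 3 m :=
  mk (R *ᵥ u) (fun i => R *ᵥ z i)

theorem cross_adj (R : Matrix (Fin 3) (Fin 3) ℝ) (u v : Fin 3 → ℝ) :
    crossProduct (R *ᵥ u) (R *ᵥ v) = (R.adjugate)ᵀ *ᵥ crossProduct u v := by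
  rw [Matrix.adjugate_fin_three]
  ext i
  fin_cases i <;>
    simp [cross_apply, Matrix.mulVec, dotProduct, Fin.sum_univ_three] <;> ring

theorem cross_rot {R : Matrix (Fin 3) (Fin 3) ℝ} (hR : Rᵀ * R = 1) (hd : R.det = 1)
    (u v : Fin 3 → ℝ) : crossProduct (R *ᵥ u) (R *ᵥ v) = R *ᵥ crossProduct u v := by
  have h1 : R.adjugate = Rᵀ := by
    have h2 : R * Rᵀ = 1 := mul_eq_one_comm.mp hR
    calc R.adjugate = R.adjugate * (R * Rᵀ) := by rw [h2, Matrix.mul_one]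
      _ = (R.adjugate * R) * Rᵀ := by rw [Matrix.mul_assoc]
      _ = Rᵀ := by rw [Matrix.adjugate_mul, hd, one_smul, Matrix.one_mul]
  rw [cross_adj, h1, Matrix.transpose_transpose]

theorem bracket_mkR {R : Matrix (Fin 3) (Fin 3) ℝ} (hR : Rᵀ * R = 1) (hd : R.det = 1)
    (u v : Fin 3 → ℝ) (z w : Fin m → Fin 3 → ℝ) :
    bracket (mkR R u z) (mkR R v w) =
      mkR R (crossProduct u v + ∑ i, crossProduct (z i) (w i))
        (fun i => crossProduct u (w i) - crossProduct v (z i)) := by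
  rw [mkR, mkR, bracket_mk, mkR]
  congr 1
  · rw [cross_rot hR hd, Matrix.mulVec_add, Matrix.mulVec_sum]
    congr 1
    exact Finset.sum_congr rfl (fun i _ => cross_rot hR hd _ _)
  · funext i
    rw [cross_rot hR hd, cross_rot hR hd, Matrix.mulVec_sub]

theorem dot_rot {R : Matrix (Fin 3) (Fin 3) ℝ} (hR : Rᵀ * R = 1) (u v : Fin 3 → ℝ) :
    (R *ᵥ u) ⬝ᵥ (R *ᵥ v) = u ⬝ᵥ v := by
  rw [Matrix.dotProduct_mulVec, Matrix.vecMul_mulVec, ← Matrix.dotProduct_mulVec, hR,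
    Matrix.one_mulVec]

theorem killing_mkR {R : Matrix (Fin 3) (Fin 3) ℝ} (hR : Rᵀ * R = 1)
    (u : Fin 3 → ℝ) (z : Fin m → Fin 3 → ℝ) :
    killing (mkR R u z) = -2 * ((m : ℝ) + 1) * (u ⬝ᵥ u + ∑ i, z i ⬝ᵥ z i) := by
  rw [mkR, killing_mk, dot_rot hR]
  congr 2
  exact Finset.sum_congr rfl (fun i _ => dot_rot hR _ _)

theorem exists_mkR {R : Matrix (Fin 3) (Fin 3) ℝ} (hR : Rᵀ * R = 1) (X : Compl 3 m) :
    ∃ u z, X = mkR R u z := by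
  obtain ⟨u, z, h⟩ := exists_mk X
  have h2 : R * Rᵀ = 1 := mul_eq_one_comm.mp hR
  refine ⟨Rᵀ *ᵥ u, fun i => Rᵀ *ᵥ z i, ?_⟩
  rw [h, mkR]
  simp [Matrix.mulVec_mulVec, h2]

theorem mkR_add (R : Matrix (Fin 3) (Fin 3) ℝ) (u v : Fin 3 → ℝ) (z w : Fin m → Fin 3 → ℝ) :
    mkR R (u + v) (z + w) = mkR R u z + mkR R v w := by
  rw [mkR, mkR, mkR, ← mk_add, Matrix.mulVec_add]
  congr 1
  funext i
  simp [Matrix.mulVec_add]

theorem mkR_smul (R : Matrix (Fin 3) (Fin 3) ℝ) (c : ℝ) (u : Fin 3 → ℝ) (z : Fin m → Fin 3 → ℝ) :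
    mkR R (c • u) (c • z) = c • mkR R u z := by
  rw [mkR, mkR, ← mk_smul, Matrix.mulVec_smul]
  congr 1
  funext i
  simp [Matrix.mulVec_smul]

end Pool.H36.ST
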