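import Mathlib

/-!
Simultaneous gauge for two real symmetric 3x3 matrices `A`, `P`: a rotation `R` with `Rᵀ A R`
diagonal with decreasing entries, and `(Rᵀ P R)_ij = 0` whenever `i ≠ j` and the diagonal entries
`x_i`, `x_j` of `Rᵀ A R` agree.

Suggested proof (compactness): the set of `R` with `Rᵀ R = 1` (no condition on the determinant;
if `det R = -1` replace `R` by `-R` at the end) is compact and nonempty. Let
`f_S(R) = 3 (Rᵀ S R)_00 + 2 (Rᵀ S R)_11 + (Rᵀ S R)_22`. Let `K1` be the set of maximisers of `f_A`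
and choose `R` in `K1` maximising `f_P`. For `i < j` and `c² + s² = 1` let `G` be the rotation in
the plane `(i, j)`; `f_S(R G) - f_S(R)` is `(w_i - w_j)` times
`(s² (S'_jj - S'_ii) + 2 c s S'_ij)` (up to the sign of `s`), where `S' = Rᵀ S R` and
`w = (3, 2, 1)`. It is `≤ 0` for all `c, s` when `S = A`; hence `A'_ij = 0` and `A'_jj ≤ A'_ii`
(choose `s` small, or `(c, s) = (0, 1)`). If `A'_ii = A'_jj` then `R G` is again in `K1`, so the
same inequality holds for `S = P`, and `P'_ij = 0`.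
Any other proof is fine (for instance by cases on the multiplicities of the eigenvalues of `A`).
-/

namespace Pool.H36.ST

open Matrix

/-- the weighted sum of the diagonal entries -/
private noncomputable def gf (S R : Matrix (Fin 3) (Fin 3) ℝ) : ℝ :=
  3 * (Rᵀ * S * R) 0 0 + 2 * (Rᵀ * S * R) 1 1 + (Rᵀ * S * R) 2 2

private def g01 (c s : ℝ) : Matrix (Fin 3) (Fin 3) ℝ := !![c, s, 0; -s, c, 0; 0, 0, 1]
private def g02 (c s : ℝ) : Matrix (Fin 3) (Fin 3) ℝ := !![c, 0, s; 0, 1, 0; -s, 0, c]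
private def g12 (c s : ℝ) : Matrix (Fin 3) (Fin 3) ℝ := !![1, 0, 0; 0, c, s; 0, -s, c]

private theorem gconj (S R G : Matrix (Fin 3) (Fin 3) ℝ) :
    (R * G)ᵀ * S * (R * G) = Gᵀ * (Rᵀ * S * R) * G := by
  rw [Matrix.transpose_mul]
  simp only [Matrix.mul_assoc]

private theorem gorth (R G : Matrix (Fin 3) (Fin 3) ℝ) (hR : Rᵀ * R = 1) (hG : Gᵀ * G = 1) :
    (R * G)ᵀ * (R * G) = 1 := by
  rw [Matrix.transpose_mul, Matrix.mul_assoc, ← Matrix.mul_assoc Rᵀ, hR, Matrix.one_mul, hG]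

private theorem g01_orth {c s : ℝ} (h : c ^ 2 + s ^ 2 = 1) : (g01 c s)ᵀ * g01 c s = 1 := by
  ext i j
  fin_cases i <;> fin_cases j <;>
    simp [g01, Matrix.mul_apply, Fin.sum_univ_three] <;> nlinarith

private theorem g02_orth {c s : ℝ} (h : c ^ 2 + s ^ 2 = 1) : (g02 c s)ᵀ * g02 c s = 1 := by
  ext i j
  fin_cases i <;> fin_cases j <;>
    simp [g02, Matrix.mul_apply, Fin.sum_univ_three] <;> nlinarith

private theorem g12_orth {c s : ℝ} (h : c ^ 2 + s ^ 2 = 1) : (g12 c s)ᵀ * g12 c s = 1 := by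
  ext i j
  fin_cases i <;> fin_cases j <;>
    simp [g12, Matrix.mul_apply, Fin.sum_univ_three] <;> nlinarith

private theorem gsym {S : Matrix (Fin 3) (Fin 3) ℝ} (hS : Sᵀ = S) (R : Matrix (Fin 3) (Fin 3) ℝ)
    (i j : Fin 3) : (Rᵀ * S * R) i j = (Rᵀ * S * R) j i := by
  have h : (Rᵀ * S * R)ᵀ = Rᵀ * S * R := by
    rw [Matrix.transpose_mul, Matrix.transpose_mul, Matrix.transpose_transpose, hS,
      Matrix.mul_assoc]
  calc (Rᵀ * S * R) i j = (Rᵀ * S * R)ᵀ j i := rfl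
    _ = (Rᵀ * S * R) j i := by rw [h]

private theorem gf01 {S : Matrix (Fin 3) (Fin 3) ℝ} (hS : Sᵀ = S) (R : Matrix (Fin 3) (Fin 3) ℝ)
    {c s : ℝ} (h : c ^ 2 + s ^ 2 = 1) : gf S (R * g01 c s) = gf S R +
      (s ^ 2 * ((Rᵀ * S * R) 1 1 - (Rᵀ * S * R) 0 0) - 2 * c * s * (Rᵀ * S * R) 0 1) := by
  unfold gf
  rw [gconj]
  have h1 := gsym hS R 1 0
  generalize Rᵀ * S * R = T at *
  simp [g01, Matrix.mul_apply, Fin.sum_univ_three]
  rw [h1]
  have h2 : c ^ 2 = 1 - s ^ 2 := by linarith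
  linear_combination (3 * T 0 0 + 2 * T 1 1) * h2

private theorem gf02 {S : Matrix (Fin 3) (Fin 3) ℝ} (hS : Sᵀ = S) (R : Matrix (Fin 3) (Fin 3) ℝ)
    {c s : ℝ} (h : c ^ 2 + s ^ 2 = 1) : gf S (R * g02 c s) = gf S R +
      2 * (s ^ 2 * ((Rᵀ * S * R) 2 2 - (Rᵀ * S * R) 0 0) - 2 * c * s * (Rᵀ * S * R) 0 2) := by
  unfold gf
  rw [gconj]
  have h1 := gsym hS R 2 0
  generalize Rᵀ * S * R = T at *
  simp [g02, Matrix.mul_apply, Fin.sum_univ_three]
  rw [h1]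
  have h2 : c ^ 2 = 1 - s ^ 2 := by linarith
  linear_combination (3 * T 0 0 + T 2 2) * h2

private theorem gf12 {S : Matrix (Fin 3) (Fin 3) ℝ} (hS : Sᵀ = S) (R : Matrix (Fin 3) (Fin 3) ℝ)
    {c s : ℝ} (h : c ^ 2 + s ^ 2 = 1) : gf S (R * g12 c s) = gf S R +
      (s ^ 2 * ((Rᵀ * S * R) 2 2 - (Rᵀ * S * R) 1 1) - 2 * c * s * (Rᵀ * S * R) 1 2) := by
  unfold gf
  rw [gconj]
  have h1 := gsym hS R 2 1
  generalize Rᵀ * S * R = T at *
  simp [g12, Matrix.mul_apply, Fin.sum_univ_three]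
  rw [h1]
  have h2 : c ^ 2 = 1 - s ^ 2 := by linarith
  linear_combination (2 * T 1 1 + T 2 2) * h2

private theorem grot {D q : ℝ} (h : ∀ c s : ℝ, c ^ 2 + s ^ 2 = 1 →
    s ^ 2 * D - 2 * c * s * q ≤ 0) : D ≤ 0 ∧ q = 0 := by
  have h1 : D ≤ 0 := by
    have := h 0 1 (by norm_num)
    linarith
  refine ⟨h1, ?_⟩
  have h2 : ∀ t : ℝ, t ^ 2 * D - 2 * t * q ≤ 0 := by
    intro t
    have hp : 0 < 1 + t ^ 2 := by positivity
    have hs : 0 < √(1 + t ^ 2) := Real.sqrt_pos.2 hp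
    have hsq : √(1 + t ^ 2) ^ 2 = 1 + t ^ 2 := Real.sq_sqrt hp.le
    have h3 := h (1 / √(1 + t ^ 2)) (t / √(1 + t ^ 2)) (by
      rw [div_pow, div_pow, hsq]
      field_simp)
    have h4 : (t / √(1 + t ^ 2)) ^ 2 * D - 2 * (1 / √(1 + t ^ 2)) * (t / √(1 + t ^ 2)) * q =
        (t ^ 2 * D - 2 * t * q) / (1 + t ^ 2) := by
      rw [div_pow, hsq]
      have h5 : 2 * (1 / √(1 + t ^ 2)) * (t / √(1 + t ^ 2)) * q =
          2 * t * q / (√(1 + t ^ 2) ^ 2) := by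
        field_simp
      rw [h5, hsq]
      ring
    rw [h4] at h3
    by_contra hcon
    have h6 : 0 < (t ^ 2 * D - 2 * t * q) / (1 + t ^ 2) := div_pos (not_le.1 hcon) hp
    linarith
  by_contra hq
  have hD : 0 < 1 - D := by linarith
  have h3 := h2 (-(q / (1 - D)))
  have h4 : (-(q / (1 - D))) ^ 2 * D - 2 * (-(q / (1 - D))) * q =
      q ^ 2 * (2 - D) / (1 - D) ^ 2 := by
    field_simp
    ring
  rw [h4] at h3
  have h5 : 0 < q ^ 2 * (2 - D) / (1 - D) ^ 2 := by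
    have : 0 < q ^ 2 := by positivity
    have : 0 < 2 - D := by linarith
    positivity
  linarith

private theorem gf_cont (S : Matrix (Fin 3) (Fin 3) ℝ) : Continuous (gf S) := by
  unfold gf
  fun_prop

private theorem gcomp : IsCompact {R : Matrix (Fin 3) (Fin 3) ℝ | Rᵀ * R = 1} := by
  have h1 : IsClosed {R : Matrix (Fin 3) (Fin 3) ℝ | Rᵀ * R = 1} := by
    apply isClosed_eq
    · fun_prop
    · exact continuous_const
  have h2 : IsCompact (Set.pi Set.univ fun _ : Fin 3 => Set.pi Set.univ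
      fun _ : Fin 3 => Set.Icc (-1 : ℝ) 1) :=
    isCompact_univ_pi fun _ => isCompact_univ_pi fun _ => isCompact_Icc
  refine IsCompact.of_isClosed_subset (X := Matrix (Fin 3) (Fin 3) ℝ) h2 h1 ?_
  intro (R : Matrix (Fin 3) (Fin 3) ℝ) hR i _ j _
  have h3 : (Rᵀ * R) j j = 1 := by
    have h4 : Rᵀ * R = 1 := hR
    rw [h4, Matrix.one_apply_eq]
  rw [Matrix.mul_apply] at h3
  have h5 : R i j ^ 2 ≤ 1 := by
    rw [← h3]
    have h6 : R i j ^ 2 = Rᵀ j i * R i j := by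
      rw [Matrix.transpose_apply]; ring
    rw [h6]
    refine Finset.single_le_sum (f := fun k => Rᵀ j k * R k j) (fun k _ => ?_) (Finset.mem_univ i)
    show 0 ≤ Rᵀ j k * R k j
    rw [Matrix.transpose_apply]
    exact mul_self_nonneg _
  rw [Set.mem_Icc]
  exact abs_le.1 ((sq_le_one_iff_abs_le_one _).1 h5)

/-- maximality gives zero entries -/
private theorem gmax {S : Matrix (Fin 3) (Fin 3) ℝ} (hS : Sᵀ = S) {R : Matrix (Fin 3) (Fin 3) ℝ} :
    ((∀ c s : ℝ, c ^ 2 + s ^ 2 = 1 → gf S (R * g01 c s) ≤ gf S R) →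
      (Rᵀ * S * R) 1 1 - (Rᵀ * S * R) 0 0 ≤ 0 ∧ (Rᵀ * S * R) 0 1 = 0) ∧
    ((∀ c s : ℝ, c ^ 2 + s ^ 2 = 1 → gf S (R * g02 c s) ≤ gf S R) →
      (Rᵀ * S * R) 2 2 - (Rᵀ * S * R) 0 0 ≤ 0 ∧ (Rᵀ * S * R) 0 2 = 0) ∧
    ((∀ c s : ℝ, c ^ 2 + s ^ 2 = 1 → gf S (R * g12 c s) ≤ gf S R) →
      (Rᵀ * S * R) 2 2 - (Rᵀ * S * R) 1 1 ≤ 0 ∧ (Rᵀ * S * R) 1 2 = 0) := by
  refine ⟨fun h => grot fun c s hcs => ?_, fun h => grot fun c s hcs => ?_,
    fun h => grot fun c s hcs => ?_⟩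
  · have h1 := h c s hcs
    rw [gf01 hS R hcs] at h1
    linarith
  · have h1 := h c s hcs
    rw [gf02 hS R hcs] at h1
    linarith
  · have h1 := h c s hcs
    rw [gf12 hS R hcs] at h1
    linarith

theorem exists_gauge (A P : Matrix (Fin 3) (Fin 3) ℝ) (hA : Aᵀ = A) (hP : Pᵀ = P) :
    ∃ (R : Matrix (Fin 3) (Fin 3) ℝ) (x : Fin 3 → ℝ), Rᵀ * R = 1 ∧ R.det = 1 ∧
      Rᵀ * A * R = Matrix.diagonal x ∧ x 1 ≤ x 0 ∧ x 2 ≤ x 1 ∧
      ∀ i j, i ≠ j → x i = x j → (Rᵀ * P * R) i j = 0 := by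
  obtain ⟨R1, hR1, hmax1⟩ := gcomp.exists_isMaxOn ⟨1, by simp⟩ (gf_cont A).continuousOn
  have hK : IsCompact ({R : Matrix (Fin 3) (Fin 3) ℝ | Rᵀ * R = 1} ∩
      {R | gf A R = gf A R1}) :=
    gcomp.inter_right (isClosed_eq (gf_cont A) continuous_const)
  obtain ⟨R, ⟨hR, hRA⟩, hmax2⟩ := hK.exists_isMaxOn ⟨R1, hR1, rfl⟩ (gf_cont P).continuousOn
  have hR' : Rᵀ * R = 1 := hR
  have hRA' : gf A R = gf A R1 := hRA
  have hmA : ∀ G : Matrix (Fin 3) (Fin 3) ℝ, Gᵀ * G = 1 → gf A (R * G) ≤ gf A R := by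
    intro G hG
    rw [hRA']
    exact hmax1 (gorth R G hR' hG)
  obtain ⟨a01, a02, a12⟩ := gmax hA (R := R)
  obtain ⟨b1, b2⟩ := a01 fun c s h => hmA _ (g01_orth h)
  obtain ⟨b3, b4⟩ := a02 fun c s h => hmA _ (g02_orth h)
  obtain ⟨b5, b6⟩ := a12 fun c s h => hmA _ (g12_orth h)
  have hmP : ∀ G : Matrix (Fin 3) (Fin 3) ℝ, Gᵀ * G = 1 → gf A (R * G) = gf A R →
      gf P (R * G) ≤ gf P R := by
    intro G hG h
    exact hmax2 ⟨gorth R G hR' hG, h.trans hRA'⟩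
  obtain ⟨p01, p02, p12⟩ := gmax hP (R := R)
  have q01 : (Rᵀ * A * R) 0 0 = (Rᵀ * A * R) 1 1 → (Rᵀ * P * R) 0 1 = 0 := by
    intro h
    refine (p01 fun c s hcs => hmP _ (g01_orth hcs) ?_).2
    rw [gf01 hA R hcs, b2, h]
    ring
  have q02 : (Rᵀ * A * R) 0 0 = (Rᵀ * A * R) 2 2 → (Rᵀ * P * R) 0 2 = 0 := by
    intro h
    refine (p02 fun c s hcs => hmP _ (g02_orth hcs) ?_).2
    rw [gf02 hA R hcs, b4, h]
    ring
  have q12 : (Rᵀ * A * R) 1 1 = (Rᵀ * A * R) 2 2 → (Rᵀ * P * R) 1 2 = 0 := by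
    intro h
    refine (p12 fun c s hcs => hmP _ (g12_orth hcs) ?_).2
    rw [gf12 hA R hcs, b6, h]
    ring
  -- the sign of the determinant
  obtain ⟨σ, hσ, hdet⟩ : ∃ σ : ℝ, σ * σ = 1 ∧ (σ • R).det = 1 := by
    have h1 : R.det * R.det = 1 := by
      have h2 := congrArg Matrix.det hR'
      rwa [Matrix.det_mul, Matrix.det_transpose, Matrix.det_one] at h2
    refine ⟨R.det, h1, ?_⟩
    rw [Matrix.det_smul, Fintype.card_fin]
    have : R.det ^ 3 * R.det = (R.det * R.det) * (R.det * R.det) := by ring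
    rw [this, h1, one_mul]
  have hcj : ∀ S : Matrix (Fin 3) (Fin 3) ℝ, (σ • R)ᵀ * S * (σ • R) = Rᵀ * S * R := by
    intro S
    rw [Matrix.transpose_smul, Matrix.smul_mul, Matrix.smul_mul, Matrix.mul_smul, smul_smul, hσ,
      one_smul]
  refine ⟨σ • R, fun i => (Rᵀ * A * R) i i, ?_, hdet, ?_, by linarith, by linarith, ?_⟩
  · have h1 := hcj 1
    rw [Matrix.mul_one, Matrix.mul_one, hR'] at h1
    exact h1
  · rw [hcj]
    ext i j
    by_cases hij : i = j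
    · subst hij
      rw [Matrix.diagonal_apply_eq]
    · rw [Matrix.diagonal_apply_ne _ hij]
      fin_cases i <;> fin_cases j
      · exact absurd rfl hij
      · exact b2
      · exact b4
      · exact (gsym hA R 1 0).trans b2
      · exact absurd rfl hij
      · exact b6
      · exact (gsym hA R 2 0).trans b4
      · exact (gsym hA R 2 1).trans b6
      · exact absurd rfl hij
  · intro i j hij h
    rw [hcj]
    fin_cases i <;> fin_cases j
    · exact absurd rfl hij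
    · exact q01 h
    · exact q02 h
    · exact (gsym hP R 1 0).trans (q01 h.symm)
    · exact absurd rfl hij
    · exact q12 h
    · exact (gsym hP R 2 0).trans (q02 h.symm)
    · exact (gsym hP R 2 1).trans (q12 h.symm)
    · exact absurd rfl hij

end Pool.H36.ST
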