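import Pool.Agent.H36.ST.Sys

/-!
From the diagonal Einstein equations with constant `lam` to the normalised system `Sys`.

Positivity of `lam`. Let `mu` be the largest of `x1, p1, p2, p3` (`x1` is the largest `x`).
If `mu = x1`: `X1` reads
`lam x1 = (m - 1) + 1/2 ((x1² - (x3-p2)²)/(x3 p2) + (x1² - (x2-p3)²)/(x2 p3)) > 0`.
If `mu = p1` (same for `p2, p3`): `E1` reads
`lam p1 = 1/2 (p1² - (p2-p3)²)/(p2 p3) + (m/2)(p1² - (x2-x3)²)/(x2 x3) > 0`.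

Normalisation: with `a = lam x1`, ..., `q_i = lam p_i`, `g_i = (q_i² - (q_j-q_k)²)/(2 q1q2q3)`,
`s_i = d_i/q_i`: `E_i` times `2 x_j x_k p_i` is `P_i`, and `X_i` with `P_i` inserted
(`p_c/x_b = (2/m)(1-g_c) x_a + (x_a-x_b)²/(x_b p_c)` for `lam = 1`) is `Xa, Xb, Xc`.
-/

namespace Pool.H36.ST

private theorem pos_E {m lam x y p q r : ℝ} (hm : 0 < m) (hx : 0 < x) (hy : 0 < y) (hp : 0 < p)
    (hq : 0 < q) (hr : 0 < r) (h1 : (x - y) ^ 2 < p ^ 2) (h2 : (q - r) ^ 2 ≤ p ^ 2)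
    (E : lam * p = (m + 1) - m / 2 * (x / y + y / x) + m / 2 * (p ^ 2 / (x * y))
      + (p ^ 2 - q ^ 2 - r ^ 2) / (2 * (q * r))) : 0 < lam := by
  have e1 : lam * p = m / 2 * ((p ^ 2 - (x - y) ^ 2) / (x * y)) +
      (p ^ 2 - (q - r) ^ 2) / (2 * (q * r)) := by
    rw [E]
    field_simp
    ring
  have e2 : 0 < (p ^ 2 - (x - y) ^ 2) / (x * y) := div_pos (by linarith) (by positivity)
  have e3 : 0 ≤ (p ^ 2 - (q - r) ^ 2) / (2 * (q * r)) := div_nonneg (by linarith) (by positivity)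
  have e4 : 0 < lam * p := by
    rw [e1]
    have := mul_pos (by linarith : 0 < m / 2) e2
    linarith
  exact pos_of_mul_pos_left e4 hp.le

private theorem pos_X {m lam x y z p q : ℝ} (hm : 1 < m) (hx : 0 < x) (hy : 0 < y) (hz : 0 < z)
    (hp : 0 < p) (hq : 0 < q) (h1 : (z - p) ^ 2 ≤ x ^ 2) (h2 : (y - q) ^ 2 ≤ x ^ 2)
    (X : lam * x = (m + 1) + 1 / 2 * ((x ^ 2 / z - z) / p + (x ^ 2 / y - y) / q
      - p / z - q / y)) : 0 < lam := by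
  have e1 : lam * x = (m - 1) + 1 / 2 * ((x ^ 2 - (z - p) ^ 2) / (z * p) +
      (x ^ 2 - (y - q) ^ 2) / (y * q)) := by
    rw [X]
    field_simp
    ring
  have e2 : 0 ≤ (x ^ 2 - (z - p) ^ 2) / (z * p) := div_nonneg (by linarith) (by positivity)
  have e3 : 0 ≤ (x ^ 2 - (y - q) ^ 2) / (y * q) := div_nonneg (by linarith) (by positivity)
  have e4 : 0 < lam * x := by
    rw [e1]
    linarith
  exact pos_of_mul_pos_left e4 hx.le

private theorem sq_aux {x y p : ℝ} (hx : 0 < x) (hy : 0 < y) (hxp : x ≤ p) (hyp : y ≤ p) :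
    (x - y) ^ 2 < p ^ 2 := by
  rw [sq_lt_sq, abs_of_pos (hx.trans_le hxp), abs_lt]
  constructor <;> linarith

private theorem lam_pos {m lam x1 x2 x3 p1 p2 p3 : ℝ} (hm : 3 ≤ m) (h12 : x2 ≤ x1) (h23 : x3 ≤ x2)
    (hx : 0 < x3) (hp1 : 0 < p1) (hp2 : 0 < p2) (hp3 : 0 < p3)
    (E1 : lam * p1 = (m + 1) - m / 2 * (x2 / x3 + x3 / x2) + m / 2 * (p1 ^ 2 / (x2 * x3))
      + (p1 ^ 2 - p2 ^ 2 - p3 ^ 2) / (2 * (p2 * p3)))
    (E2 : lam * p2 = (m + 1) - m / 2 * (x1 / x3 + x3 / x1) + m / 2 * (p2 ^ 2 / (x1 * x3))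
      + (p2 ^ 2 - p1 ^ 2 - p3 ^ 2) / (2 * (p1 * p3)))
    (E3 : lam * p3 = (m + 1) - m / 2 * (x1 / x2 + x2 / x1) + m / 2 * (p3 ^ 2 / (x1 * x2))
      + (p3 ^ 2 - p1 ^ 2 - p2 ^ 2) / (2 * (p1 * p2)))
    (X1 : lam * x1 = (m + 1) + 1 / 2 * ((x1 ^ 2 / x3 - x3) / p2 + (x1 ^ 2 / x2 - x2) / p3
      - p2 / x3 - p3 / x2)) : 0 < lam := by
  have hx2 : 0 < x2 := by linarith
  have hx1 : 0 < x1 := by linarith
  have hm0 : 0 < m := by linarith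
  by_cases c1 : p2 ≤ x1 ∧ p3 ≤ x1
  · exact pos_X (by linarith) hx1 hx2 hx hp2 hp3 (sq_aux hx hp2 (by linarith) c1.1).le
      (sq_aux hx2 hp3 h12 c1.2).le X1
  rcases le_total p1 p2 with h | h
  · rcases le_total p2 p3 with h' | h'
    · have h5 : x1 ≤ p3 := by
        by_contra hcon
        exact c1 ⟨by linarith, by linarith⟩
      exact pos_E hm0 hx1 hx2 hp3 hp1 hp2 (sq_aux hx1 hx2 h5 (by linarith))
        (sq_aux hp1 hp2 (by linarith) h').le E3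
    · have h5 : x1 ≤ p2 := by
        by_contra hcon
        exact c1 ⟨by linarith, by linarith⟩
      exact pos_E hm0 hx1 hx hp2 hp1 hp3 (sq_aux hx1 hx h5 (by linarith))
        (sq_aux hp1 hp3 h h').le E2
  · rcases le_total p1 p3 with h' | h'
    · have h5 : x1 ≤ p3 := by
        by_contra hcon
        exact c1 ⟨by linarith, by linarith⟩
      exact pos_E hm0 hx1 hx2 hp3 hp1 hp2 (sq_aux hx1 hx2 h5 (by linarith))
        (sq_aux hp1 hp2 h' (by linarith)).le E3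
    · have h5 : x1 ≤ p1 := by
        by_contra hcon
        exact c1 ⟨by linarith, by linarith⟩
      exact pos_E hm0 hx2 hx hp1 hp2 hp3 (sq_aux hx2 hx (by linarith) (by linarith))
        (sq_aux hp2 hp3 h h').le E1

private theorem P_aux {m x y q r t g s : ℝ} (hx : 0 < x) (hy : 0 < y) (hq : 0 < q) (hr : 0 < r)
    (ht : 0 < t) (hs : s * q = x - y) (hg : g * (2 * (q * r * t)) = q ^ 2 - (r - t) ^ 2)
    (E : q = (m + 1) - m / 2 * (x / y + y / x) + m / 2 * (q ^ 2 / (x * y))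
      + (q ^ 2 - r ^ 2 - t ^ 2) / (2 * (r * t))) :
    m * q * (1 - s ^ 2) = 2 * (x * y) * (1 - g) := by
  refine mul_right_cancel₀ hq.ne' ?_
  have e1 : m * q * (1 - s ^ 2) * q = m * (q ^ 2 - (x - y) ^ 2) := by rw [← hs]; ring
  have e2 : 2 * (x * y) * (1 - g) * q = 2 * (x * y) * q - (x * y) * ((q ^ 2 - (r - t) ^ 2) / (r * t)) := by
    rw [← hg]
    field_simp
  rw [e1, e2]
  have e3 : 2 * (x * y) * q = 2 * (x * y) * ((m + 1) - m / 2 * (x / y + y / x) +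
      m / 2 * (q ^ 2 / (x * y)) + (q ^ 2 - r ^ 2 - t ^ 2) / (2 * (r * t))) := by rw [← E]
  rw [e3]
  field_simp
  ring

private theorem T_aux {m x y q g s : ℝ} (hm : 0 < m) (hx : 0 < x) (hy : 0 < y) (hq : 0 < q)
    (hs : s * q = x - y) (hP : m * q * (1 - s ^ 2) = 2 * (x * y) * (1 - g)) :
    (x ^ 2 / y - y) / q - q / y = 2 * s - 2 / m * x * (1 - g) := by
  have e1 : 2 / m * x * (1 - g) = q * (1 - s ^ 2) / y := by
    rw [eq_div_iff hy.ne']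
    have : 2 / m * x * (1 - g) * y = (2 * (x * y) * (1 - g)) / m := by ring
    rw [this, ← hP]
    field_simp
  have e2 : x = y + s * q := by rw [hs]; ring
  rw [e1, e2]
  field_simp
  ring

private theorem norm_one {m a b c p1 p2 p3 : ℝ} (hm : 3 ≤ m) (h12 : b ≤ a) (h23 : c ≤ b)
    (hx : 0 < c) (hp1 : 0 < p1) (hp2 : 0 < p2) (hp3 : 0 < p3)
    (E1 : p1 = (m + 1) - m / 2 * (b / c + c / b) + m / 2 * (p1 ^ 2 / (b * c))
      + (p1 ^ 2 - p2 ^ 2 - p3 ^ 2) / (2 * (p2 * p3)))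
    (E2 : p2 = (m + 1) - m / 2 * (a / c + c / a) + m / 2 * (p2 ^ 2 / (a * c))
      + (p2 ^ 2 - p1 ^ 2 - p3 ^ 2) / (2 * (p1 * p3)))
    (E3 : p3 = (m + 1) - m / 2 * (a / b + b / a) + m / 2 * (p3 ^ 2 / (a * b))
      + (p3 ^ 2 - p1 ^ 2 - p2 ^ 2) / (2 * (p1 * p2)))
    (X1 : a = (m + 1) + 1 / 2 * ((a ^ 2 / c - c) / p2 + (a ^ 2 / b - b) / p3
      - p2 / c - p3 / b))
    (X2 : b = (m + 1) + 1 / 2 * ((b ^ 2 / c - c) / p1 + (b ^ 2 / a - a) / p3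
      - p1 / c - p3 / a))
    (X3 : c = (m + 1) + 1 / 2 * ((c ^ 2 / b - b) / p1 + (c ^ 2 / a - a) / p2
      - p1 / b - p2 / a)) :
    ∃ g1 g2 g3 s1 s2 s3 : ℝ, Sys m a b c p1 p2 p3 g1 g2 g3 s1 s2 s3 := by
  have hb : 0 < b := by linarith
  have ha : 0 < a := by linarith
  have hm0 : 0 < m := by linarith
  have hs1 : (b - c) / p1 * p1 = b - c := div_mul_cancel₀ _ hp1.ne'
  have hs2 : (a - c) / p2 * p2 = a - c := div_mul_cancel₀ _ hp2.ne'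
  have hs3 : (a - b) / p3 * p3 = a - b := div_mul_cancel₀ _ hp3.ne'
  have hD : 2 * (p1 * p2 * p3) ≠ 0 := by positivity
  have hg1 : (p1 ^ 2 - (p2 - p3) ^ 2) / (2 * (p1 * p2 * p3)) * (2 * (p1 * p2 * p3)) =
      p1 ^ 2 - (p2 - p3) ^ 2 := div_mul_cancel₀ _ hD
  have hg2 : (p2 ^ 2 - (p1 - p3) ^ 2) / (2 * (p1 * p2 * p3)) * (2 * (p1 * p2 * p3)) =
      p2 ^ 2 - (p1 - p3) ^ 2 := div_mul_cancel₀ _ hD
  have hg3 : (p3 ^ 2 - (p1 - p2) ^ 2) / (2 * (p1 * p2 * p3)) * (2 * (p1 * p2 * p3)) =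
      p3 ^ 2 - (p1 - p2) ^ 2 := div_mul_cancel₀ _ hD
  set s1 := (b - c) / p1
  set s2 := (a - c) / p2
  set s3 := (a - b) / p3
  set g1 := (p1 ^ 2 - (p2 - p3) ^ 2) / (2 * (p1 * p2 * p3))
  set g2 := (p2 ^ 2 - (p1 - p3) ^ 2) / (2 * (p1 * p2 * p3))
  set g3 := (p3 ^ 2 - (p1 - p2) ^ 2) / (2 * (p1 * p2 * p3))
  have P1 : m * p1 * (1 - s1 ^ 2) = 2 * (b * c) * (1 - g1) :=
    P_aux hb hx hp1 hp2 hp3 hs1 (by rw [hg1]) E1
  have P2 : m * p2 * (1 - s2 ^ 2) = 2 * (a * c) * (1 - g2) :=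
    P_aux ha hx hp2 hp1 hp3 hs2 (by rw [← hg2]; ring) E2
  have P3 : m * p3 * (1 - s3 ^ 2) = 2 * (a * b) * (1 - g3) :=
    P_aux ha hb hp3 hp1 hp2 hs3 (by rw [← hg3]; ring) E3
  have T1 := T_aux hm0 hb hx hp1 hs1 P1
  have T2 := T_aux hm0 ha hx hp2 hs2 P2
  have T3 := T_aux hm0 ha hb hp3 hs3 P3
  have R1 := T_aux (x := c) (y := b) (s := -s1) (g := g1) hm0 hx hb hp1 (by linarith)
    (by rw [neg_sq, P1]; ring)
  have R2 := T_aux (x := c) (y := a) (s := -s2) (g := g2) hm0 hx ha hp2 (by linarith)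
    (by rw [neg_sq, P2]; ring)
  have R3 := T_aux (x := b) (y := a) (s := -s3) (g := g3) hm0 hb ha hp3 (by linarith)
    (by rw [neg_sq, P3]; ring)
  refine ⟨g1, g2, g3, s1, s2, s3, ⟨hm, h12, h23, hx, hp1, hp2, hp3, hs1, hs2, hs3, ?_, ?_, ?_,
    P1, P2, P3, ?_, ?_, ?_⟩⟩
  · refine mul_right_cancel₀ (by positivity : 2 * p3 ≠ 0) ?_
    linear_combination hg1 + hg2
  · refine mul_right_cancel₀ (by positivity : 2 * p2 ≠ 0) ?_
    linear_combination hg1 + hg3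
  · refine mul_right_cancel₀ (by positivity : 2 * p1 ≠ 0) ?_
    linear_combination hg2 + hg3
  · have e1 : m * a = m * ((m + 1) + 1 / 2 * ((2 * s2 - 2 / m * a * (1 - g2)) +
        (2 * s3 - 2 / m * a * (1 - g3)))) := by
      rw [← T2, ← T3]
      nth_rw 1 [X1]
      ring
    field_simp at e1
    linarith
  · have e1 : m * b = m * ((m + 1) + 1 / 2 * ((2 * s1 - 2 / m * b * (1 - g1)) +
        (2 * -s3 - 2 / m * b * (1 - g3)))) := by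
      rw [← T1, ← R3]
      nth_rw 1 [X2]
      ring
    field_simp at e1
    linarith
  · have e1 : m * c = m * ((m + 1) + 1 / 2 * ((2 * -s1 - 2 / m * c * (1 - g1)) +
        (2 * -s2 - 2 / m * c * (1 - g2)))) := by
      rw [← R1, ← R2]
      nth_rw 1 [X3]
      ring
    field_simp at e1
    linarith

theorem exists_sys {m lam x1 x2 x3 p1 p2 p3 : ℝ} (hm : 3 ≤ m) (h12 : x2 ≤ x1) (h23 : x3 ≤ x2)
    (hx : 0 < x3) (hp1 : 0 < p1) (hp2 : 0 < p2) (hp3 : 0 < p3)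
    (E1 : lam * p1 = (m + 1) - m / 2 * (x2 / x3 + x3 / x2) + m / 2 * (p1 ^ 2 / (x2 * x3))
      + (p1 ^ 2 - p2 ^ 2 - p3 ^ 2) / (2 * (p2 * p3)))
    (E2 : lam * p2 = (m + 1) - m / 2 * (x1 / x3 + x3 / x1) + m / 2 * (p2 ^ 2 / (x1 * x3))
      + (p2 ^ 2 - p1 ^ 2 - p3 ^ 2) / (2 * (p1 * p3)))
    (E3 : lam * p3 = (m + 1) - m / 2 * (x1 / x2 + x2 / x1) + m / 2 * (p3 ^ 2 / (x1 * x2))
      + (p3 ^ 2 - p1 ^ 2 - p2 ^ 2) / (2 * (p1 * p2)))
    (X1 : lam * x1 = (m + 1) + 1 / 2 * ((x1 ^ 2 / x3 - x3) / p2 + (x1 ^ 2 / x2 - x2) / p3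
      - p2 / x3 - p3 / x2))
    (X2 : lam * x2 = (m + 1) + 1 / 2 * ((x2 ^ 2 / x3 - x3) / p1 + (x2 ^ 2 / x1 - x1) / p3
      - p1 / x3 - p3 / x1))
    (X3 : lam * x3 = (m + 1) + 1 / 2 * ((x3 ^ 2 / x2 - x2) / p1 + (x3 ^ 2 / x1 - x1) / p2
      - p1 / x2 - p2 / x1)) :
    0 < lam ∧ ∃ g1 g2 g3 s1 s2 s3 : ℝ,
      Sys m (lam * x1) (lam * x2) (lam * x3) (lam * p1) (lam * p2) (lam * p3)
        g1 g2 g3 s1 s2 s3 := by
  have hl := lam_pos hm h12 h23 hx hp1 hp2 hp3 E1 E2 E3 X1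
  have hx2 : 0 < x2 := by linarith
  have hx1 : 0 < x1 := by linarith
  refine ⟨hl, norm_one hm (mul_le_mul_of_nonneg_left h12 hl.le)
    (mul_le_mul_of_nonneg_left h23 hl.le) (mul_pos hl hx) (mul_pos hl hp1) (mul_pos hl hp2)
    (mul_pos hl hp3) ?_ ?_ ?_ ?_ ?_ ?_⟩
  · refine E1.trans ?_
    field_simp
  · refine E2.trans ?_
    field_simp
  · refine E3.trans ?_
    field_simp
  · refine X1.trans ?_
    field_simp
  · refine X2.trans ?_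
    field_simp
  · refine X3.trans ?_
    field_simp

end Pool.H36.ST
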