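import Pool.Agent.H36.ST.ND3
import Pool.Agent.H36.ST.Norm
import Pool.Agent.H36.ST.EndSys

/-!
The classification in real variables: conclusion of `Block` (`block_lam_neg`, `block_lam_pos`, for
`(i,j,k) = (1,3,2)` if `p13 ≠ 0` and `(2,3,1)` if `p23 ≠ 0`), `ND`, `ND2`, `ND3`, `Norm`, `EndSys`.
If `p13 ≠ 0` then `p12 = p23 = 0` (`off_zero`), `x1 ≠ x3` by the gauge, the entries `E11, E33, E13`
are `Eii, Ejj, Eij` of `block_lam_neg` (`al = p11`, `be = p33`, `ga = p13`, `p = p22`,
`D = p22 (p11 p33 - p13²)`), `E22` is `Ekk` and `X1` is `Xi` of `block_lam_pos`: contradiction.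
Same for `p23 ≠ 0`: `i = 2`, `j = 3`, `k = 1`.
If all off-diagonal entries vanish: `exists_sys` and `Sys.main`, with `a = lam x1` etc.
The numbers `q22/D` etc. are the diagonal entries of `P⁻¹`.
-/

namespace Pool.H36.ST

theorem classify_real {m lam x1 x2 x3 p11 p22 p33 p12 p13 p23 : ℝ} (hm : 3 ≤ m)
    (h12 : x2 ≤ x1) (h23 : x3 ≤ x2) (hx : 0 < x3) (hp1 : 0 < p11) (hp2 : 0 < p22)
    (hp3 : 0 < p33) (hq3 : 0 < p11 * p22 - p12 ^ 2) (hq2 : 0 < p11 * p33 - p13 ^ 2)
    (hq1 : 0 < p22 * p33 - p23 ^ 2) (hD : 0 < dt p11 p22 p33 p12 p13 p23)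
    (g12 : x1 = x2 → p12 = 0) (g13 : x1 = x3 → p13 = 0) (g23 : x2 = x3 → p23 = 0)
    (hE : EqE m lam x1 x2 x3 p11 p22 p33 p12 p13 p23)
    (X1 : lam * x1 = (m + 1) + 1 / 2 * ((p11 * p33 - p13 ^ 2) / dt p11 p22 p33 p12 p13 p23
        * (x1 ^ 2 / x3 - x3)
      + (p11 * p22 - p12 ^ 2) / dt p11 p22 p33 p12 p13 p23 * (x1 ^ 2 / x2 - x2)
      - p22 / x3 - p33 / x2))
    (X2 : lam * x2 = (m + 1) + 1 / 2 * ((p22 * p33 - p23 ^ 2) / dt p11 p22 p33 p12 p13 p23
        * (x2 ^ 2 / x3 - x3)
      + (p11 * p22 - p12 ^ 2) / dt p11 p22 p33 p12 p13 p23 * (x2 ^ 2 / x1 - x1)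
      - p11 / x3 - p33 / x1))
    (X3 : lam * x3 = (m + 1) + 1 / 2 * ((p22 * p33 - p23 ^ 2) / dt p11 p22 p33 p12 p13 p23
        * (x3 ^ 2 / x2 - x2)
      + (p11 * p33 - p13 ^ 2) / dt p11 p22 p33 p12 p13 p23 * (x3 ^ 2 / x1 - x1)
      - p11 / x2 - p22 / x1)) :
    x1 = x2 ∧ x2 = x3 ∧ p12 = 0 ∧ p13 = 0 ∧ p23 = 0 ∧ p11 = p22 ∧ p22 = p33 ∧
      (m + 2) * p11 ^ 2 - 2 * (m + 1) * p11 * x1 + x1 ^ 2 = 0 := by
  have hx2 : 0 < x2 := by linarith
  have hx1 : 0 < x1 := by linarith
  have hent := entE_of_eqE hE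
  have hrel := rel_of_entE hD.ne' hent
  obtain ⟨z12, z⟩ := off_zero hm h12 h23 hx hp1 hp2 hp3 hD g12 g13 hrel
  obtain ⟨E11, E22, E33, E12, E13, E23⟩ := hent
  subst z12
  by_cases z13 : p13 = 0
  · subst z13
    by_cases z23 : p23 = 0
    · subst z23
      have hDe : dt p11 p22 p33 0 0 0 = p11 * p22 * p33 := by
        unfold dt
        ring
      have hDp : 0 < p11 * p22 * p33 := by positivity
      rw [hDe] at E11 E22 E33 X1 X2 X3
      unfold qf at E11 E22 E33
      have F1 : lam * p11 = (m + 1) - m / 2 * (x2 / x3 + x3 / x2) + m / 2 * (p11 ^ 2 / (x2 * x3))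
          + (p11 ^ 2 - p22 ^ 2 - p33 ^ 2) / (2 * (p22 * p33)) := by
        apply mul_left_cancel₀ hDp.ne'
        rw [E11]
        field_simp
        ring
      have F2 : lam * p22 = (m + 1) - m / 2 * (x1 / x3 + x3 / x1) + m / 2 * (p22 ^ 2 / (x1 * x3))
          + (p22 ^ 2 - p11 ^ 2 - p33 ^ 2) / (2 * (p11 * p33)) := by
        apply mul_left_cancel₀ hDp.ne'
        rw [E22]
        field_simp
        ring
      have F3 : lam * p33 = (m + 1) - m / 2 * (x1 / x2 + x2 / x1) + m / 2 * (p33 ^ 2 / (x1 * x2))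
          + (p33 ^ 2 - p11 ^ 2 - p22 ^ 2) / (2 * (p11 * p22)) := by
        apply mul_left_cancel₀ hDp.ne'
        rw [E33]
        field_simp
        ring
      have Y1 : lam * x1 = (m + 1) + 1 / 2 * ((x1 ^ 2 / x3 - x3) / p22 + (x1 ^ 2 / x2 - x2) / p33
          - p22 / x3 - p33 / x2) := by
        rw [X1]
        field_simp
        ring
      have Y2 : lam * x2 = (m + 1) + 1 / 2 * ((x2 ^ 2 / x3 - x3) / p11 + (x2 ^ 2 / x1 - x1) / p33
          - p11 / x3 - p33 / x1) := by
        rw [X2]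
        field_simp
        ring
      have Y3 : lam * x3 = (m + 1) + 1 / 2 * ((x3 ^ 2 / x2 - x2) / p11 + (x3 ^ 2 / x1 - x1) / p22
          - p11 / x2 - p22 / x1) := by
        rw [X3]
        field_simp
        ring
      obtain ⟨hlam, g1, g2, g3, s1, s2, s3, hsys⟩ :=
        exists_sys hm h12 h23 hx hp1 hp2 hp3 F1 F2 F3 Y1 Y2 Y3
      obtain ⟨a1, a2, a3, a4, a5⟩ := hsys.main
      refine ⟨mul_left_cancel₀ hlam.ne' a1, mul_left_cancel₀ hlam.ne' a2, rfl, rfl, rfl,
        mul_left_cancel₀ hlam.ne' a3, mul_left_cancel₀ hlam.ne' a4, ?_⟩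
      have h1 : lam ^ 2 * ((m + 2) * p11 ^ 2 - 2 * (m + 1) * p11 * x1 + x1 ^ 2) = 0 := by
        rw [← a5]
        ring
      exact (mul_eq_zero.1 h1).resolve_left (by positivity)
    · exfalso
      have hne : x2 ≠ x3 := fun h => z23 (g23 h)
      have hlt : x3 < x2 := lt_of_le_of_ne h23 (fun h => hne h.symm)
      have hDe : dt p11 p22 p33 0 0 p23 = p11 * (p22 * p33 - p23 ^ 2) := by
        unfold dt
        ring
      have hDp : 0 < p11 * (p22 * p33 - p23 ^ 2) := by positivity
      have hq1' := hq1.ne'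
      rw [hDe] at E11 E22 E33 E23 X2
      unfold qf at E11 E22 E33
      obtain ⟨n1, n2, n3⟩ := block_lam_neg (m := m) (lam := lam) (xi := x2) (xj := x3) (xk := x1)
        (al := p22) (be := p33) (ga := p23) (p := p11) hm hx2 hx hx1 hne hp2 hp3 z23 hq1 hp1
        (by
          apply mul_left_cancel₀ hDp.ne'
          rw [E22]
          field_simp
          ring)
        (by
          apply mul_left_cancel₀ hDp.ne'
          rw [E33]
          field_simp
          ring)
        (by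
          apply mul_left_cancel₀ hDp.ne'
          rw [E23]
          field_simp
          ring)
      have n4 := block_lam_pos (m := m) (lam := lam) (xi := x2) (xj := x3) (xk := x1)
        (al := p22) (be := p33) (ga := p23) (p := p11) hm hx hx1 hlt hp2 hp3 hq1 hp1 n2 n3
        (by
          apply mul_left_cancel₀ hDp.ne'
          rw [E11]
          field_simp
          ring)
        (by
          rw [X2]
          field_simp
          ring)
      linarith
  · exfalso
    have z23 : p23 = 0 := (mul_eq_zero.1 z).resolve_left z13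
    subst z23
    have hne : x1 ≠ x3 := fun h => z13 (g13 h)
    have hlt : x3 < x1 := lt_of_le_of_ne (h23.trans h12) (fun h => hne h.symm)
    have hDe : dt p11 p22 p33 0 p13 0 = p22 * (p11 * p33 - p13 ^ 2) := by
      unfold dt
      ring
    have hDp : 0 < p22 * (p11 * p33 - p13 ^ 2) := by positivity
    have hq2' := hq2.ne'
    rw [hDe] at E11 E22 E33 E13 X1
    unfold qf at E11 E22 E33
    obtain ⟨n1, n2, n3⟩ := block_lam_neg (m := m) (lam := lam) (xi := x1) (xj := x3) (xk := x2)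
      (al := p11) (be := p33) (ga := p13) (p := p22) hm hx1 hx hx2 hne hp1 hp3 z13 hq2 hp2
      (by
        apply mul_left_cancel₀ hDp.ne'
        rw [E11]
        field_simp
        ring)
      (by
        apply mul_left_cancel₀ hDp.ne'
        rw [E33]
        field_simp
        ring)
      (by
        apply mul_left_cancel₀ hDp.ne'
        rw [E13]
        field_simp
        ring)
    have n4 := block_lam_pos (m := m) (lam := lam) (xi := x1) (xj := x3) (xk := x2)
      (al := p11) (be := p33) (ga := p13) (p := p22) hm hx hx2 hlt hp1 hp3 hq2 hp2 n2 n3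
      (by
        apply mul_left_cancel₀ hDp.ne'
        rw [E22]
        field_simp
        ring)
      (by
        rw [X1]
        field_simp
        ring)
    linarith

end Pool.H36.ST
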