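import Pool.Agent.H36.ST.Coord

/-!
Invariant inner products for `k = 3`, `m ≥ 3`: `g((u,z),(v,w)) = u·P v + ∑_i z_i·A w_i`.
`Ad h (mk u z) = mk u (z')` with `z'_i = ∑_j h i j z_j` (prove this first). Use
* `h = diag` with entries `-1` at `i` and at some `l ≠ i, j` and `1` elsewhere: it gives
  `g(mk u 0, mk 0 (single i a)) = 0` and `g(mk 0 (single i a), mk 0 (single j b)) = 0` for `i ≠ j`;
* the rotation by a right angle in the plane `(i, j)` (`h i j = 1`, `h j i = -1`,
  `h l l = 1` for the others): `g(mk 0 (single i a), mk 0 (single i b))` does not depend on `i`.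
Then `P a b = g (mk (single a 1) 0) (mk (single b 1) 0)` and
`A a b = g (mk 0 (single i0 (single a 1))) (mk 0 (single i0 (single b 1)))`.
-/

namespace Pool.H36.ST

open Matrix

variable {m : ℕ}

theorem Ad_mk (h : Matrix (Fin m) (Fin m) ℝ) (u : Fin 3 → ℝ) (z : Fin m → Fin 3 → ℝ) :
    Ad h (mk u z) = mk u (fun i a => ∑ j, h i j * z j a) := by
  apply Subtype.ext
  show Matrix.fromBlocks 1 0 0 h * Matrix.fromBlocks (hat u) (Matrix.of fun a i => z i a)
      (Matrix.of fun i a => - z i a) 0 * (Matrix.fromBlocks 1 0 0 h)ᵀ =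
    Matrix.fromBlocks (hat u) (Matrix.of fun a i => ∑ j, h i j * z j a)
      (Matrix.of fun i a => - ∑ j, h i j * z j a) 0
  rw [Matrix.fromBlocks_transpose, Matrix.fromBlocks_multiply, Matrix.fromBlocks_multiply]
  simp only [Matrix.transpose_one, Matrix.transpose_zero, Matrix.one_mul, Matrix.mul_one,
    Matrix.zero_mul, Matrix.mul_zero, add_zero, zero_add]
  congr 1
  · ext a i
    simp only [Matrix.mul_apply, Matrix.of_apply, Matrix.transpose_apply]
    exact Finset.sum_congr rfl fun j _ => mul_comm _ _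
  · ext i a
    simp only [Matrix.mul_apply, Matrix.of_apply, mul_neg, Finset.sum_neg_distrib]

/-- the coordinate `u` -/
private noncomputable def sU (m : ℕ) : (Fin 3 → ℝ) →ₗ[ℝ] Compl 3 m where
  toFun u := mk u 0
  map_add' u v := by
    rw [← mk_add, add_zero]
  map_smul' c u := by
    rw [RingHom.id_apply, ← mk_smul, smul_zero]

/-- the coordinate `z i` -/
private noncomputable def sE (i : Fin m) : (Fin 3 → ℝ) →ₗ[ℝ] Compl 3 m where
  toFun a := mk 0 (Pi.single i a)
  map_add' a b := by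
    rw [← mk_add, add_zero, Pi.single_add]
  map_smul' c a := by
    rw [RingHom.id_apply, ← mk_smul, smul_zero, Pi.single_smul]

private theorem sU_apply (u : Fin 3 → ℝ) : sU m u = mk u 0 := rfl
private theorem sE_apply (i : Fin m) (a : Fin 3 → ℝ) : sE i a = mk 0 (Pi.single i a) := rfl

private theorem s_dec (u : Fin 3 → ℝ) (z : Fin m → Fin 3 → ℝ) :
    mk u z = sU m u + ∑ i, sE i (z i) := by
  have h1 : ∀ s : Finset (Fin m), ∑ i ∈ s, sE i (z i) = mk 0 (∑ i ∈ s, Pi.single i (z i)) := by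
    intro s
    induction s using Finset.induction_on with
    | empty =>
      rw [Finset.sum_empty, Finset.sum_empty]
      have h2 := (sU m).map_zero
      rw [sU_apply] at h2
      exact h2.symm
    | insert i s hi ih =>
      rw [Finset.sum_insert hi, Finset.sum_insert hi, ih, sE_apply, ← mk_add, add_zero]
  rw [h1, sU_apply, ← mk_add, add_zero, zero_add, Finset.univ_sum_single]

private theorem s_diag (i l : Fin m) (hil : l ≠ i) : ∃ h : Matrix (Fin m) (Fin m) ℝ,
    h * hᵀ = 1 ∧ h.det = 1 ∧ (∀ u, Ad h (sU m u) = sU m u) ∧ (∀ a, Ad h (sE i a) = - sE i a) ∧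
    ∀ j, j ≠ i → j ≠ l → ∀ a, Ad h (sE j a) = sE j a := by
  obtain ⟨δ, hδ⟩ : ∃ δ : Fin m → ℝ, ∀ k, δ k = if k = i then -1 else if k = l then -1 else 1 :=
    ⟨_, fun _ => rfl⟩
  have hmv : ∀ (z : Fin m → Fin 3 → ℝ), (fun (k : Fin m) (a : Fin 3) =>
      ∑ j, Matrix.diagonal δ k j * z j a) = fun k a => δ k * z k a := by
    intro z
    funext k a
    rw [Finset.sum_eq_single k]
    · rw [Matrix.diagonal_apply_eq]
    · intro j _ hj
      rw [Matrix.diagonal_apply_ne _ hj.symm, zero_mul]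
    · intro hk
      exact absurd (Finset.mem_univ k) hk
  refine ⟨Matrix.diagonal δ, ?_, ?_, ?_, ?_, ?_⟩
  · rw [Matrix.diagonal_transpose, Matrix.diagonal_mul_diagonal]
    rw [← Matrix.diagonal_one]
    congr 1
    funext k
    rw [hδ]
    by_cases h1 : k = i
    · simp [h1]
    · by_cases h2 : k = l <;> simp [h1, h2, hil]
  · rw [Matrix.det_diagonal]
    have h1 : ∀ k, δ k = (if k = i then -1 else 1) * (if k = l then -1 else 1) := by
      intro k
      rw [hδ]
      by_cases h1 : k = i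
      · simp [h1, hil.symm]
      · simp [h1]
    rw [Finset.prod_congr rfl fun k _ => h1 k, Finset.prod_mul_distrib]
    simp
  · intro u
    rw [sU_apply, Ad_mk, hmv]
    congr 1
    funext k a
    simp
  · intro a
    rw [sE_apply, Ad_mk, hmv, ← sE_apply i a, ← map_neg, sE_apply]
    congr 1
    funext k b
    by_cases hk : k = i
    · subst hk
      rw [Pi.single_eq_same, Pi.single_eq_same, hδ, if_pos rfl]
      simp
    · rw [Pi.single_eq_of_ne hk, Pi.single_eq_of_ne hk]
      simp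
  · intro j hji hjl a
    rw [sE_apply, Ad_mk, hmv]
    congr 1
    funext k b
    by_cases hk : k = j
    · subst hk
      rw [hδ, if_neg hji, if_neg hjl, one_mul]
    · rw [Pi.single_eq_of_ne hk]
      simp

private theorem s_swap (i j : Fin m) (hij : i ≠ j) : ∃ h : Matrix (Fin m) (Fin m) ℝ,
    h * hᵀ = 1 ∧ h.det = 1 ∧ ∀ a, Ad h (sE i a) = - sE j a := by
  obtain ⟨δ, hδ⟩ : ∃ δ : Fin m → ℝ, ∀ k, δ k = if k = i then -1 else 1 := ⟨_, fun _ => rfl⟩
  obtain ⟨σ, hσ⟩ : ∃ σ : Equiv.Perm (Fin m), σ = Equiv.swap i j := ⟨_, rfl⟩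
  have hmv : ∀ (z : Fin m → Fin 3 → ℝ), (fun (k : Fin m) (a : Fin 3) =>
      ∑ l, (σ.permMatrix ℝ * Matrix.diagonal δ) k l * z l a) =
      fun k a => δ (σ k) * z (σ k) a := by
    intro z
    funext k a
    have h1 : ∑ l, (σ.permMatrix ℝ * Matrix.diagonal δ) k l * z l a =
        ((σ.permMatrix ℝ * Matrix.diagonal δ) *ᵥ (fun l => z l a)) k := rfl
    rw [h1, ← Matrix.mulVec_mulVec, Matrix.permMatrix_mulVec, Function.comp_apply,
      Matrix.mulVec_diagonal]
  refine ⟨σ.permMatrix ℝ * Matrix.diagonal δ, ?_, ?_, ?_⟩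
  · rw [Matrix.transpose_mul, Matrix.diagonal_transpose, Matrix.mul_assoc,
      ← Matrix.mul_assoc (Matrix.diagonal δ), Matrix.diagonal_mul_diagonal]
    have h1 : (Matrix.diagonal fun k => δ k * δ k) = (1 : Matrix (Fin m) (Fin m) ℝ) := by
      rw [← Matrix.diagonal_one]
      congr 1
      funext k
      rw [hδ]
      by_cases h1 : k = i <;> simp [h1]
    rw [h1, Matrix.one_mul, Matrix.transpose_permMatrix, ← Matrix.permMatrix_mul]
    simp
  · rw [Matrix.det_mul, Matrix.det_permutation, Matrix.det_diagonal,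
      Finset.prod_congr rfl fun k _ => hδ k, hσ, Equiv.Perm.sign_swap hij]
    simp
  · intro a
    rw [sE_apply, Ad_mk, hmv, ← map_neg, sE_apply]
    congr 1
    funext k b
    by_cases hk : k = j
    · subst hk
      have h1 : σ k = i := by rw [hσ, Equiv.swap_apply_right]
      rw [h1, Pi.single_eq_same, Pi.single_eq_same, hδ, if_pos rfl]
      simp
    · have h1 : σ k ≠ i := by
        intro h
        apply hk
        have h2 := congrArg σ h
        rw [hσ] at h2
        rw [Equiv.swap_apply_self, Equiv.swap_apply_left] at h2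
        exact h2
      rw [Pi.single_eq_of_ne h1, Pi.single_eq_of_ne hk]
      simp

theorem exists_PA (hm : 3 ≤ m) (g : LinearMap.BilinForm ℝ (Compl 3 m))
    (hg : IsInvariantMetric g) :
    ∃ P A : Matrix (Fin 3) (Fin 3) ℝ, P.PosDef ∧ A.PosDef ∧
      ∀ u v : Fin 3 → ℝ, ∀ z w : Fin m → Fin 3 → ℝ,
        g (mk u z) (mk v w) = u ⬝ᵥ (P *ᵥ v) + ∑ i, z i ⬝ᵥ (A *ᵥ w i) := by
  classical
  have hthird : ∀ i j : Fin m, ∃ l, l ≠ i ∧ l ≠ j := by
    intro i j
    have h1 : ({i, j} : Finset (Fin m)).card < (Finset.univ : Finset (Fin m)).card := by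
      rw [Finset.card_univ, Fintype.card_fin]
      exact (Finset.card_le_two).trans_lt (by omega)
    obtain ⟨l, -, hl⟩ := Finset.exists_mem_notMem_of_card_lt_card h1
    rw [Finset.mem_insert, Finset.mem_singleton, not_or] at hl
    exact ⟨l, hl⟩
  have hUE : ∀ (u : Fin 3 → ℝ) (i : Fin m) (a : Fin 3 → ℝ), g (sU m u) (sE i a) = 0 := by
    intro u i a
    obtain ⟨l, hl, -⟩ := hthird i i
    obtain ⟨h, h1, h2, h3, h4, -⟩ := s_diag i l hl
    have h5 := hg.inv h h1 h2 (sU m u) (sE i a)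
    rw [h3, h4, map_neg] at h5
    linarith
  have hEE : ∀ (i j : Fin m) (a b : Fin 3 → ℝ), i ≠ j → g (sE i a) (sE j b) = 0 := by
    intro i j a b hij
    obtain ⟨l, hl, hl'⟩ := hthird i j
    obtain ⟨h, h1, h2, -, h4, h5⟩ := s_diag i l hl
    have h6 := hg.inv h h1 h2 (sE i a) (sE j b)
    rw [h4, h5 j hij.symm hl'.symm, map_neg, LinearMap.neg_apply] at h6
    linarith
  have hE : ∀ (i j : Fin m) (a b : Fin 3 → ℝ), g (sE i a) (sE i b) = g (sE j a) (sE j b) := by
    intro i j a b
    by_cases hij : i = j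
    · rw [hij]
    · obtain ⟨h, h1, h2, h3⟩ := s_swap i j hij
      have h6 := hg.inv h h1 h2 (sE i a) (sE i b)
      rw [h3, h3, map_neg, map_neg, LinearMap.neg_apply, neg_neg] at h6
      exact h6.symm
  obtain ⟨i0⟩ : Nonempty (Fin m) := ⟨⟨0, by omega⟩⟩
  have hval : ∀ (L : (Fin 3 → ℝ) →ₗ[ℝ] Compl 3 m) (u v : Fin 3 → ℝ),
      g (L u) (L v) = u ⬝ᵥ ((LinearMap.BilinForm.toMatrix' (g.comp L L)) *ᵥ v) := by
    intro L u v
    have h1 := Matrix.toBilin'_toMatrix' (g.comp L L)
    rw [← Matrix.toBilin'_apply', h1]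
    rfl
  have hpos : ∀ (L : (Fin 3 → ℝ) →ₗ[ℝ] Compl 3 m), Function.Injective L →
      (LinearMap.BilinForm.toMatrix' (g.comp L L)).PosDef := by
    intro L hL
    refine Matrix.PosDef.of_dotProduct_mulVec_pos ?_ ?_
    · ext a b
      rw [Matrix.conjTranspose_apply]
      simp only [LinearMap.BilinForm.toMatrix'_apply, LinearMap.BilinForm.comp_apply, star_trivial]
      exact hg.symm _ _
    · intro x hx
      rw [star_trivial, ← hval]
      apply hg.pos
      intro h
      apply hx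
      exact hL (h.trans L.map_zero.symm)
  refine ⟨LinearMap.BilinForm.toMatrix' (g.comp (sU m) (sU m)),
    LinearMap.BilinForm.toMatrix' (g.comp (sE i0) (sE i0)), hpos _ ?_, hpos _ ?_, ?_⟩
  · intro u v h
    exact (mk_inj h).1
  · intro a b h
    have h1 := (mk_inj h).2
    have h2 := congrFun h1 i0
    rwa [Pi.single_eq_same, Pi.single_eq_same] at h2
  · intro u v z w
    rw [s_dec u z, s_dec v w]
    simp only [map_add, map_sum, LinearMap.add_apply, LinearMap.sum_apply]
    rw [hval]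
    have e1 : ∑ i, g (sU m u) (sE i (w i)) = 0 := Finset.sum_eq_zero fun i _ => hUE _ _ _
    have e2 : ∑ i, g (sE i (z i)) (sU m v) = 0 := Finset.sum_eq_zero fun i _ => by
      rw [hg.symm]
      exact hUE _ _ _
    have e3 : ∀ i, ∑ j, g (sE j (z j)) (sE i (w i)) = z i ⬝ᵥ
        ((LinearMap.BilinForm.toMatrix' (g.comp (sE i0) (sE i0))) *ᵥ w i) := by
      intro i
      rw [Finset.sum_eq_single i]
      · rw [hE i i0, hval]
      · intro j _ hj
        exact hEE j i _ _ hj
      · intro hi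
        exact absurd (Finset.mem_univ i) hi
    rw [Finset.sum_add_distrib, e1, e2, Finset.sum_congr rfl fun i _ => e3 i]
    ring

end Pool.H36.ST
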