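import Pool.Agent.H36.ST.Extract2
import Pool.Agent.H36.ST.Schur
import Pool.Agent.H36.ST.ND4

/-!
Classification of the invariant Einstein metrics on `V_3 ℝ^{m+3}`, `m ≥ 3`.
-/

namespace Pool.H36.ST

open Matrix

variable {m : ℕ}

theorem form_rot {R P A : Matrix (Fin 3) (Fin 3) ℝ} {g : LinearMap.BilinForm ℝ (Compl 3 m)}
    (hg : ∀ u v : Fin 3 → ℝ, ∀ z w : Fin m → Fin 3 → ℝ,
        g (mk u z) (mk v w) = u ⬝ᵥ (P *ᵥ v) + ∑ i, z i ⬝ᵥ (A *ᵥ w i)) :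
    ∀ u v : Fin 3 → ℝ, ∀ z w : Fin m → Fin 3 → ℝ,
      g (mkR R u z) (mkR R v w) = u ⬝ᵥ ((Rᵀ * P * R) *ᵥ v)
        + ∑ i, z i ⬝ᵥ ((Rᵀ * A * R) *ᵥ w i) := by
  intro u v z w
  have key : ∀ (N : Matrix (Fin 3) (Fin 3) ℝ) (a b : Fin 3 → ℝ),
      (R *ᵥ a) ⬝ᵥ (N *ᵥ (R *ᵥ b)) = a ⬝ᵥ ((Rᵀ * N * R) *ᵥ b) := by
    intro N a b
    rw [Matrix.mulVec_mulVec, Matrix.dotProduct_mulVec, Matrix.vecMul_mulVec,
      ← Matrix.dotProduct_mulVec, ← Matrix.mul_assoc]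
  rw [mkR, mkR, hg, key]
  congr 1
  exact Finset.sum_congr rfl (fun i _ => key A _ _)

theorem posDef_rot {R P : Matrix (Fin 3) (Fin 3) ℝ} (hR : Rᵀ * R = 1) (hP : P.PosDef) :
    (Rᵀ * P * R).PosDef := by
  have h := hP.conjTranspose_mul_mul_same (B := R) (by
    intro a b hab
    have h1 : Rᵀ *ᵥ (R *ᵥ a) = Rᵀ *ᵥ (R *ᵥ b) := by rw [hab]
    rwa [Matrix.mulVec_mulVec, Matrix.mulVec_mulVec, hR, Matrix.one_mulVec,
      Matrix.one_mulVec] at h1)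
  rwa [Matrix.conjTranspose_eq_transpose_of_trivial] at h

theorem symm_of_posDef {P : Matrix (Fin 3) (Fin 3) ℝ} (hP : P.PosDef) : Pᵀ = P := by
  have := hP.1
  rwa [Matrix.IsHermitian, Matrix.conjTranspose_eq_transpose_of_trivial] at this

theorem minors {P : Matrix (Fin 3) (Fin 3) ℝ} (hP : P.PosDef) :
    0 < P 0 0 ∧ 0 < P 1 1 ∧ 0 < P 2 2 ∧ 0 < P 0 0 * P 1 1 - P 0 1 ^ 2 ∧
      0 < P 0 0 * P 2 2 - P 0 2 ^ 2 ∧ 0 < P 1 1 * P 2 2 - P 1 2 ^ 2 ∧
      0 < dt (P 0 0) (P 1 1) (P 2 2) (P 0 1) (P 0 2) (P 1 2) := by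
  have hs := symm_of_posDef hP
  have h10 : P 1 0 = P 0 1 := congrFun (congrFun hs 0) 1
  have h20 : P 2 0 = P 0 2 := congrFun (congrFun hs 0) 2
  have h21 : P 2 1 = P 1 2 := congrFun (congrFun hs 1) 2
  have a0 : 0 < P 0 0 := hP.diag_pos
  have a1 : 0 < P 1 1 := hP.diag_pos
  have a2 : 0 < P 2 2 := hP.diag_pos
  refine ⟨a0, a1, a2, ?_, ?_, ?_, ?_⟩
  · have h := hP.dotProduct_mulVec_pos (x := ![-P 0 1, P 0 0, 0]) (by
      intro h0
      have := congrFun h0 1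
      simp at this
      exact a0.ne' this)
    simp [dotProduct, Matrix.mulVec, Fin.sum_univ_three, h10] at h
    have h2 : 0 < P 0 0 * (P 0 0 * P 1 1 - P 0 1 ^ 2) := by
      nlinarith [h]
    exact pos_of_mul_pos_right h2 a0.le
  · have h := hP.dotProduct_mulVec_pos (x := ![-P 0 2, 0, P 0 0]) (by
      intro h0
      have := congrFun h0 2
      simp at this
      exact a0.ne' this)
    simp [dotProduct, Matrix.mulVec, Fin.sum_univ_three, h20] at h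
    have h2 : 0 < P 0 0 * (P 0 0 * P 2 2 - P 0 2 ^ 2) := by
      nlinarith [h]
    exact pos_of_mul_pos_right h2 a0.le
  · have h := hP.dotProduct_mulVec_pos (x := ![0, -P 1 2, P 1 1]) (by
      intro h0
      have := congrFun h0 2
      simp at this
      exact a1.ne' this)
    simp [dotProduct, Matrix.mulVec, Fin.sum_univ_three, h21] at h
    have h2 : 0 < P 1 1 * (P 1 1 * P 2 2 - P 1 2 ^ 2) := by
      nlinarith [h]
    exact pos_of_mul_pos_right h2 a1.le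
  · have h := hP.det_pos
    rw [Matrix.det_fin_three, h10, h20, h21] at h
    rw [dt]
    linarith

theorem jensen_mk (y : ℝ) (u v : Fin 3 → ℝ) (z w : Fin m → Fin 3 → ℝ) :
    jensenValue y (mk u z) (mk v w) = y * (u ⬝ᵥ v) + ∑ i, z i ⬝ᵥ w i := by
  rw [jensenValue]
  have h1 : ∑ a : Fin 3, ∑ i : Fin m, (mk u z).1 (Sum.inl a) (Sum.inr i)
      * (mk v w).1 (Sum.inl a) (Sum.inr i) = ∑ i, z i ⬝ᵥ w i := by
    rw [Finset.sum_comm]
    rfl
  rw [h1]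
  congr 2
  simp [mk, hat, Fin.sum_univ_three, dotProduct]
  ring

theorem main_thm (hm : 3 ≤ m) (g : LinearMap.BilinForm ℝ (Compl 3 m))
    (hg : IsInvariantMetric g) (he : IsEinstein g) :
    ∃ x y : ℝ, 0 < x ∧ 0 < y ∧ ((m : ℝ) + 2) * y ^ 2 - 2 * ((m : ℝ) + 1) * y + 1 = 0 ∧
      ∀ X Y, g X Y = x * jensenValue y X Y := by
  obtain ⟨P, A, hP, hA, hform⟩ := exists_PA hm g hg
  obtain ⟨R, x, hR, hd, hAx, h10, h21, hoff⟩ :=
    exists_gauge A P (symm_of_posDef hA) (symm_of_posDef hP)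
  have hP' := posDef_rot hR hP
  have hA' := posDef_rot hR hA
  have hform' := form_rot (R := R) hform
  rw [hAx] at hform' hA'
  have hx : ∀ i, 0 < x i := fun i => by
    have := hA'.diag_pos (i := i)
    simpa using this
  obtain ⟨lam, hE, X1, X2, X3⟩ := extract (by omega) hR hd hg.symm hform' hP' hx he
  obtain ⟨a0, a1, a2, q3, q2, q1, hD⟩ := minors hP'
  have hm' : (3 : ℝ) ≤ m := by exact_mod_cast hm
  obtain ⟨e01, e12, f01, f02, f12, d01, d12, quad⟩ := classify_real hm' h10 h21 (hx 2) a0 a1 a2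
    q3 q2 q1 hD (fun h => hoff 0 1 (by decide) h) (fun h => hoff 0 2 (by decide) h)
    (fun h => hoff 1 2 (by decide) h) hE X1 X2 X3
  have hsP := symm_of_posDef hP'
  have g10 : (Rᵀ * P * R) 1 0 = (Rᵀ * P * R) 0 1 := congrFun (congrFun hsP 0) 1
  have g20 : (Rᵀ * P * R) 2 0 = (Rᵀ * P * R) 0 2 := congrFun (congrFun hsP 0) 2
  have g21 : (Rᵀ * P * R) 2 1 = (Rᵀ * P * R) 1 2 := congrFun (congrFun hsP 1) 2
  have hPs : Rᵀ * P * R = (Rᵀ * P * R) 0 0 • (1 : Matrix (Fin 3) (Fin 3) ℝ) := by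
    ext i j
    fin_cases i <;> fin_cases j <;> simp [g10, g20, g21, f01, f02, f12, ← d01, ← d12]
  have hxs : Matrix.diagonal x = x 0 • (1 : Matrix (Fin 3) (Fin 3) ℝ) := by
    ext i j
    fin_cases i <;> fin_cases j <;> simp [← e01, ← e12]
  set p := (Rᵀ * P * R) 0 0 with hp
  have hx0 := hx 0
  refine ⟨x 0, p / x 0, hx0, div_pos a0 hx0, ?_, ?_⟩
  · field_simp
    linear_combination quad
  · intro X Y
    obtain ⟨u, z, rfl⟩ := exists_mkR hR X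
    obtain ⟨v, w, rfl⟩ := exists_mkR hR Y
    rw [hform', hPs, hxs]
    have hj : jensenValue (p / x 0) (mkR R u z) (mkR R v w) =
        p / x 0 * (u ⬝ᵥ v) + ∑ i, z i ⬝ᵥ w i := by
      rw [mkR, mkR, jensen_mk, dot_rot hR]
      congr 1
      exact Finset.sum_congr rfl (fun i _ => dot_rot hR _ _)
    rw [hj]
    simp only [Matrix.smul_mulVec, Matrix.one_mulVec, dotProduct_smul, smul_eq_mul]
    rw [← Finset.mul_sum]
    field_simp

end Pool.H36.ST
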