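import Pool.Agent.H36.ST.ND

/-!
Relations between the off-diagonal entries of `P` and those of its adjugate
`q12 = p13 p23 - p12 p33`, `q13 = p12 p23 - p13 p22`, `q23 = p12 p13 - p11 p23`.
Multiply the Einstein equation `D lam P = D((m+1) - (m/2) R + (m/2) P Sg P) + P³ - tau P` on the
right by `K = adj P` (`P K = D`) and divide by `D`; entry `(i, j)`, `i ≠ j`:
`0 = (m+1) K_ij - (m/2) r_i K_ij + (m/2) D P_ij sg_j + (P²)_ij`, and by Cayley-Hamilton
`(P²)_ij = e1 P_ij + K_ij`.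
For `R12`: the combination `K12 * E11 + K22 * E12 + K32 * E13` of the entries, divided by `D`.
-/

namespace Pool.H36.ST

/-- The six off-diagonal relations. -/
structure Rel (m x1 x2 x3 p11 p22 p33 p12 p13 p23 : ℝ) : Prop where
  R12 : (m + 2 - m / 2 * (x2 / x3 + x3 / x2)) * (p13 * p23 - p12 * p33)
    + m / 2 * dt p11 p22 p33 p12 p13 p23 * p12 / (x1 * x3) + (p11 + p22 + p33) * p12 = 0
  R21 : (m + 2 - m / 2 * (x1 / x3 + x3 / x1)) * (p13 * p23 - p12 * p33)
    + m / 2 * dt p11 p22 p33 p12 p13 p23 * p12 / (x2 * x3) + (p11 + p22 + p33) * p12 = 0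
  R13 : (m + 2 - m / 2 * (x2 / x3 + x3 / x2)) * (p12 * p23 - p13 * p22)
    + m / 2 * dt p11 p22 p33 p12 p13 p23 * p13 / (x1 * x2) + (p11 + p22 + p33) * p13 = 0
  R31 : (m + 2 - m / 2 * (x1 / x2 + x2 / x1)) * (p12 * p23 - p13 * p22)
    + m / 2 * dt p11 p22 p33 p12 p13 p23 * p13 / (x2 * x3) + (p11 + p22 + p33) * p13 = 0
  R23 : (m + 2 - m / 2 * (x1 / x3 + x3 / x1)) * (p12 * p13 - p11 * p23)
    + m / 2 * dt p11 p22 p33 p12 p13 p23 * p23 / (x1 * x2) + (p11 + p22 + p33) * p23 = 0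
  R32 : (m + 2 - m / 2 * (x1 / x2 + x2 / x1)) * (p12 * p13 - p11 * p23)
    + m / 2 * dt p11 p22 p33 p12 p13 p23 * p23 / (x1 * x3) + (p11 + p22 + p33) * p23 = 0

theorem rel_of_entE {m lam x1 x2 x3 p11 p22 p33 p12 p13 p23 : ℝ}
    (hD : dt p11 p22 p33 p12 p13 p23 ≠ 0)
    (h : EntE m lam x1 x2 x3 p11 p22 p33 p12 p13 p23) :
    Rel m x1 x2 x3 p11 p22 p33 p12 p13 p23 := by
  obtain ⟨E11, E22, E33, E12, E13, E23⟩ := h
  refine ⟨?_, ?_, ?_, ?_, ?_, ?_⟩ <;> refine (mul_eq_zero.1 ?_).resolve_left hD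
  · unfold dt qf at *
    linear_combination -(p13 * p23 - p12 * p33) * E11 - (p11 * p33 - p13 ^ 2) * E12
      - (p12 * p13 - p11 * p23) * E13
  · unfold dt qf at *
    linear_combination -(p22 * p33 - p23 ^ 2) * E12 - (p13 * p23 - p12 * p33) * E22
      - (p12 * p23 - p13 * p22) * E23
  · unfold dt qf at *
    linear_combination -(p12 * p23 - p13 * p22) * E11 - (p12 * p13 - p11 * p23) * E12
      - (p11 * p22 - p12 ^ 2) * E13
  · unfold dt qf at *
    linear_combination -(p22 * p33 - p23 ^ 2) * E13 - (p13 * p23 - p12 * p33) * E23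
      - (p12 * p23 - p13 * p22) * E33
  · unfold dt qf at *
    linear_combination -(p12 * p23 - p13 * p22) * E12 - (p12 * p13 - p11 * p23) * E22
      - (p11 * p22 - p12 ^ 2) * E23
  · unfold dt qf at *
    linear_combination -(p13 * p23 - p12 * p33) * E13 - (p11 * p33 - p13 ^ 2) * E23
      - (p12 * p13 - p11 * p23) * E33

end Pool.H36.ST
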