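import Pool.Agent.H36.ST.ND2

/-!
Elimination of the off-diagonal entries, up to one entry.
Write `D = dt ...`, `e1 = p11 + p22 + p33 > 0`.
`R12 - R21` (times `2 x1 x2 x3/(m (x1 - x2))`, if `x1 ≠ x2`): `D p12 = (x1 x2 - x3²) q12`, where
`q12 = p13 p23 - p12 p33`; similarly `D p13 = (x1 x3 - x2²) q13` if `x1 ≠ x3`.
1. `p12 = 0`. If `x1 = x2` this is the gauge `g12`. Otherwise insert `D p12 = (x1 x2 - x3²) q12`
   into `R12`: `q12 (m + 2 - (m/2)(x3/x1 + x3/x2) + e1 (x1 x2 - x3²)/D) = 0`, the bracket is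
   positive (`x3/x1 + x3/x2 ≤ 2`), so `q12 = 0` and `p12 = 0`.
2. `p13 p23 = 0`. If `x1 ≠ x2`: `0 = D p12 = (x1 x2 - x3²) q12`, `x1 x2 > x3²`, `q12 = p13 p23`.
   If `x1 = x2` and `p13 p23 ≠ 0`, then `x1 ≠ x3` by `g13`; `R12` with `p12 = 0`:
   `m + 2 = (m/2)(x2/x3 + x3/x2)`; `D p13 = (x1 x3 - x2²) q13`, so `q13 ≠ 0`, and `R13` gives
   `m + 2 - (m/2)(x2/x1 + x2/x3) + e1 (x1 x3 - x2²)/D = 0`. With `x1 = x2` the difference is
   `(m/2)(1 - x3/x1) = e1 x1 (x3 - x1)/D`, of opposite signs.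
-/

namespace Pool.H36.ST

theorem off_zero {m x1 x2 x3 p11 p22 p33 p12 p13 p23 : ℝ} (hm : 3 ≤ m)
    (h12 : x2 ≤ x1) (h23 : x3 ≤ x2) (hx : 0 < x3) (hp1 : 0 < p11) (hp2 : 0 < p22)
    (hp3 : 0 < p33) (hD : 0 < dt p11 p22 p33 p12 p13 p23)
    (g12 : x1 = x2 → p12 = 0) (g13 : x1 = x3 → p13 = 0)
    (h : Rel m x1 x2 x3 p11 p22 p33 p12 p13 p23) :
    p12 = 0 ∧ p13 * p23 = 0 := by
  obtain ⟨R12, R21, R13, R31, R23, R32⟩ := h
  obtain ⟨D, hDd⟩ : ∃ D, D = dt p11 p22 p33 p12 p13 p23 := ⟨_, rfl⟩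
  rw [← hDd] at hD R12 R21 R13 R31
  obtain ⟨q, hq⟩ : ∃ q, q = p13 * p23 - p12 * p33 := ⟨_, rfl⟩
  rw [← hq] at R12 R21
  obtain ⟨e, he⟩ : ∃ e, e = p11 + p22 + p33 := ⟨_, rfl⟩
  rw [← he] at R12 R21 R13 R31
  have he0 : 0 < e := by rw [he]; linarith
  have hx2 : 0 < x2 := by linarith
  have hx1 : 0 < x1 := by linarith
  have hm0 : 0 < m := by linarith
  have hxx : 0 ≤ x1 * x2 - x3 ^ 2 := by nlinarith
  have key : x1 ≠ x2 → D * p12 = (x1 * x2 - x3 ^ 2) * q := by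
    intro hne
    have h2 : m / 2 * (x1 - x2) / (x1 * x2 * x3) * ((x1 * x2 - x3 ^ 2) * q - D * p12) = 0 := by
      have h3 : m / 2 * (x1 - x2) / (x1 * x2 * x3) * ((x1 * x2 - x3 ^ 2) * q - D * p12) =
          ((m + 2 - m / 2 * (x2 / x3 + x3 / x2)) * q + m / 2 * D * p12 / (x1 * x3) + e * p12) -
          ((m + 2 - m / 2 * (x1 / x3 + x3 / x1)) * q + m / 2 * D * p12 / (x2 * x3) + e * p12) := by
        field_simp
        ring
      rw [h3, R12, R21, sub_zero]
    have h4 : m / 2 * (x1 - x2) / (x1 * x2 * x3) ≠ 0 := by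
      apply div_ne_zero
      · exact mul_ne_zero (by positivity) (sub_ne_zero.2 hne)
      · positivity
    have h5 := (mul_eq_zero.1 h2).resolve_left h4
    linarith
  have hp12 : p12 = 0 := by
    by_cases h12' : x1 = x2
    · exact g12 h12'
    · have k := key h12'
      have h3 : p12 = (x1 * x2 - x3 ^ 2) * q / D := by
        field_simp
        linarith
      have h4 : q * (m + 2 - m / 2 * (x3 / x2 + x3 / x1) + e * (x1 * x2 - x3 ^ 2) / D) = 0 := by
        have h5 : q * (m + 2 - m / 2 * (x3 / x2 + x3 / x1) + e * (x1 * x2 - x3 ^ 2) / D) =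
            (m + 2 - m / 2 * (x2 / x3 + x3 / x2)) * q +
              m / 2 * D * ((x1 * x2 - x3 ^ 2) * q / D) / (x1 * x3) +
              e * ((x1 * x2 - x3 ^ 2) * q / D) := by
          field_simp
          ring
        rw [h5, ← h3]
        exact R12
      have h6 : 0 < m + 2 - m / 2 * (x3 / x2 + x3 / x1) + e * (x1 * x2 - x3 ^ 2) / D := by
        have h7 : x3 / x2 ≤ 1 := by
          rw [div_le_one hx2]
          exact h23
        have h8 : x3 / x1 ≤ 1 := by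
          rw [div_le_one hx1]
          linarith
        have h9 : 0 ≤ e * (x1 * x2 - x3 ^ 2) / D := div_nonneg (mul_nonneg he0.le hxx) hD.le
        have h10 : m / 2 * (x3 / x2 + x3 / x1) ≤ m / 2 * 2 :=
          mul_le_mul_of_nonneg_left (by linarith) (by positivity)
        linarith
      have h7 : q = 0 := (mul_eq_zero.1 h4).resolve_right h6.ne'
      rw [h3, h7]
      simp
  refine ⟨hp12, ?_⟩
  have hq' : q = p13 * p23 := by rw [hq, hp12]; ring
  by_cases h12' : x1 = x2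
  · by_contra hne
    have hq0 : q ≠ 0 := by rw [hq']; exact hne
    have hp13 : p13 ≠ 0 := left_ne_zero_of_mul hne
    have h3 : m + 2 - m / 2 * (x2 / x3 + x3 / x2) = 0 := by
      rw [hp12] at R12
      simp only [mul_zero, zero_div, add_zero] at R12
      exact (mul_eq_zero.1 R12).resolve_right hq0
    rw [h3, zero_mul, zero_add] at R13
    have h4 : p13 * (m / 2 * D / (x1 * x2) + e) = 0 := by
      rw [← R13]
      ring
    have h5 : 0 < m / 2 * D / (x1 * x2) + e := by positivity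
    exact hp13 ((mul_eq_zero.1 h4).resolve_right h5.ne')
  · have k := key h12'
    rw [hp12, mul_zero] at k
    have h3 : 0 < x1 * x2 - x3 ^ 2 := by
      have h4 : x2 < x1 := lt_of_le_of_ne h12 (fun h => h12' h.symm)
      nlinarith
    rw [← hq']
    exact (mul_eq_zero.1 k.symm).resolve_left h3.ne'

end Pool.H36.ST
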