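import Pool.Agent.H36.ST.Frame
import Pool.Agent.H36.ST.Gauge

/-!
An orthonormal basis of `𝔪` adapted to a frame.
-/

namespace Pool.H36.ST

open Matrix

variable {m : ℕ}

/-- For positive definite `P` there is `W` with `Wᵀ P W = 1`. -/
theorem exists_W (P : Matrix (Fin 3) (Fin 3) ℝ) (hP : P.PosDef) :
    ∃ W : Matrix (Fin 3) (Fin 3) ℝ, Wᵀ * P * W = 1 := by
  have hs : Pᵀ = P := by
    have := hP.1
    rwa [Matrix.IsHermitian, Matrix.conjTranspose_eq_transpose_of_trivial] at this
  obtain ⟨R, x, hR, -, hd, -⟩ := exists_gauge P P hs hs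
  have hx : ∀ i, 0 < x i := by
    intro i
    have h1 : x i = (R *ᵥ Pi.single i 1) ⬝ᵥ (P *ᵥ (R *ᵥ Pi.single i 1)) := by
      have : x i = (Rᵀ * P * R) i i := by rw [hd]; simp
      rw [this, Matrix.dotProduct_mulVec, Matrix.vecMul_mulVec]
      simp [Matrix.mul_assoc]
      rw [← Matrix.mul_assoc]
      rfl
    rw [h1]
    have h2 := hP.dotProduct_mulVec_pos (x := R *ᵥ Pi.single i 1) (by
      intro h0
      have h3 : Rᵀ *ᵥ (R *ᵥ Pi.single i 1) = (Pi.single i 1 : Fin 3 → ℝ) := by
        rw [Matrix.mulVec_mulVec, hR, Matrix.one_mulVec]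
      rw [h0, Matrix.mulVec_zero] at h3
      have := congrFun h3 i
      simp at this)
    simpa using h2
  refine ⟨R * Matrix.diagonal (fun i => (Real.sqrt (x i))⁻¹), ?_⟩
  rw [Matrix.transpose_mul, Matrix.diagonal_transpose]
  have e : Matrix.diagonal (fun i => (Real.sqrt (x i))⁻¹) * Rᵀ * P *
      (R * Matrix.diagonal (fun i => (Real.sqrt (x i))⁻¹)) =
      Matrix.diagonal (fun i => (Real.sqrt (x i))⁻¹) * (Rᵀ * P * R) *
        Matrix.diagonal (fun i => (Real.sqrt (x i))⁻¹) := by
    simp only [Matrix.mul_assoc]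
  rw [e, hd, Matrix.diagonal_mul_diagonal, Matrix.diagonal_mul_diagonal, ← Matrix.diagonal_one]
  congr 1
  funext i
  have h3 : Real.sqrt (x i) ≠ 0 := (Real.sqrt_pos.mpr (hx i)).ne'
  have h4 : Real.sqrt (x i) * Real.sqrt (x i) = x i := Real.mul_self_sqrt (hx i).le
  field_simp
  nlinarith [h4]

/-- The adapted family. -/
def fam (R W Y : Matrix (Fin 3) (Fin 3) ℝ) : Fin 3 ⊕ (Fin m × Fin 3) → Compl 3 m
  | Sum.inl a => mkR R (fun i => W i a) 0
  | Sum.inr p => mkR R 0 (Pi.single p.1 (fun i => Y i p.2))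

theorem fam_ortho {R W Y P A : Matrix (Fin 3) (Fin 3) ℝ}
    (g : LinearMap.BilinForm ℝ (Compl 3 m))
    (hg : ∀ u v : Fin 3 → ℝ, ∀ z w : Fin m → Fin 3 → ℝ,
        g (mkR R u z) (mkR R v w) = u ⬝ᵥ (P *ᵥ v) + ∑ i, z i ⬝ᵥ (A *ᵥ w i))
    (hW : Wᵀ * P * W = 1) (hY : Yᵀ * A * Y = 1) (i j : Fin 3 ⊕ (Fin m × Fin 3)) :
    g (fam R W Y i) (fam R W Y j) = if i = j then 1 else 0 := by
  have key : ∀ (M N : Matrix (Fin 3) (Fin 3) ℝ) (a b : Fin 3),
      (fun i => M i a) ⬝ᵥ (N *ᵥ fun i => M i b) = (Mᵀ * N * M) a b := by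
    intro M N a b
    simp [Matrix.mul_apply, dotProduct, Matrix.mulVec, Fin.sum_univ_three]
    ring
  rcases i with a | ⟨i, a⟩ <;> rcases j with b | ⟨j, b⟩
  · rw [fam, fam, hg, key, hW]
    simp [Matrix.one_apply]
  · rw [fam, fam, hg]
    simp
  · rw [fam, fam, hg]
    simp
  · rw [fam, fam, hg]
    simp only [Matrix.mulVec_zero, dotProduct_zero, zero_add]
    rw [Finset.sum_eq_single i]
    · by_cases hij : i = j
      · subst hij
        rw [Pi.single_eq_same, Pi.single_eq_same, key, hY]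
        simp [Matrix.one_apply]
      · rw [Pi.single_eq_of_ne hij]
        simp [hij]
    · intro l _ hl
      rw [Pi.single_eq_of_ne hl]
      simp
    · simp

theorem exists_obasis {R W Y P A : Matrix (Fin 3) (Fin 3) ℝ} (hR : Rᵀ * R = 1)
    (g : LinearMap.BilinForm ℝ (Compl 3 m))
    (hg : ∀ u v : Fin 3 → ℝ, ∀ z w : Fin m → Fin 3 → ℝ,
        g (mkR R u z) (mkR R v w) = u ⬝ᵥ (P *ᵥ v) + ∑ i, z i ⬝ᵥ (A *ᵥ w i))
    (hW : Wᵀ * P * W = 1) (hY : Yᵀ * A * Y = 1) :
    ∃ f : Module.Basis (Fin 3 ⊕ (Fin m × Fin 3)) ℝ (Compl 3 m), (∀ i, f i = fam R W Y i) ∧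
      ∀ i j, g (f i) (f j) = if i = j then 1 else 0 := by
  have ho := fam_ortho (m := m) g hg hW hY
  have hli : LinearIndependent ℝ (fam (m := m) R W Y) := by
    rw [Fintype.linearIndependent_iff]
    intro c hc j
    have h1 : g (∑ i, c i • fam R W Y i) (fam R W Y j) = 0 := by rw [hc]; simp
    rw [map_sum, LinearMap.sum_apply] at h1
    simp only [map_smul, LinearMap.smul_apply, ho, smul_eq_mul, mul_ite, mul_one, mul_zero,
      Finset.sum_ite_eq', Finset.mem_univ, if_true] at h1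
    exact h1
  have hsp : ⊤ ≤ Submodule.span ℝ (Set.range (fam (m := m) R W Y)) := by
    intro X _
    have hz : X - ∑ i, g (fam R W Y i) X • fam R W Y i = 0 := by
      obtain ⟨u, z, h⟩ := exists_mkR hR (X - ∑ i, g (fam R W Y i) X • fam R W Y i)
      have hk : ∀ j, g (fam R W Y j) (mkR R u z) = 0 := by
        intro j
        rw [← h, map_sub, map_sum]
        simp only [map_smul, ho, smul_eq_mul, mul_ite, mul_one, mul_zero,
          Finset.sum_ite_eq, Finset.mem_univ, if_true]
        ring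
      have hW2 : W * (Wᵀ * P) = 1 := mul_eq_one_comm.mp hW
      have hY2 : Y * (Yᵀ * A) = 1 := mul_eq_one_comm.mp hY
      have hu : u = 0 := by
        have h1 : (Wᵀ * P) *ᵥ u = 0 := by
          funext a
          have := hk (Sum.inl a)
          rw [fam, hg] at this
          simp at this
          rw [← Matrix.mulVec_mulVec]
          simpa [Matrix.mulVec, dotProduct] using this
        have h2 : (W * (Wᵀ * P)) *ᵥ u = 0 := by
          rw [← Matrix.mulVec_mulVec, h1, Matrix.mulVec_zero]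
        rwa [hW2, Matrix.one_mulVec] at h2
      have hzz : z = 0 := by
        funext i
        have h1 : (Yᵀ * A) *ᵥ (z i) = 0 := by
          funext a
          have := hk (Sum.inr (i, a))
          rw [fam, hg] at this
          simp only [zero_dotProduct, zero_add] at this
          rw [Finset.sum_eq_single i] at this
          · rw [Pi.single_eq_same] at this
            rw [← Matrix.mulVec_mulVec]
            simpa [Matrix.mulVec, dotProduct] using this
          · intro l _ hl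
            rw [Pi.single_eq_of_ne hl]
            simp
          · simp
        have h2 : (Y * (Yᵀ * A)) *ᵥ (z i) = 0 := by
          rw [← Matrix.mulVec_mulVec, h1, Matrix.mulVec_zero]
        rwa [hY2, Matrix.one_mulVec] at h2
      rw [h, hu, hzz]
      have := mkR_smul R 0 (0 : Fin 3 → ℝ) (0 : Fin m → Fin 3 → ℝ)
      simpa using this
    rw [sub_eq_zero] at hz
    rw [hz]
    refine Submodule.sum_mem _ (fun i _ => Submodule.smul_mem _ _ (Submodule.subset_span ⟨i, rfl⟩))
  refine ⟨Module.Basis.mk hli hsp, fun i => by simp, fun i j => ?_⟩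
  simp only [Module.Basis.mk_apply]
  exact ho i j

end Pool.H36.ST
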