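import Pool.Agent.H36.ST.OBasis

/-!
The Ricci curvature in the directions `(u, 0)` and `(0, z)`, in terms of the matrices `P`, `A`.
-/

namespace Pool.H36.ST

open Matrix

variable {m : ℕ}

theorem hat_mulVec (u v : Fin 3 → ℝ) : hat u *ᵥ v = crossProduct u v := by
  ext i
  fin_cases i <;> simp [hat, cross_apply, Matrix.mulVec, dotProduct, Fin.sum_univ_three] <;> ring

/-- `∑_a (u × w_a)·N (u × w_a) = tr(ûᵀ N û W Wᵀ)`. -/
theorem sum_cross_left (N W : Matrix (Fin 3) (Fin 3) ℝ) (u : Fin 3 → ℝ) :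
    ∑ a, (crossProduct u (fun i => W i a)) ⬝ᵥ (N *ᵥ crossProduct u (fun i => W i a)) =
      ((hat u)ᵀ * N * hat u * (W * Wᵀ)).trace := by
  simp only [← hat_mulVec]
  simp only [Matrix.trace, Matrix.diag, Fin.sum_univ_three, Matrix.mul_apply, Matrix.mulVec,
    dotProduct, Matrix.transpose_apply]
  ring

/-- `∑_{a,b} ((w_a × y_b)·v)² = tr(v̂ᵀ W Wᵀ v̂ Y Yᵀ)`. -/
theorem sum_cross_sq (W Y : Matrix (Fin 3) (Fin 3) ℝ) (v : Fin 3 → ℝ) :
    ∑ a, ∑ b, ((crossProduct (fun i => W i a) (fun i => Y i b)) ⬝ᵥ v) ^ 2 =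
      ((hat v)ᵀ * (W * Wᵀ) * hat v * (Y * Yᵀ)).trace := by
  simp only [Matrix.trace, Matrix.diag, Fin.sum_univ_three, Matrix.mul_apply,
    dotProduct, Matrix.transpose_apply, cross_apply, hat]
  simp
  ring

theorem br_ll {R : Matrix (Fin 3) (Fin 3) ℝ} (hR : Rᵀ * R = 1) (hd : R.det = 1)
    (u v : Fin 3 → ℝ) :
    bracket (mkR R u (0 : Fin m → Fin 3 → ℝ)) (mkR R v 0) = mkR R (crossProduct u v) 0 := by
  rw [bracket_mkR hR hd]
  congr 1
  · simp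
  · funext i
    simp

theorem br_lr {R : Matrix (Fin 3) (Fin 3) ℝ} (hR : Rᵀ * R = 1) (hd : R.det = 1)
    (u y : Fin 3 → ℝ) (i : Fin m) :
    bracket (mkR R u (0 : Fin m → Fin 3 → ℝ)) (mkR R 0 (Pi.single i y)) =
      mkR R 0 (Pi.single i (crossProduct u y)) := by
  rw [bracket_mkR hR hd]
  congr 1
  · simp
  · funext l
    by_cases hl : l = i
    · subst hl
      simp
    · simp [Pi.single_eq_of_ne hl]

theorem br_rl {R : Matrix (Fin 3) (Fin 3) ℝ} (hR : Rᵀ * R = 1) (hd : R.det = 1)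
    (u y : Fin 3 → ℝ) (i : Fin m) :
    bracket (mkR R 0 (Pi.single i y)) (mkR R u (0 : Fin m → Fin 3 → ℝ)) =
      mkR R 0 (Pi.single i (-(crossProduct u y))) := by
  rw [bracket_mkR hR hd]
  congr 1
  · simp
  · funext l
    by_cases hl : l = i
    · subst hl
      simp
    · simp [Pi.single_eq_of_ne hl]

theorem br_rr {R : Matrix (Fin 3) (Fin 3) ℝ} (hR : Rᵀ * R = 1) (hd : R.det = 1)
    (y w : Fin 3 → ℝ) (i j : Fin m) :
    bracket (mkR R 0 (Pi.single i y)) (mkR R 0 (Pi.single j w)) =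
      mkR R (if i = j then crossProduct y w else 0) 0 := by
  rw [bracket_mkR hR hd]
  congr 1
  · rw [Finset.sum_eq_single i]
    · by_cases hij : i = j
      · subst hij
        simp
      · simp [hij]
    · intro l _ hl
      rw [Pi.single_eq_of_ne hl]
      simp
    · simp
  · funext l
    simp

section

variable {R P A : Matrix (Fin 3) (Fin 3) ℝ} {g : LinearMap.BilinForm ℝ (Compl 3 m)}

theorem g_rr (hg : ∀ u v : Fin 3 → ℝ, ∀ z w : Fin m → Fin 3 → ℝ,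
        g (mkR R u z) (mkR R v w) = u ⬝ᵥ (P *ᵥ v) + ∑ i, z i ⬝ᵥ (A *ᵥ w i))
    (i j : Fin m) (y w : Fin 3 → ℝ) :
    g (mkR R 0 (Pi.single i y)) (mkR R 0 (Pi.single j w)) =
      if i = j then y ⬝ᵥ (A *ᵥ w) else 0 := by
  rw [hg, Finset.sum_eq_single i]
  · by_cases hij : i = j
    · subst hij
      simp
    · simp [hij]
  · intro l _ hl
    rw [Pi.single_eq_of_ne hl]
    simp
  · simp

theorem sum_four (F : Fin 3 → Fin 3 → (Fin 3 → ℝ)) (v : Fin 3 → ℝ) :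
    ∑ x : Fin m, ∑ a, ∑ y : Fin m, ∑ b, ((if x = y then F a b else 0) ⬝ᵥ v) ^ 2 =
      m * ∑ a, ∑ b, (F a b ⬝ᵥ v) ^ 2 := by
  have h : ∀ x : Fin m, ∀ a, ∑ y : Fin m, ∑ b, ((if x = y then F a b else 0) ⬝ᵥ v) ^ 2 =
      ∑ b, (F a b ⬝ᵥ v) ^ 2 := by
    intro x a
    rw [Finset.sum_eq_single x]
    · simp
    · intro y _ hy
      simp [Ne.symm hy]
    · simp
  simp only [h]
  simp

theorem ricci_u (hR : Rᵀ * R = 1) (hd : R.det = 1)
    (hg : ∀ u v : Fin 3 → ℝ, ∀ z w : Fin m → Fin 3 → ℝ,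
        g (mkR R u z) (mkR R v w) = u ⬝ᵥ (P *ᵥ v) + ∑ i, z i ⬝ᵥ (A *ᵥ w i))
    (W Y : Matrix (Fin 3) (Fin 3) ℝ) (u : Fin 3 → ℝ) :
    ricci g (fam R W Y) (mkR R u (0 : Fin m → Fin 3 → ℝ)) =
      -(1 / 2) * (((hat u)ᵀ * P * hat u * (W * Wᵀ)).trace
          + m * ((hat u)ᵀ * A * hat u * (Y * Yᵀ)).trace)
        + ((m : ℝ) + 1) * (u ⬝ᵥ u)
        + 1 / 4 * (((hat (P *ᵥ u))ᵀ * (W * Wᵀ) * hat (P *ᵥ u) * (W * Wᵀ)).trace
          + m * ((hat (P *ᵥ u))ᵀ * (Y * Yᵀ) * hat (P *ᵥ u) * (Y * Yᵀ)).trace) := by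
  rw [← sum_cross_left, ← sum_cross_left, ← sum_cross_sq, ← sum_cross_sq, ricci, killing_mkR hR]
  simp only [Fintype.sum_sum_type, Fintype.sum_prod_type, fam, br_ll hR hd, br_lr hR hd,
    br_rl hR hd, br_rr hR hd, g_rr hg, hg]
  have h4 := sum_four (m := m) (fun a b => crossProduct (fun i => Y i a) (fun i => Y i b))
    (P *ᵥ u)
  simp
  linear_combination (1 / 4) * h4

theorem ricci_z (hR : Rᵀ * R = 1) (hd : R.det = 1)
    (hg : ∀ u v : Fin 3 → ℝ, ∀ z w : Fin m → Fin 3 → ℝ,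
        g (mkR R u z) (mkR R v w) = u ⬝ᵥ (P *ᵥ v) + ∑ i, z i ⬝ᵥ (A *ᵥ w i))
    (W Y : Matrix (Fin 3) (Fin 3) ℝ) (z : Fin 3 → ℝ) (i0 : Fin m) :
    ricci g (fam R W Y) (mkR R 0 (Pi.single i0 z)) =
      -(1 / 2) * (((hat z)ᵀ * A * hat z * (W * Wᵀ)).trace
          + ((hat z)ᵀ * P * hat z * (Y * Yᵀ)).trace)
        + ((m : ℝ) + 1) * (z ⬝ᵥ z)
        + 1 / 2 * ((hat (A *ᵥ z))ᵀ * (W * Wᵀ) * hat (A *ᵥ z) * (Y * Yᵀ)).trace := by
  rw [← sum_cross_left, ← sum_cross_left, ← sum_cross_sq, ricci, killing_mkR hR]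
  simp only [Fintype.sum_sum_type, Fintype.sum_prod_type, fam, br_ll hR hd, br_lr hR hd,
    br_rl hR hd, br_rr hR hd, g_rr hg, hg]
  have f1 : ∑ x : Fin m, ∑ b, (if i0 = x then crossProduct z (fun i => Y i b) else 0) ⬝ᵥ
      (P *ᵥ (if i0 = x then crossProduct z (fun i => Y i b) else 0)) =
      ∑ b, crossProduct z (fun i => Y i b) ⬝ᵥ (P *ᵥ crossProduct z (fun i => Y i b)) := by
    rw [Finset.sum_eq_single i0]
    · simp
    · intro x _ hx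
      simp [Ne.symm hx]
    · simp
  have f2 : ∑ i : Fin m, (Pi.single i0 z : Fin m → Fin 3 → ℝ) i ⬝ᵥ
      (Pi.single i0 z : Fin m → Fin 3 → ℝ) i = z ⬝ᵥ z := by
    rw [Finset.sum_eq_single i0]
    · simp
    · intro x _ hx
      rw [Pi.single_eq_of_ne hx]
      simp
    · simp
  have f3 : ∑ a, ∑ b, (crossProduct (fun i => Y i a) (fun i => W i b) ⬝ᵥ (A *ᵥ z)) ^ 2 =
      ∑ a, ∑ b, (crossProduct (fun i => W i a) (fun i => Y i b) ⬝ᵥ (A *ᵥ z)) ^ 2 := by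
    rw [Finset.sum_comm]
    refine Finset.sum_congr rfl (fun a _ => Finset.sum_congr rfl (fun b _ => ?_))
    rw [← cross_anticomm, neg_dotProduct]
    ring
  simp
  linear_combination (-1 / 2) * f1 + ((m : ℝ) + 1) * f2 + (1 / 4) * f3

end

end Pool.H36.ST
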