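import Mathlib

/-!
Invariant Einstein metrics on the real Stiefel manifolds `V_k ℝ^{k+m} = SO(k+m)/SO(m)`:
definitions. An `SO(k+m)`-invariant Riemannian metric is the same as an `Ad(SO(m))`-invariant
inner product `g` on the complement `𝔪 = Compl k m` of `𝔰𝔬(m)` in `𝔰𝔬(k+m)`.
-/

namespace Pool.H36.ST

open Matrix

/-- Index set of the coordinates of `ℝ^{k+m}`: the first `k` and the last `m` ones. -/
abbrev Idx (k m : ℕ) := Fin k ⊕ Fin m

/-- The complement `𝔪` of `𝔰𝔬(m)` in `𝔰𝔬(k+m)`: the skew-symmetric matrices whose lower right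
`m × m` block vanishes. -/
def Compl (k m : ℕ) : Submodule ℝ (Matrix (Idx k m) (Idx k m) ℝ) where
  carrier := {X | Xᵀ = -X ∧ ∀ i j : Fin m, X (Sum.inr i) (Sum.inr j) = 0}
  add_mem' := by
    rintro X Y ⟨h1, h2⟩ ⟨h3, h4⟩
    refine ⟨?_, ?_⟩
    · rw [Matrix.transpose_add, h1, h3, neg_add]
    · intro i j
      simp [h2, h4]
  zero_mem' := by
    refine ⟨by simp, by simp⟩
  smul_mem' := by
    rintro c X ⟨h1, h2⟩
    refine ⟨?_, ?_⟩
    · rw [Matrix.transpose_smul, h1, smul_neg]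
    · intro i j
      simp [h2]

variable {k m : ℕ}

/-- The element of `𝔪` obtained from a skew-symmetric matrix by replacing its lower right block
by zero, that is the projection of `𝔰𝔬(k+m)` onto `𝔪` along `𝔰𝔬(m)`. -/
def proj (X : Matrix (Idx k m) (Idx k m) ℝ) (hX : Xᵀ = -X) : Compl k m :=
  ⟨Matrix.fromBlocks X.toBlocks₁₁ X.toBlocks₁₂ X.toBlocks₂₁ 0, by
    have h : ∀ a b, X b a = - X a b := fun a b => by
      have := congrFun (congrFun hX a) b
      simpa using this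
    refine ⟨?_, ?_⟩
    · ext a b
      rcases a with a | a <;> rcases b with b | b
      · exact h (Sum.inl a) (Sum.inl b)
      · exact h (Sum.inl a) (Sum.inr b)
      · exact h (Sum.inr a) (Sum.inl b)
      · simp
    · intro i j
      simp⟩

/-- The `𝔪`-component `[X, Y]_𝔪` of the commutator of two elements of `𝔪`. -/
def bracket (X Y : Compl k m) : Compl k m :=
  proj (X.1 * Y.1 - Y.1 * X.1) (by
    rw [Matrix.transpose_sub, Matrix.transpose_mul, Matrix.transpose_mul, X.2.1, Y.2.1]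
    simp)

/-- The action `Ad(h) X = diag(1, h) X diag(1, h)ᵀ` of a matrix `h` on `𝔪`. -/
def Ad (h : Matrix (Fin m) (Fin m) ℝ) (X : Compl k m) : Compl k m :=
  ⟨Matrix.fromBlocks 1 0 0 h * X.1 * (Matrix.fromBlocks 1 0 0 h)ᵀ, by
    have e : X.1 = Matrix.fromBlocks X.1.toBlocks₁₁ X.1.toBlocks₁₂ X.1.toBlocks₂₁ 0 := by
      ext a b
      rcases a with a | a <;> rcases b with b | b <;>
        simp [Matrix.toBlocks₁₁, Matrix.toBlocks₁₂, Matrix.toBlocks₂₁, X.2.2]
    refine ⟨?_, ?_⟩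
    · rw [Matrix.transpose_mul, Matrix.transpose_mul, Matrix.transpose_transpose, X.2.1]
      simp [Matrix.mul_assoc]
    · intro i j
      rw [e, Matrix.fromBlocks_transpose, Matrix.fromBlocks_multiply,
        Matrix.fromBlocks_multiply]
      simp⟩

/-- The Killing form `B(X, X) = (k + m - 2) tr(X²)` of `𝔰𝔬(k+m)`. -/
noncomputable def killing (X : Compl k m) : ℝ := ((k : ℝ) + m - 2) * (X.1 * X.1).trace

/-- `g` is additive in the first variable. -/
def IsAdd (g : Compl k m → Compl k m → ℝ) : Prop := ∀ X Y Z, g (X + Y) Z = g X Z + g Y Z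

/-- `g` is homogeneous in the first variable. -/
def IsHom (g : Compl k m → Compl k m → ℝ) : Prop :=
  ∀ (c : ℝ) (X Y : Compl k m), g (c • X) Y = c * g X Y

/-- `g` is positive definite. -/
def IsPos (g : Compl k m → Compl k m → ℝ) : Prop := ∀ X, X ≠ 0 → 0 < g X X

/-- `g` is an inner product on `𝔪`: symmetric, bilinear and positive definite. -/
def IsInner (g : Compl k m → Compl k m → ℝ) : Prop :=
  (∀ X Y, g X Y = g Y X) ∧ IsAdd g ∧ IsHom g ∧ IsPos g

/-- `g` is an `Ad(SO(m))`-invariant inner product on `𝔪`, that is an `SO(k+m)`-invariant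
Riemannian metric on `V_k ℝ^{k+m} = SO(k+m)/SO(m)`. -/
def IsInvMetric (g : Compl k m → Compl k m → ℝ) : Prop :=
  IsInner g ∧ ∀ h : Matrix (Fin m) (Fin m) ℝ, h * hᵀ = 1 → h.det = 1 →
    ∀ X Y, g (Ad h X) (Ad h Y) = g X Y

/-- The vectors `e_i` span `𝔪`. -/
def Spans {d : ℕ} (e : Fin d → Compl k m) : Prop := Submodule.span ℝ (Set.range e) = ⊤

/-- `e` is a `g`-orthonormal basis of `𝔪`: `g(e_i, e_j) = δ_ij` and the `e_i` span `𝔪`. -/
def IsONB (g : Compl k m → Compl k m → ℝ) {d : ℕ} (e : Fin d → Compl k m) : Prop :=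
  (∀ i j, g (e i) (e j) = if i = j then 1 else 0) ∧ Spans e

/-- The Ricci curvature `Ric(X, X)` of the invariant metric `g`, in terms of a `g`-orthonormal
basis `e` of `𝔪` (Besse, Einstein Manifolds, 7.38; `SO(k+m)` is unimodular):
`Ric(X,X) = - 1/2 ∑ |[X,e_i]_𝔪|² - 1/2 B(X,X) + 1/4 ∑ g([e_i,e_j]_𝔪, X)²`. -/
noncomputable def ric (g : Compl k m → Compl k m → ℝ) {d : ℕ} (e : Fin d → Compl k m)
    (X : Compl k m) : ℝ :=
  -(1 / 2) * ∑ i, g (bracket X (e i)) (bracket X (e i)) - (1 / 2) * killing X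
    + (1 / 4) * ∑ i, ∑ j, (g (bracket (e i) (e j)) X) ^ 2

/-- `g` is Einstein: `Ric(X, X) = c g(X, X)` for a constant `c`, the Ricci curvature being
computed in a `g`-orthonormal basis of `𝔪`. -/
def IsEin (g : Compl k m → Compl k m → ℝ) : Prop :=
  ∃ (c : ℝ) (d : ℕ) (e : Fin d → Compl k m), IsONB g e ∧ ∀ X, ric g e X = c * g X X

/-- Jensen's inner product `y ⟨X₀, Y₀⟩ + ⟨X₁, Y₁⟩`, where `X₀` is the upper left `k × k` block and
`X₁` the upper right `k × m` block, with `⟨X₀, Y₀⟩ = ∑_{a<b} X_ab Y_ab` and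
`⟨X₁, Y₁⟩ = ∑ X_ai Y_ai`. -/
noncomputable def jensenValue (y : ℝ) (X Y : Compl k m) : ℝ :=
  y * ((1 / 2) * ∑ a : Fin k, ∑ b : Fin k, X.1 (Sum.inl a) (Sum.inl b) * Y.1 (Sum.inl a) (Sum.inl b))
    + ∑ a : Fin k, ∑ i : Fin m, X.1 (Sum.inl a) (Sum.inr i) * Y.1 (Sum.inl a) (Sum.inr i)

/-- `g = x J_y`, where `J_y = jensenValue y` is the inner product of Jensen. -/
def IsJensen (x y : ℝ) (g : Compl k m → Compl k m → ℝ) : Prop :=
  ∀ X Y, g X Y = x * jensenValue y X Y

end Pool.H36.ST
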