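import Mathlib

/-!
The normalised system (Einstein constant 1) of the diagonal invariant Einstein metrics on
`V_3 ℝ^{m+3}`, in real variables, and its elementary consequences.
`a ≥ b ≥ c` are the eigenvalues of the metric on `ℝ^3 ⊗ ℝ^m`, `p1, p2, p3` those on `𝔰𝔬(3)`,
`s_i = d_i / p_i` with `d_1 = b - c`, `d_2 = a - c`, `d_3 = a - b`.
-/

namespace Pool.H36.ST

/-- The normalised diagonal system. -/
structure Sys (m a b c p1 p2 p3 g1 g2 g3 s1 s2 s3 : ℝ) : Prop where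
  hm : 3 ≤ m
  hab : b ≤ a
  hbc : c ≤ b
  hc : 0 < c
  hp1 : 0 < p1
  hp2 : 0 < p2
  hp3 : 0 < p3
  e1 : s1 * p1 = b - c
  e2 : s2 * p2 = a - c
  e3 : s3 * p3 = a - b
  g12 : (g1 + g2) * (p1 * p2) = p1 + p2 - p3
  g13 : (g1 + g3) * (p1 * p3) = p1 + p3 - p2
  g23 : (g2 + g3) * (p2 * p3) = p2 + p3 - p1
  P1 : m * p1 * (1 - s1 ^ 2) = 2 * (b * c) * (1 - g1)
  P2 : m * p2 * (1 - s2 ^ 2) = 2 * (a * c) * (1 - g2)
  P3 : m * p3 * (1 - s3 ^ 2) = 2 * (a * b) * (1 - g3)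
  Xa : a * (m + 2 - g2 - g3) = m * (m + 1 + s2 + s3)
  Xb : b * (m + 2 - g1 - g3) = m * (m + 1 + s1 - s3)
  Xc : c * (m + 2 - g1 - g2) = m * (m + 1 - s1 - s2)

namespace Sys

variable {m a b c p1 p2 p3 g1 g2 g3 s1 s2 s3 : ℝ}

theorem hb (h : Sys m a b c p1 p2 p3 g1 g2 g3 s1 s2 s3) : 0 < b := lt_of_lt_of_le h.hc h.hbc

theorem ha (h : Sys m a b c p1 p2 p3 g1 g2 g3 s1 s2 s3) : 0 < a := lt_of_lt_of_le h.hb h.hab

theorem s1_nonneg (h : Sys m a b c p1 p2 p3 g1 g2 g3 s1 s2 s3) : 0 ≤ s1 := by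
  have h1 : 0 ≤ s1 * p1 := by rw [h.e1]; linarith [h.hbc]
  exact nonneg_of_mul_nonneg_left h1 h.hp1

theorem s2_nonneg (h : Sys m a b c p1 p2 p3 g1 g2 g3 s1 s2 s3) : 0 ≤ s2 := by
  have h1 : 0 ≤ s2 * p2 := by rw [h.e2]; linarith [h.hbc, h.hab]
  exact nonneg_of_mul_nonneg_left h1 h.hp2

theorem s3_nonneg (h : Sys m a b c p1 p2 p3 g1 g2 g3 s1 s2 s3) : 0 ≤ s3 := by
  have h1 : 0 ≤ s3 * p3 := by rw [h.e3]; linarith [h.hab]
  exact nonneg_of_mul_nonneg_left h1 h.hp3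

/-- `2 g_1 p_1p_2p_3 = p_1² - (p_2 - p_3)²`. -/
theorem gf1 (h : Sys m a b c p1 p2 p3 g1 g2 g3 s1 s2 s3) :
    2 * g1 * (p1 * p2 * p3) = p1 ^ 2 - (p2 - p3) ^ 2 := by
  linear_combination p3 * h.g12 + p2 * h.g13 - p1 * h.g23

theorem gf2 (h : Sys m a b c p1 p2 p3 g1 g2 g3 s1 s2 s3) :
    2 * g2 * (p1 * p2 * p3) = p2 ^ 2 - (p1 - p3) ^ 2 := by
  linear_combination p3 * h.g12 - p2 * h.g13 + p1 * h.g23

theorem gf3 (h : Sys m a b c p1 p2 p3 g1 g2 g3 s1 s2 s3) :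
    2 * g3 * (p1 * p2 * p3) = p3 ^ 2 - (p1 - p2) ^ 2 := by
  linear_combination -p3 * h.g12 + p2 * h.g13 + p1 * h.g23

/-- `p_1 (g_1 + g_3) + p_2 (g_2 + g_3) = 2`. -/
theorem two12 (h : Sys m a b c p1 p2 p3 g1 g2 g3 s1 s2 s3) :
    p1 * (g1 + g3) + p2 * (g2 + g3) = 2 := by
  have h3 := h.hp3
  have := mul_left_cancel₀ h3.ne' (a := p3) (b := p1 * (g1 + g3) + p2 * (g2 + g3)) (c := 2)
    (by linear_combination h.g13 + h.g23)
  exact this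

theorem two13 (h : Sys m a b c p1 p2 p3 g1 g2 g3 s1 s2 s3) :
    p1 * (g1 + g2) + p3 * (g2 + g3) = 2 := by
  have h3 := h.hp2
  have := mul_left_cancel₀ h3.ne' (a := p2) (b := p1 * (g1 + g2) + p3 * (g2 + g3)) (c := 2)
    (by linear_combination h.g12 + h.g23)
  exact this

theorem two23 (h : Sys m a b c p1 p2 p3 g1 g2 g3 s1 s2 s3) :
    p2 * (g1 + g2) + p3 * (g1 + g3) = 2 := by
  have h3 := h.hp1
  have := mul_left_cancel₀ h3.ne' (a := p1) (b := p2 * (g1 + g2) + p3 * (g1 + g3)) (c := 2)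
    (by linear_combination h.g12 + h.g13)
  exact this

/-- `(g_1 - g_2) p_3 = (p_1 - p_2)(g_1 + g_2)`. -/
theorem dg12 (h : Sys m a b c p1 p2 p3 g1 g2 g3 s1 s2 s3) :
    (g1 - g2) * p3 = (p1 - p2) * (g1 + g2) := by
  have h3 := mul_pos h.hp1 h.hp2
  refine mul_left_cancel₀ h3.ne' (a := p1 * p2) ?_
  linear_combination -(p1 - p2) * h.g12 + p2 * h.g13 - p1 * h.g23

theorem dg13 (h : Sys m a b c p1 p2 p3 g1 g2 g3 s1 s2 s3) :
    (g1 - g3) * p2 = (p1 - p3) * (g1 + g3) := by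
  have h3 := mul_pos h.hp1 h.hp3
  refine mul_left_cancel₀ h3.ne' (a := p1 * p3) ?_
  linear_combination -(p1 - p3) * h.g13 + p3 * h.g12 - p1 * h.g23

theorem dg23 (h : Sys m a b c p1 p2 p3 g1 g2 g3 s1 s2 s3) :
    (g2 - g3) * p1 = (p2 - p3) * (g2 + g3) := by
  have h3 := mul_pos h.hp2 h.hp3
  refine mul_left_cancel₀ h3.ne' (a := p2 * p3) ?_
  linear_combination -(p2 - p3) * h.g23 + p3 * h.g12 - p2 * h.g13

end Sys

end Pool.H36.ST
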