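import Pool.Agent.H36.ST.Sys

/-!
Step T, first part. If `p1 ≥ p2 + p3` then `g2, g3 ≤ 0 < g1` (`Sys.gf1` ...), so `P2` gives
`m (p2² - (a-c)²) ≥ 2 a c p2` and `P1` gives `m (p1² - (b-c)²) < 2 b c p1`; but `p1 ≥ p2`,
`a - c ≥ b - c`, `a c ≥ b c`: contradiction (`p1 (m p1 - 2bc) ≥ p2 (m p2 - 2bc) ≥ m (a-c)²`).
If `p2 ≥ p1 + p3` then `g1, g3 ≤ 0 < g2`. With `k_i` the numbers `bc/m`, `ac/m`, `ab/m`:
`(p1+p3)² - (d1+d3)² ≥ 2 k1 p1 + 2 k3 p3 + 2 (p1 p3 - d1 d3)`, and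
`p1 p3 - d1 d3 ≥ p1 (p3 - d3) ≥ p1 k3` because `p3² - d3² ≥ 2 k3 p3` and `d3 < p3`;
`k3 ≥ k2`, so `(p1+p3)² - d2² ≥ 2 k2 (p1+p3)`, hence `p2² - d2² ≥ 2 k2 p2`, which contradicts
`p2² - d2² = 2 k2 (1 - g2) p2`.
-/

namespace Pool.H36.ST

namespace Sys

variable {m a b c p1 p2 p3 g1 g2 g3 s1 s2 s3 : ℝ}

theorem t1 (h : Sys m a b c p1 p2 p3 g1 g2 g3 s1 s2 s3) : p1 < p2 + p3 := by
  by_contra hcon
  rw [not_lt] at hcon
  have hp1 := h.hp1
  have hp2 := h.hp2
  have hp3 := h.hp3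
  have ha := h.ha
  have hb := h.hb
  have hc := h.hc
  have hm := h.hm
  have hab := h.hab
  have hbc := h.hbc
  have hp : 0 < p1 * p2 * p3 := by positivity
  have hac : 0 < a * c := mul_pos ha hc
  have hbc' : 0 < b * c := mul_pos hb hc
  have hg2 : g2 ≤ 0 := by
    have h1 : g2 * (2 * (p1 * p2 * p3)) ≤ 0 := by
      have := h.gf2
      nlinarith
    exact nonpos_of_mul_nonpos_left h1 (by positivity)
  have hg1 : 0 < g1 := by
    have h1 : 0 < g1 * (2 * (p1 * p2 * p3)) := by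
      have := h.gf1
      nlinarith
    exact pos_of_mul_pos_left h1 (by positivity)
  -- the second equation
  have e2 : 2 * (a * c) ≤ m * p2 * (1 - s2 ^ 2) := by
    rw [h.P2]
    nlinarith
  have f2 : 2 * (a * c) ≤ m * p2 := by
    have : 0 ≤ m * p2 * s2 ^ 2 := by positivity
    linarith
  have d2 : 2 * (a * c) * p2 ≤ m * (p2 ^ 2 - (a - c) ^ 2) := by
    have h1 := mul_le_mul_of_nonneg_right e2 hp2.le
    have h2 : m * p2 * (1 - s2 ^ 2) * p2 = m * (p2 ^ 2 - (a - c) ^ 2) := by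
      rw [← h.e2]; ring
    linarith
  have e1 : m * p1 * (1 - s1 ^ 2) < 2 * (b * c) := by
    rw [h.P1]
    nlinarith
  have d1 : m * (p1 ^ 2 - (b - c) ^ 2) < 2 * (b * c) * p1 := by
    have h1 := mul_lt_mul_of_pos_right e1 hp1
    have h2 : m * p1 * (1 - s1 ^ 2) * p1 = m * (p1 ^ 2 - (b - c) ^ 2) := by
      rw [← h.e1]; ring
    linarith
  have h3 : (b - c) ^ 2 ≤ (a - c) ^ 2 := by nlinarith
  have h4 : m * (b - c) ^ 2 ≤ m * (a - c) ^ 2 := mul_le_mul_of_nonneg_left h3 (by linarith)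
  have h5 : b * c * p1 ≤ a * c * p1 := by
    have : b * c ≤ a * c := mul_le_mul_of_nonneg_right hab hc.le
    exact mul_le_mul_of_nonneg_right this hp1.le
  -- `(p1 - p2) (m (p1 + p2) - 2ac) < 0`
  rw [mul_sub] at d1 d2
  have h6 : (p1 - p2) * (m * (p1 + p2) - 2 * (a * c)) < 0 := by
    have e : (p1 - p2) * (m * (p1 + p2) - 2 * (a * c)) =
      (m * p1 ^ 2 - 2 * (a * c * p1)) - (m * p2 ^ 2 - 2 * (a * c) * p2) := by ring
    rw [e]
    have e' : 2 * (b * c) * p1 = 2 * (b * c * p1) := by ring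
    linarith
  have h7 : 0 < p1 - p2 := by linarith
  have h8 : 0 < m * (p1 + p2) - 2 * (a * c) := by
    have : 0 < m * p1 := by positivity
    have e : m * (p1 + p2) = m * p1 + m * p2 := by ring
    linarith
  have := mul_pos h7 h8
  linarith

theorem t2 (h : Sys m a b c p1 p2 p3 g1 g2 g3 s1 s2 s3) : p2 < p1 + p3 := by
  by_contra hcon
  rw [not_lt] at hcon
  have hp1 := h.hp1
  have hp2 := h.hp2
  have hp3 := h.hp3
  have ha := h.ha
  have hb := h.hb
  have hc := h.hc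
  have hm := h.hm
  have hm0 : 0 < m := by linarith
  have hab := h.hab
  have hbc := h.hbc
  have hs1 := h.s1_nonneg
  have hs3 := h.s3_nonneg
  have hp : 0 < p1 * p2 * p3 := by positivity
  have hac : 0 < a * c := mul_pos ha hc
  have hbc' : 0 < b * c := mul_pos hb hc
  have hab' : 0 < a * b := mul_pos ha hb
  have hg1 : g1 ≤ 0 := by
    have h1 : g1 * (2 * (p1 * p2 * p3)) ≤ 0 := by
      have := h.gf1
      nlinarith
    exact nonpos_of_mul_nonpos_left h1 (by positivity)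
  have hg3 : g3 ≤ 0 := by
    have h1 : g3 * (2 * (p1 * p2 * p3)) ≤ 0 := by
      have := h.gf3
      nlinarith
    exact nonpos_of_mul_nonpos_left h1 (by positivity)
  have hg2 : 0 < g2 := by
    have h1 : 0 < g2 * (2 * (p1 * p2 * p3)) := by
      have := h.gf2
      nlinarith
    exact pos_of_mul_pos_left h1 (by positivity)
  have e1 : 2 * (b * c) ≤ m * p1 * (1 - s1 ^ 2) := by
    rw [h.P1]
    nlinarith
  have e3 : 2 * (a * b) ≤ m * p3 * (1 - s3 ^ 2) := by
    rw [h.P3]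
    nlinarith
  have e2 : m * p2 * (1 - s2 ^ 2) < 2 * (a * c) := by
    rw [h.P2]
    nlinarith
  have k1 : s1 ≤ 1 := by
    by_contra hn
    rw [not_le] at hn
    have : 1 - s1 ^ 2 < 0 := by nlinarith
    have h1 : m * p1 * (1 - s1 ^ 2) < 0 := mul_neg_of_pos_of_neg (by positivity) this
    linarith
  have k3 : s3 ≤ 1 := by
    by_contra hn
    rw [not_le] at hn
    have : 1 - s3 ^ 2 < 0 := by nlinarith
    have h1 : m * p3 * (1 - s3 ^ 2) < 0 := mul_neg_of_pos_of_neg (by positivity) this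
    linarith
  -- `m (1 - s3) p3 ≥ ab`
  have f3 : a * b ≤ m * p3 * (1 - s3) := by
    have h1 : m * p3 * (1 - s3 ^ 2) ≤ m * p3 * (2 * (1 - s3)) := by
      apply mul_le_mul_of_nonneg_left _ (by positivity)
      nlinarith
    linarith
  -- the sum
  have d1 : 2 * (b * c) * p1 ≤ m * (p1 ^ 2 - (b - c) ^ 2) := by
    have h1 := mul_le_mul_of_nonneg_right e1 hp1.le
    have h2 : m * p1 * (1 - s1 ^ 2) * p1 = m * (p1 ^ 2 - (b - c) ^ 2) := by
      rw [← h.e1]; ring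
    linarith
  have d3 : 2 * (a * b) * p3 ≤ m * (p3 ^ 2 - (a - b) ^ 2) := by
    have h1 := mul_le_mul_of_nonneg_right e3 hp3.le
    have h2 : m * p3 * (1 - s3 ^ 2) * p3 = m * (p3 ^ 2 - (a - b) ^ 2) := by
      rw [← h.e3]; ring
    linarith
  have d2 : m * (p2 ^ 2 - (a - c) ^ 2) < 2 * (a * c) * p2 := by
    have h1 := mul_lt_mul_of_pos_right e2 hp2
    have h2 : m * p2 * (1 - s2 ^ 2) * p2 = m * (p2 ^ 2 - (a - c) ^ 2) := by
      rw [← h.e2]; ring
    linarith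
  have d13 : a * b * p1 ≤ m * (p1 * p3 - (b - c) * (a - b)) := by
    have h1 := mul_le_mul_of_nonneg_right f3 hp1.le
    have h2 : (b - c) * (a - b) ≤ p1 * (s3 * p3) := by
      rw [← h.e1, ← h.e3]
      have : 0 ≤ (1 - s1) * (p1 * (s3 * p3)) := by
        apply mul_nonneg (by linarith) (by positivity)
      nlinarith
    have h3 : m * (p1 * p3 - p1 * (s3 * p3)) ≤ m * (p1 * p3 - (b - c) * (a - b)) :=
      mul_le_mul_of_nonneg_left (by linarith) hm0.le
    nlinarith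
  have hsum : m * ((p1 + p3) ^ 2 - (a - c) ^ 2) = m * (p1 ^ 2 - (b - c) ^ 2) +
      m * (p3 ^ 2 - (a - b) ^ 2) + 2 * (m * (p1 * p3 - (b - c) * (a - b))) := by ring
  have hbcp : 0 < b * c * p1 := by positivity
  have i1 : a * c * p1 ≤ a * b * p1 :=
    mul_le_mul_of_nonneg_right (mul_le_mul_of_nonneg_left hbc ha.le) hp1.le
  have i3 : a * c * p3 ≤ a * b * p3 :=
    mul_le_mul_of_nonneg_right (mul_le_mul_of_nonneg_left hbc ha.le) hp3.le
  have q1 : 2 * (a * c) * (p1 + p3) < m * ((p1 + p3) ^ 2 - (a - c) ^ 2) := by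
    rw [hsum]
    linarith
  set q := p1 + p3 with hq
  have hq0 : 0 < q := by positivity
  have hsq : 0 ≤ m * (a - c) ^ 2 := by positivity
  rw [mul_sub] at q1 d2
  have q2 : 2 * (a * c) < m * q := by
    have e : q * (m * q - 2 * (a * c)) = m * q ^ 2 - 2 * (a * c) * q := by ring
    have : 0 < q * (m * q - 2 * (a * c)) := by rw [e]; linarith
    have := pos_of_mul_pos_right this hq0.le
    linarith
  have q3 : (p2 - q) * (m * (p2 + q) - 2 * (a * c)) < 0 := by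
    have e : (p2 - q) * (m * (p2 + q) - 2 * (a * c)) =
      (m * p2 ^ 2 - 2 * (a * c) * p2) - (m * q ^ 2 - 2 * (a * c) * q) := by ring
    rw [e]
    linarith
  have q4 : 0 ≤ (p2 - q) * (m * (p2 + q) - 2 * (a * c)) := by
    apply mul_nonneg (by linarith)
    have : 0 < m * p2 := by positivity
    have e : m * (p2 + q) = m * p2 + m * q := by ring
    linarith
  linarith

end Sys

end Pool.H36.ST
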